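import Pool.Agent.NRR.Targets

/-!
# NRR, target AV1: counting the non-reconstructible members, one removed vertex
-/

set_option autoImplicit false

open Finset Classical

namespace Pool.Agent.NRR

open Pool.Agent Pool.Agent.Lib.Recon Pool.Agent.RNB Pool.Agent.NRC Pool.Agent.NRM
  Pool.Agent.NRP

namespace AV1_

theorem cfi {α : Type} [Fintype α] (p q : α → Prop) (i1 : DecidablePred p)
    (i2 : DecidablePred q) (h : ∀ a, p a → q a) :
    (@Finset.filter α p i1 univ).card ≤ (@Finset.filter α q i2 univ).card :=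
  card_le_card fun a ha => by
    rw [Finset.mem_filter] at ha ⊢
    exact ⟨ha.1, h a ha.2⟩

theorem cfj {α : Type} (j1 j2 : Fintype α) (p q : α → Prop) (i1 : DecidablePred p)
    (i2 : DecidablePred q) (h : ∀ a, p a → q a) :
    (@Finset.filter α p i1 (@univ α j1)).card ≤ (@Finset.filter α q i2 (@univ α j2)).card :=
  card_le_card fun a ha => by
    rw [Finset.mem_filter] at ha ⊢
    exact ⟨@Finset.mem_univ α j2 a, h a ha.2⟩

theorem cfn {α : Type} [Fintype α] (p q : α → Prop) (i1 : DecidablePred p)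
    (h : ∀ a, p a → q a) :
    (@Finset.filter α p i1 univ).card ≤ Nat.card {a // q a} := by
  classical
  rw [Nat.card_eq_fintype_card, Fintype.card_subtype]
  exact cfi _ _ _ _ h

theorem dset_inst {V : Type} [Fintype V] (i1 i2 : DecidableEq V) (G : SimpleGraph V)
    (u v : V) : @dset V _ i1 G u v = @dset V _ i2 G u v := by
  rw [Subsingleton.elim i1 i2]

/-- the number of graphs with a code, off one vertex -/
theorem bound (h4 : NRQ.T_DCQ) (h5 : NRQ.T_DC1) {V : Type} [Fintype V] (F : SimpleGraph V)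
    (A : Finset V) (v : V) :
    (univ.filter (fun K : SimpleGraph V =>
      (∀ x y, x ≠ v → y ≠ v → (K.Adj x y ↔ F.Adj x y)) ∧ Gq K A v)).card ≤
      NN (Fintype.card V) := by
  refine le_trans (card_le_card (t := univ.filter (fun K : SimpleGraph V =>
      (∀ x y, x ≠ v → y ≠ v → (K.Adj x y ↔ F.Adj x y)) ∧
        Gd1 K (pg (Fintype.card V)) (M1 (Fintype.card V)) A v) ∪
    univ.filter (fun K : SimpleGraph V =>
      (∀ x y, x ≠ v → y ≠ v → (K.Adj x y ↔ F.Adj x y)) ∧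
        NRQ.Cd K (pg (Fintype.card V)) (pg (Fintype.card V)) (q2 (Fintype.card V))
          (d1 (Fintype.card V)) (M2 (Fintype.card V)) A v)) ?_)
    ((card_union_le _ _).trans (add_le_add (h5 V F _ _ A v) (h4 V F _ _ _ _ _ A v)))
  intro K hK
  obtain ⟨-, hK1, hK2⟩ := mem_filter.1 hK
  rcases hK2 with hK2 | hK2
  · exact mem_union_left _ (mem_filter.2 ⟨mem_univ _, hK1, hK2⟩)
  · exact mem_union_right _ (mem_filter.2 ⟨mem_univ _, hK1, hK2⟩)

end AV1_

open AV1_ in
theorem p_AV1 (h1 : T_CT1) (h2 : NRP.T_HLQ) (h3 : NRM.T_RCM) (h4 : NRQ.T_DCQ)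
    (h5 : NRQ.T_DC1) : T_AV1 := by
  obtain ⟨n1, hH⟩ := h2
  obtain ⟨n2, hNP⟩ := NRC.p_NPA
  refine ⟨max (max n1 n2) 2, ?_⟩
  intro C hC n hn
  have hn1 : n1 ≤ n + 1 :=
    (((le_max_left _ _).trans (le_max_left _ _)).trans hn).trans (Nat.le_succ n)
  have hn2 : n2 ≤ n + 1 :=
    (((le_max_right _ _).trans (le_max_left _ _)).trans hn).trans (Nat.le_succ n)
  have hn3 : 2 ≤ n := (le_max_right _ _).trans hn
  obtain ⟨hN, -⟩ := hNP (n + 1) hn2
  have hcard : Fintype.card (Fin (n + 1)) = n + 1 := Fintype.card_fin (n + 1)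
  have hbd := fun (F : SimpleGraph (Fin (n + 1))) (A : Finset (Fin (n + 1)))
    (v : Fin (n + 1)) => bound h4 h5 F A v
  rw [hcard] at hbd
  obtain ⟨Q, hQ⟩ : ∃ Q : ℕ, Q = NN (n + 1) := ⟨_, rfl⟩
  rw [← hQ] at hbd ⊢
  obtain ⟨B, hB⟩ : ∃ B : ℕ, B = (n + 1) * (HER47.cn C n * Q) := ⟨_, rfl⟩
  rw [← hB]
  -- the predicate
  let P : SimpleGraph (Fin (n + 1)) →
      Fin (pN (n + 1)) × (Fin (pN (n + 1)) → Fin (n + 1)) → Prop := fun G p =>
    ∃ v, Gq G (Bi ∅ p.2 p.1) v
  let S : Finset (SimpleGraph (Fin (n + 1))) := univ.filter (fun G => C (Fin (n + 1)) G ∧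
    ¬ HER47.Rec G ∧ ∀ u v, u ≠ v → KK ≤ (dset G u v).card)
  have hS : Nat.card {G : SimpleGraph (Fin (n + 1)) // C (Fin (n + 1)) G ∧ ¬ HER47.Rec G ∧
      ∀ u v, u ≠ v → KK ≤ (dset G u v).card} = S.card := by
    rw [Nat.card_eq_fintype_card, Fintype.card_subtype]
  rw [hS]
  have hlow : ∀ G ∈ S, Fintype.card (Fin (pN (n + 1)) × (Fin (pN (n + 1)) → Fin (n + 1))) ≤
      2 * (univ.filter (fun p => P G p)).card := by
    intro G hG
    obtain ⟨-, -, hR, hF⟩ := mem_filter.1 hG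
    obtain ⟨H, hH1, hH2⟩ : ∃ H : SimpleGraph (Fin (n + 1)), (∀ v, CardIso G H v v) ∧
        ¬ ∃ α : Fin (n + 1) ≃ Fin (n + 1), ∀ x y, G.Adj x y ↔ H.Adj (α x) (α y) := by
      by_contra hcon
      exact hR (h3 (Fin (n + 1)) G (by rw [hcard]; omega) fun H hc => by
        by_contra hno
        exact hcon ⟨H, hc, hno⟩)
    have h := hH (Fin (n + 1)) G H (by rw [hcard]; exact hn1) hH1 hH2 (fun u v huv =>
      (hF u v huv).trans (le_of_eq (congrArg card (dset_inst _ _ G u v))))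
    have gen : ∀ m : ℕ, m = n + 1 →
        (Fintype.card (Fin (pN m) × (Fin (pN m) → Fin (n + 1))) ≤
        2 * (univ.filter (fun p : Fin (pN m) × (Fin (pN m) → Fin (n + 1)) =>
          ∃ v, Gq G (Bi ∅ p.2 p.1) v)).card) →
        Fintype.card (Fin (pN (n + 1)) × (Fin (pN (n + 1)) → Fin (n + 1))) ≤
          2 * (univ.filter (fun p => P G p)).card := by
      intro m hm h
      subst hm
      exact h
    exact gen _ hcard (h.trans (Nat.mul_le_mul_left 2 (cfi _ _ _ _ fun p hp => hp)))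
  have hup : ∀ p : Fin (pN (n + 1)) × (Fin (pN (n + 1)) → Fin (n + 1)),
      (S.filter (fun G => P G p)).card ≤ B := by
    intro p
    have h := h1 C hC n Q (fun G v => Gq G (Bi ∅ p.2 p.1) v) (fun F v =>
      (cfj _ _ _ _ _ _ fun K hK => hK).trans (hbd F (Bi ∅ p.2 p.1) v))
    rw [← hB] at h
    refine le_trans ?_ h
    have e : S.filter (fun G => P G p) = univ.filter (fun G => (C (Fin (n + 1)) G ∧
        ¬ HER47.Rec G ∧ ∀ u v, u ≠ v → KK ≤ (dset G u v).card) ∧ P G p) := by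
      rw [filter_filter]
    rw [e]
    exact cfn _ _ _ fun G hG => ⟨hG.1.1, hG.2⟩
  obtain ⟨Ω, hΩ⟩ : ∃ Ω : ℕ,
      Ω = Fintype.card (Fin (pN (n + 1)) × (Fin (pN (n + 1)) → Fin (n + 1))) := ⟨_, rfl⟩
  have hΩ0 : 0 < Ω := by
    rw [hΩ, Fintype.card_prod, Fintype.card_fun, Fintype.card_fin, Fintype.card_fin]
    exact Nat.mul_pos hN (pow_pos (Nat.succ_pos n) _)
  have hsum : S.card * Ω ≤ (2 * B) * Ω := by
    calc S.card * Ω = ∑ _G ∈ S, Ω := by rw [sum_const, smul_eq_mul]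
      _ ≤ ∑ G ∈ S, 2 * (univ.filter (fun p => P G p)).card := by
        rw [hΩ]
        exact sum_le_sum hlow
      _ = 2 * ∑ G ∈ S, (univ.filter (fun p => P G p)).card := by rw [mul_sum]
      _ = 2 * ∑ p, (S.filter (fun G => P G p)).card := by
        congr 1
        simp only [card_filter]
        rw [sum_comm]
      _ ≤ 2 * ∑ _p : Fin (pN (n + 1)) × (Fin (pN (n + 1)) → Fin (n + 1)), B := by
        refine Nat.mul_le_mul_left _ (sum_le_sum fun p _ => hup p)
      _ = (2 * B) * Ω := by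
        rw [sum_const, card_univ, smul_eq_mul, hΩ]
        ring
  exact Nat.le_of_mul_le_mul_right hsum hΩ0

end Pool.Agent.NRR
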