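import Pool.Agent.NRR.Targets

/-!
# NRR, target AVR
-/

set_option autoImplicit false

open Finset Classical

namespace Pool.Agent.NRR

open Pool.Agent Pool.Agent.Lib.Recon Pool.Agent.RNB Pool.Agent.NRC Pool.Agent.NRM
  Pool.Agent.NRP

namespace AVR_

theorem cube_bound (k : ℕ) (hk : 24 ≤ k) : (k + 1) ^ 3 ≤ 2 ^ k := by
  induction k, hk using Nat.le_induction with
  | base => norm_num
  | succ k hk ih =>
    rw [pow_succ 2 k]
    have h1 : (k + 1 + 1) ^ 3 ≤ 2 * (k + 1) ^ 3 := by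
      obtain ⟨m, rfl⟩ := Nat.exists_eq_add_of_le hk
      ring_nf
      nlinarith [Nat.zero_le (m ^ 3), Nat.zero_le (m ^ 2), Nat.zero_le m]
    omega

theorem kR_pos {n : ℕ} (hn : 2 ^ 24 ≤ n) : 1 ≤ kR n := by
  have h0 : n ≠ 0 := by
    rintro rfl
    norm_num at hn
  have h1 : 24 ≤ Nat.log 2 n := Nat.le_log_of_pow_le (by norm_num) hn
  have h2 : pL n ^ 3 ≤ n := (cube_bound _ h1).trans (Nat.pow_log_le_self 2 h0)
  have hpos : 0 < pL n ^ 3 := pow_pos (Nat.succ_pos _) 3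
  unfold kR
  rw [Nat.le_div_iff_mul_le hpos]
  omega

theorem pow_add_le (x y k : ℕ) (hk : 1 ≤ k) : x ^ k + y ^ k ≤ (x + y) ^ k := by
  obtain ⟨m, rfl⟩ : ∃ m, k = m + 1 := ⟨k - 1, by omega⟩
  have h1 : x ^ m ≤ (x + y) ^ m := Nat.pow_le_pow_left (Nat.le_add_right _ _) _
  have h2 : y ^ m ≤ (x + y) ^ m := Nat.pow_le_pow_left (Nat.le_add_left _ _) _
  calc x ^ (m + 1) + y ^ (m + 1) = x ^ m * x + y ^ m * y := by rw [pow_succ, pow_succ]
    _ ≤ (x + y) ^ m * x + (x + y) ^ m * y := by gcongr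
    _ = (x + y) ^ (m + 1) := by rw [pow_succ, mul_add]

end AVR_

open AVR_

theorem p_AVR (h_HLR : T_HLR) (h_CTZ : T_CTZ) (h_CTM : NRM.T_CTM) (h_NPA : NRC.T_NPA) :
    T_AVR := by
  obtain ⟨n1, h1⟩ := h_HLR
  obtain ⟨n2, h2⟩ := h_NPA
  refine ⟨max (max n1 n2) (2 ^ 24), ?_⟩
  intro C hC n hn
  have hn1 : n1 ≤ n := ((le_max_left _ _).trans (le_max_left _ _)).trans hn
  have hn2 : n2 ≤ n := ((le_max_right _ _).trans (le_max_left _ _)).trans hn
  have hn4 : 2 ^ 24 ≤ n := (le_max_right _ _).trans hn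
  have hn3 : 1 ≤ n := le_trans (by norm_num) hn4
  obtain ⟨hN, -⟩ := h2 n hn2
  have hk1 : 1 ≤ kR n := kR_pos hn4
  have hk : kR n ≤ n := Nat.div_le_self _ _
  set B : ℕ := n.choose (kR n) * (HER47.cn C (n - kR n) * XR n ^ (kR n)) with hB
  -- the predicate
  let P : SimpleGraph (Fin n) → Fin (pN n) × (Fin (pN n) → Fin n) → Prop := fun G p =>
    ∃ Z : Finset (Fin n), Z.card = kR n ∧ (GdM G (pg n) (M1 n) (Bi ∅ p.2 p.1) Z ∨
      CdM G (pg n) (pg n) (q2 n) (d1 n) (M2 n) (Bi ∅ p.2 p.1) Z)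
  let S : Finset (SimpleGraph (Fin n)) := univ.filter (fun G => C (Fin n) G ∧ ¬ HER47.Rec G ∧
    ∃ Y : Finset (Fin n), Y.card ≤ kR n ∧ Far G KK Y)
  have hS : Nat.card {G : SimpleGraph (Fin n) // C (Fin n) G ∧ ¬ HER47.Rec G ∧
      ∃ Y : Finset (Fin n), Y.card ≤ kR n ∧ Far G KK Y} = S.card := by
    rw [Nat.card_eq_fintype_card, Fintype.card_subtype]
  rw [hS]
  have hcard : Fintype.card (Fin n) = n := Fintype.card_fin n
  have hlow : ∀ G ∈ S, Fintype.card (Fin (pN n) × (Fin (pN n) → Fin n)) ≤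
      2 * (univ.filter (fun p => P G p)).card := by
    intro G hG
    obtain ⟨-, hC', hR, Y, hY, hF⟩ := mem_filter.1 hG
    have h := h1 (Fin n) G (by rw [hcard]; exact hn1) hR Y (by rw [hcard]; exact hY) hF
    have gen : ∀ m : ℕ, m = n → (Fintype.card (Fin (pN m) × (Fin (pN m) → Fin n)) ≤
        2 * (univ.filter (fun p : Fin (pN m) × (Fin (pN m) → Fin n) =>
          ∃ Z : Finset (Fin n), Z.card = kR m ∧ (GdM G (pg m) (M1 m) (Bi ∅ p.2 p.1) Z ∨
            CdM G (pg m) (pg m) (q2 m) (d1 m) (M2 m) (Bi ∅ p.2 p.1) Z))).card) →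
        Fintype.card (Fin (pN n) × (Fin (pN n) → Fin n)) ≤
          2 * (univ.filter (fun p => P G p)).card := by
      intro m hm h
      subst hm
      exact h
    refine gen _ hcard (h.trans (le_of_eq ?_))
    congr 1
    refine congrArg Finset.card (Finset.ext fun p => ?_)
    rw [mem_filter, mem_filter]
    exact Iff.rfl
  have hup : ∀ p : Fin (pN n) × (Fin (pN n) → Fin n), (S.filter (fun G => P G p)).card ≤ B := by
    intro p
    have ha := h_CTM C hC n (kR n) (pg n) (M1 n) (Bi ∅ p.2 p.1) hk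
    have hb := h_CTZ C hC n (kR n) (pg n) (pg n) (q2 n) (d1 n) (M2 n) (Bi ∅ p.2 p.1) hk
    rw [Nat.card_eq_fintype_card, Fintype.card_subtype] at ha hb
    have hsub : S.filter (fun G => P G p) ⊆
        (univ.filter (fun G : SimpleGraph (Fin n) => C (Fin n) G ∧
          ∃ Z : Finset (Fin n), Z.card = kR n ∧ GdM G (pg n) (M1 n) (Bi ∅ p.2 p.1) Z)) ∪
        (univ.filter (fun G : SimpleGraph (Fin n) => C (Fin n) G ∧
          ∃ Z : Finset (Fin n), Z.card = kR n ∧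
            CdM G (pg n) (pg n) (q2 n) (d1 n) (M2 n) (Bi ∅ p.2 p.1) Z)) := by
      intro G hG
      obtain ⟨hG1, Z, hZ, hG2⟩ := mem_filter.1 hG
      have hCG := (mem_filter.1 hG1).2.1
      rcases hG2 with hG2 | hG2
      · exact mem_union_left _ (mem_filter.2 ⟨mem_univ _, hCG, Z, hZ, hG2⟩)
      · exact mem_union_right _ (mem_filter.2 ⟨mem_univ _, hCG, Z, hZ, hG2⟩)
    refine ((card_le_card hsub).trans (card_union_le _ _)).trans ((add_le_add ha hb).trans ?_)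
    rw [hB, ← Nat.mul_add, ← Nat.mul_add]
    refine Nat.mul_le_mul_left _ (Nat.mul_le_mul_left _ ?_)
    exact pow_add_le _ _ _ hk1
  set Ω : ℕ := Fintype.card (Fin (pN n) × (Fin (pN n) → Fin n)) with hΩ
  have hΩ0 : 0 < Ω := by
    rw [hΩ, Fintype.card_prod, Fintype.card_fun, Fintype.card_fin, Fintype.card_fin]
    exact Nat.mul_pos hN (pow_pos hn3 _)
  have hsum : S.card * Ω ≤ (2 * B) * Ω := by
    calc S.card * Ω = ∑ _G ∈ S, Ω := by rw [sum_const, smul_eq_mul]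
      _ ≤ ∑ G ∈ S, 2 * (univ.filter (fun p => P G p)).card := sum_le_sum hlow
      _ = 2 * ∑ G ∈ S, (univ.filter (fun p => P G p)).card := by rw [mul_sum]
      _ = 2 * ∑ p, (S.filter (fun G => P G p)).card := by
        congr 1
        simp only [card_filter]
        rw [sum_comm]
      _ ≤ 2 * ∑ _p : Fin (pN n) × (Fin (pN n) → Fin n), B := by
        refine Nat.mul_le_mul_left _ (sum_le_sum fun p _ => hup p)
      _ = (2 * B) * Ω := by
        rw [sum_const, card_univ, smul_eq_mul, hΩ]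
        ring
  exact Nat.le_of_mul_le_mul_right hsum hΩ0

end Pool.Agent.NRR
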