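import Pool.Agent.NRR.Targets

/-!
# NRR, AZ2: many small closed sets on a level give the codes
-/

set_option autoImplicit false

open Finset Classical

namespace Pool.Agent.NRR

open Pool.Agent Pool.Agent.Lib.Recon Pool.Agent.RNB Pool.Agent.NRC Pool.Agent.NRM
  Pool.Agent.NRP

namespace AZ2_

theorem hKK : 8 ≤ KK := by
  have h : 2 ^ 3 ≤ 2 ^ 10000 := Nat.pow_le_pow_right (by norm_num) (by norm_num)
  unfold KK
  exact h

theorem cl_anti {V : Type} [Fintype V] {G : SimpleGraph V} {B C : Finset V} (h : B ⊆ C) (v : V) :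
    cl G C v ⊆ cl G B v := by
  intro y hy
  obtain ⟨-, h1, h2⟩ := mem_filter.1 hy
  exact mem_filter.2 ⟨mem_univ _, fun hB => h1 (h hB), fun b hb => h2 b (h hb)⟩

theorem nr_mono {V : Type} [Fintype V] {G : SimpleGraph V} {d d' : ℕ} {T T' : Finset V}
    (h : T ⊆ T') (hd : d ≤ d') (hN : Nr G d T) : Nr G d' T' := fun u v hu hv huv hA =>
  (hN u v (fun hc => hu (h hc)) (fun hc => hv (h hc)) huv fun a ha => hA a (h ha)).trans_le hd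

end AZ2_

open AZ2_ in
/-- **AZ2** -/
theorem p_AZ2 (h1 : T_ZE2) (h2 : T_MCZ) (h3 : NRP.T_SYS) (h4 : NRP.T_LVT) : T_AZ2 := by
  intro V _ G g h q q2 d d' M k A T hg he h16 hq hKd hdd hM h40 hBs hRich hNr hk
  have hd8 : 8 ≤ d' := hKK.trans hKd
  have hLv := h4 V G d' T hKd hNr
  have hSy := h3 V G (d' ^ 2) (d' ^ 4) (2 * d') T (T ∪ EE G (d' ^ 2) T) hLv
  have hTB : T ⊆ T ∪ EE G (d' ^ 2) T := subset_union_left
  have e1 : 4 * d' ^ 2 + 2 ≤ d' ^ 4 := by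
    have e2 : d' ^ 4 = d' ^ 2 * d' ^ 2 := by ring
    have e3 : 64 ≤ d' ^ 2 := by nlinarith
    rw [e2]
    nlinarith
  have hP : ∀ y ∈ PL G (d' ^ 2) (d' ^ 4) T (T ∪ EE G (d' ^ 2) T),
      y ∉ T ∪ EE G (d' ^ 2) T ∧ d' ^ 4 < (cl G (T ∪ EE G (d' ^ 2) T) y).card := by
    intro y hy
    obtain ⟨h5, h6⟩ := mem_filter.1 hy
    exact ⟨h6, (mem_filter.1 h5).2.2⟩
  obtain ⟨Z, u, W, z1, z2, z3, z4, z5⟩ := h1 V G g d M k A (T ∪ EE G (d' ^ 2) T)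
    (PL G (d' ^ 2) (d' ^ 4) T (T ∪ EE G (d' ^ 2) T)) (IN G (2 * d' ^ 2) T) hSy.sym h40
    (fun y hy => ⟨(hP y hy).1, by have := (hP y hy).2; omega⟩) (nr_mono hTB hdd hNr) hk
  have hPT : ∀ y ∈ PL G (d' ^ 2) (d' ^ 4) T (T ∪ EE G (d' ^ 2) T), y ∉ T :=
    fun y hy hT => (hP y hy).1 (hTB hT)
  refine ⟨Z, z1, h2 V G g h q q2 d (d' ^ 2) M A T Z u W hg he h16 hq hBs hRich
    (nr_mono subset_rfl hdd hNr) (fun v hv => hPT v (z2 hv)) z3 hM fun v hv => ?_⟩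
  obtain ⟨w1, w2, w3, w4, w5, w6⟩ := z5 v hv
  refine ⟨w2, w3, fun y hy => ⟨hPT y (w1 hy), ?_⟩, w4, w5, w6⟩
  have f1 := (hP y (w1 hy)).2
  have f2 := z4 y
  have f3 : (cl G (T ∪ EE G (d' ^ 2) T) y \ Z).card ≤ (cl G T y \ Z).card :=
    card_le_card (sdiff_subset_sdiff (cl_anti hTB y) subset_rfl)
  have f4 := card_sdiff_add_card_inter (cl G (T ∪ EE G (d' ^ 2) T) y) Z
  omega

end Pool.Agent.NRR
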