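import Pool.Agent.NRR.Targets

/-!
# NRR, BN1: the number of non-reconstructible members of a hereditary class
-/

set_option autoImplicit false

open Finset Classical

namespace Pool.Agent.NRR

open Pool.Agent Pool.Agent.Lib.Recon Pool.Agent.RNB Pool.Agent.NRC Pool.Agent.NRM
  Pool.Agent.NRP

namespace BN1_

theorem ncard_eq {m : ℕ} (P : SimpleGraph (Fin m) → Prop) :
    Nat.card {G : SimpleGraph (Fin m) // P G} = (univ.filter P).card := by
  rw [Nat.card_eq_fintype_card, Fintype.card_subtype]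

theorem ncard_or {m : ℕ} (P Q R : SimpleGraph (Fin m) → Prop) (h : ∀ G, P G → Q G ∨ R G) :
    Nat.card {G : SimpleGraph (Fin m) // P G} ≤
      Nat.card {G : SimpleGraph (Fin m) // Q G} + Nat.card {G : SimpleGraph (Fin m) // R G} := by
  rw [ncard_eq, ncard_eq, ncard_eq]
  refine le_trans (card_le_card ?_) (card_union_le _ _)
  intro G hG
  rw [mem_union, mem_filter, mem_filter]
  rcases h G (mem_filter.1 hG).2 with h1 | h1
  · exact Or.inl ⟨mem_univ _, h1⟩
  · exact Or.inr ⟨mem_univ _, h1⟩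

theorem ncard_ex {m : ℕ} (P : SimpleGraph (Fin m) → Prop)
    (Q : Fin m → SimpleGraph (Fin m) → Prop) (B : ℕ) (h : ∀ G, P G → ∃ v, Q v G)
    (hB : ∀ v, Nat.card {G : SimpleGraph (Fin m) // Q v G} ≤ B) :
    Nat.card {G : SimpleGraph (Fin m) // P G} ≤ m * B := by
  rw [ncard_eq]
  have h1 : univ.filter P ⊆ univ.biUnion fun v : Fin m => univ.filter (Q v) := by
    intro G hG
    obtain ⟨v, hv⟩ := h G (mem_filter.1 hG).2
    exact mem_biUnion.2 ⟨v, mem_univ _, mem_filter.2 ⟨mem_univ _, hv⟩⟩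
  refine (card_le_card h1).trans (card_biUnion_le.trans ?_)
  calc ∑ v : Fin m, (univ.filter (Q v)).card ≤ ∑ _v : Fin m, B := by
        refine sum_le_sum fun v _ => ?_
        rw [← ncard_eq]
        exact hB v
    _ = m * B := by simp

theorem ds_eq {m : ℕ} (G : SimpleGraph (Fin m)) (u v : Fin m) :
    HER47.ds G v u = dset G u v := by
  ext w
  simp only [HER47.ds, dset, mem_filter, mem_univ, true_and]
  constructor
  · rintro ⟨h1, h2, h3⟩
    exact ⟨h2, h1, fun h => h3 h.symm⟩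
  · rintro ⟨h1, h2, h3⟩
    exact ⟨h2, h1, fun h => h3 h.symm⟩

/-- the members with two vertices which are distinguished by few others -/
theorem near (h3 : HER47.T_CODE) (C : HER47.Cls) (hC : HER47.Her C) (n K : ℕ) :
    Nat.card {G : SimpleGraph (Fin (n + 1)) // C (Fin (n + 1)) G ∧
      ∃ u v, u ≠ v ∧ (dset G u v).card < K} ≤
      (n + 1) * (HER47.cn C n * (2 * (n + 1) * (n + 2) ^ K)) := by
  refine ncard_ex _ (fun v G => C (Fin (n + 1)) G ∧ HER47.Dom K G (univ.erase v)) _ ?_ ?_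
  · rintro G ⟨h1, u, v, huv, hd⟩
    refine ⟨v, h1, fun w hw => ?_⟩
    have hwv : w = v := by
      by_contra h
      exact hw (mem_erase.2 ⟨h, mem_univ _⟩)
    refine ⟨u, mem_erase.2 ⟨huv, mem_univ _⟩, ?_⟩
    rw [hwv, ds_eq]
    exact hd
  · intro v
    have h4 := h3 C hC (n + 1) K (univ.erase v)
    have h5 : (univ.erase v).card = n := by
      rw [card_erase_of_mem (mem_univ _), card_univ, Fintype.card_fin, Nat.add_sub_cancel]
    rw [h5, Nat.add_sub_cancel_left, pow_one] at h4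
    exact h4

theorem cn_pos (C : HER47.Cls) (hC : HER47.Her C) (n : ℕ) (h : 0 < HER47.bn C (n + 1)) :
    0 < HER47.cn C n := by
  unfold HER47.bn at h
  rw [Nat.card_pos_iff] at h
  obtain ⟨⟨⟨G, hG, -⟩⟩, -⟩ := h
  unfold HER47.cn
  rw [Nat.card_pos_iff]
  exact ⟨⟨⟨G.comap Fin.castSuccEmb, hC _ _ Fin.castSuccEmb G hG⟩⟩, inferInstance⟩

theorem bn_le (C : HER47.Cls) (n : ℕ) :
    HER47.bn C n ≤ Nat.card (SimpleGraph (Fin n)) := by
  unfold HER47.bn
  exact Nat.card_le_card_of_injective (fun G => G.1) Subtype.val_injective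

/-- the numbers for large `n` -/
theorem num (N a c K D : ℕ) (hN : 2 ≤ N) (hD : D ≤ N ^ c) :
    2 * (N * (a * D)) + N * (a * (2 * N * (N + 1) ^ K)) ≤
      N ^ (c + 2 * K + 6) * a := by
  have h1 : 1 ≤ N := by omega
  have h2 : (N + 1) ^ K ≤ N ^ (2 * K) := by
    rw [pow_mul]
    refine Nat.pow_le_pow_left ?_ K
    nlinarith
  have h3 : 2 * (N * (a * D)) ≤ N ^ (c + 2) * a := by
    calc 2 * (N * (a * D)) ≤ N * (N * (a * N ^ c)) :=
          Nat.mul_le_mul hN (Nat.mul_le_mul_left _ (Nat.mul_le_mul_left _ hD))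
      _ = N ^ (c + 2) * a := by ring
  have h4 : N * (a * (2 * N * (N + 1) ^ K)) ≤ N ^ (2 * K + 3) * a := by
    calc N * (a * (2 * N * (N + 1) ^ K)) ≤ N * (a * (N * N * N ^ (2 * K))) := by
          refine Nat.mul_le_mul_left _ (Nat.mul_le_mul_left _ (Nat.mul_le_mul ?_ h2))
          exact Nat.mul_le_mul_right _ hN
      _ = N ^ (2 * K + 3) * a := by ring
  have h5 : N ^ (c + 2) * a ≤ N ^ (c + 2 * K + 5) * a :=
    Nat.mul_le_mul_right _ (Nat.pow_le_pow_right h1 (by omega))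
  have h6 : N ^ (2 * K + 3) * a ≤ N ^ (c + 2 * K + 5) * a :=
    Nat.mul_le_mul_right _ (Nat.pow_le_pow_right h1 (by omega))
  calc 2 * (N * (a * D)) + N * (a * (2 * N * (N + 1) ^ K))
      ≤ N ^ (c + 2 * K + 5) * a + N ^ (c + 2 * K + 5) * a :=
        Nat.add_le_add (h3.trans h5) (h4.trans h6)
    _ = 2 * (N ^ (c + 2 * K + 5) * a) := by ring
    _ ≤ N * (N ^ (c + 2 * K + 5) * a) := Nat.mul_le_mul_right _ hN
    _ = N ^ (c + 2 * K + 6) * a := by ring

end BN1_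

open BN1_ in
theorem p_BN1 (h1 : T_AV1) (h2 : NRP.T_NBQ) (h3 : HER47.T_CODE) : T_BN1 := by
  obtain ⟨n0, h1⟩ := h1
  obtain ⟨c, n1, h2⟩ := h2
  obtain ⟨m, hm⟩ : ∃ m, m = n0 + n1 := ⟨_, rfl⟩
  obtain ⟨B0, hB0⟩ : ∃ B0, B0 = ∑ k ∈ range m, Nat.card (SimpleGraph (Fin (k + 1))) :=
    ⟨_, rfl⟩
  obtain ⟨K, hK⟩ : ∃ K, K = KK := ⟨_, rfl⟩
  refine ⟨(c + 2 * K + 6) + B0, fun C hC n hn => ?_⟩
  have hN1 : 1 ≤ n + 1 := by omega
  by_cases hnm : m ≤ n
  · have e1 := h1 C hC n (by omega)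
    have e2 := h2 (n + 1) (by omega)
    have e3 := near h3 C hC n K
    have e4 : HER47.bn C (n + 1) ≤
        Nat.card {G : SimpleGraph (Fin (n + 1)) // C (Fin (n + 1)) G ∧ ¬ HER47.Rec G ∧
          ∀ u v, u ≠ v → KK ≤ (dset G u v).card} +
        Nat.card {G : SimpleGraph (Fin (n + 1)) // C (Fin (n + 1)) G ∧
          ∃ u v, u ≠ v ∧ (dset G u v).card < K} := by
      refine ncard_or _ _ _ ?_
      rintro G ⟨a1, a2⟩
      by_cases h : ∀ u v, u ≠ v → KK ≤ (dset G u v).card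
      · exact Or.inl ⟨a1, a2, h⟩
      · push Not at h
        obtain ⟨u, v, huv, hd⟩ := h
        exact Or.inr ⟨a1, u, v, huv, hK ▸ hd⟩
    have e5 := num (n + 1) (HER47.cn C n) c K (NN (n + 1)) (by omega) e2
    calc HER47.bn C (n + 1) ≤ _ := e4.trans (Nat.add_le_add e1 e3)
      _ ≤ (n + 1) ^ (c + 2 * K + 6) * HER47.cn C n := e5
      _ ≤ (n + 1) ^ (c + 2 * K + 6 + B0) * HER47.cn C n :=
        Nat.mul_le_mul_right _ (Nat.pow_le_pow_right hN1 (by omega))
  · rcases Nat.eq_zero_or_pos (HER47.bn C (n + 1)) with h0 | h0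
    · rw [h0]
      exact Nat.zero_le _
    have hc := cn_pos C hC n h0
    have hb : HER47.bn C (n + 1) ≤ B0 := by
      refine (bn_le C (n + 1)).trans ?_
      rw [hB0]
      exact single_le_sum (f := fun k => Nat.card (SimpleGraph (Fin (k + 1))))
        (fun _ _ => Nat.zero_le _) (mem_range.2 (by omega))
    have hp : B0 ≤ (n + 1) ^ (c + 2 * K + 6 + B0) := by
      calc B0 ≤ 2 ^ B0 := Nat.lt_two_pow_self.le
        _ ≤ (n + 1) ^ B0 := Nat.pow_le_pow_left (by omega) _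
        _ ≤ (n + 1) ^ (c + 2 * K + 6 + B0) := Nat.pow_le_pow_right hN1 (by omega)
    calc HER47.bn C (n + 1) ≤ (n + 1) ^ (c + 2 * K + 6 + B0) := hb.trans hp
      _ = (n + 1) ^ (c + 2 * K + 6 + B0) * 1 := (Nat.mul_one _).symm
      _ ≤ _ := Nat.mul_le_mul_left _ hc

end Pool.Agent.NRR
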