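import Pool.Agent.NRR.Targets

/-!
# NRR-CDZ: a small closed set gives a code without the removed vertices
-/

set_option autoImplicit false

open Finset Classical

namespace Pool.Agent.NRR

open Pool.Agent Pool.Agent.Lib.Recon Pool.Agent.RNB Pool.Agent.NRC Pool.Agent.NRM
  Pool.Agent.NRP

namespace CDZ_

variable {V : Type} [Fintype V]

theorem mem_cl' {G : SimpleGraph V} {B : Finset V} {v y : V} :
    y ∈ cl G B v ↔ y ∉ B ∧ ∀ b ∈ B, (G.Adj b v ↔ G.Adj b y) := by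
  unfold cl
  rw [mem_filter]
  exact ⟨fun h => h.2, fun h => ⟨mem_univ _, h⟩⟩

theorem cl_congr {G : SimpleGraph V} {B : Finset V} {u v : V}
    (h : ∀ b ∈ B, (G.Adj b u ↔ G.Adj b v)) : cl G B u = cl G B v := by
  ext y
  rw [mem_cl', mem_cl']
  constructor
  · rintro ⟨h1, h2⟩
    exact ⟨h1, fun b hb => (h b hb).symm.trans (h2 b hb)⟩
  · rintro ⟨h1, h2⟩
    exact ⟨h1, fun b hb => (h b hb).trans (h2 b hb)⟩

theorem mem_IN {G : SimpleGraph V} {k : ℕ} {A : Finset V} {y z : V} :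
    z ∈ IN G k A y ↔ z ∉ A ∧ z ≠ y ∧ (cl G (insert z A) y).card ≤ k := by
  unfold IN
  rw [mem_filter]
  exact ⟨fun h => h.2, fun h => ⟨mem_univ _, h⟩⟩

theorem RSz_mono (G : SimpleGraph V) (g h q d : ℕ) (A Z : Finset V) (a : V) {s t : ℕ}
    (hst : s ≤ t) : RSz G g h q d A Z s a ⊆ RSz G g h q d A Z t a := by
  induction hst with
  | refl => exact Subset.refl _
  | step _ ih => exact ih.trans subset_union_left

theorem RSz_one {G : SimpleGraph V} {g h q d : ℕ} {A Z : Finset V} {a b : V} {s : ℕ}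
    (hs : 1 ≤ s) (hb : Hnz G g h q d A Z a b) : b ∈ RSz G g h q d A Z s a := by
  refine RSz_mono G g h q d A Z a hs ?_
  show b ∈ RSz G g h q d A Z 0 a ∪
      univ.filter (fun b => ∃ c ∈ RSz G g h q d A Z 0 a, Hnz G g h q d A Z c b)
  refine mem_union_right _ (mem_filter.2 ⟨mem_univ _, a, ?_, hb⟩)
  show a ∈ ({a} : Finset V)
  exact mem_singleton_self a

end CDZ_

open CDZ_ in
/-- CDZ. -/
theorem p_CDZ (h1 : T_NAZ) (h2 : T_SPZ) : T_CDZ := by
  intro V _ G g h q q2 d e s A T Z W u v hg he hgq2 hq2 hBs hR hNr hZT hNc hs hvZ hWZ hAt hW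
    huZ hu
  obtain ⟨hcl, hWs, hvW, hc⟩ := hAt
  have hvT : v ∉ T := (hW v hvW).1
  obtain ⟨hu1, hu2⟩ := mem_cl'.1 hu
  have huT : u ∉ T := fun h3 => hu1 (mem_union_left _ h3)
  have huv : u ≠ v := fun h3 => huZ (h3 ▸ hvZ)
  have hadj : ∀ a ∈ T, (G.Adj a u ↔ G.Adj a v) := fun a ha =>
    (hu2 a (mem_union_left _ ha)).symm
  have hucl : cl G T u = cl G T v := cl_congr hadj
  have huv' : u ∈ cl G T v := mem_cl'.2 ⟨huT, fun a ha => (hadj a ha).symm⟩
  have hWZ' : ∀ y ∈ W, y ≠ v → y ∉ Z := by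
    intro y hy hyv hyZ
    have h3 : y ∈ W ∩ Z := mem_inter.2 ⟨hy, hyZ⟩
    rw [hWZ, mem_singleton] at h3
    exact hyv h3
  have hZv : ∀ y, y ∉ Z → y ≠ v := fun y hy h3 => hy (h3 ▸ hvZ)
  have hnaz : ∀ a b, a ∉ T → a ∉ Z → b ∉ Z → 2 * e + 1 < (cl G T a \ Z).card →
      b ∈ IN G (2 * e) T a → Hnz G g h q2 d A Z a b := by
    intro a b h3 h4 h5 h6 h7
    exact h1 V G g h q q2 d e A T Z a b hg he hgq2 hq2 hBs hR hNr hZT hNc h3 h4 h5
      (mem_IN.1 h7).1 h6 h7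
  -- the second root
  obtain ⟨w, hwZ, hw⟩ : ∃ w, w ∉ Z ∧ ∀ z, z ∉ Z → z ∈ IN G (2 * e) T v →
      z ∈ RSz G g h q2 d A Z s w := by
    rcases hc with hc | ⟨w, hwW, hwv, hpath⟩
    · refine ⟨u, huZ, fun z hz hz2 => ?_⟩
      have h3 := hcl v hvW hz2
      rw [hc, mem_singleton] at h3
      exact absurd h3 (hZv z hz)
    · have hwZ : w ∉ Z := hWZ' w hwW hwv
      refine ⟨w, hwZ, fun z hz hz2 => ?_⟩
      have h3 := h2 V G g h q2 d s A Z W w (fun a b => b ∈ IN G (2 * e) T a) hWs hwW hwZ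
        (fun y hy hyZ => Relation.ReflTransGen.mono
          (r := fun a b => b ∈ W ∧ b ≠ v ∧ b ∈ IN G (2 * e) T a)
          (fun a b hab => ⟨hab.1, hWZ' b hab.1 hab.2.1, hab.2.2⟩) w y
          (hpath y hy (hZv y hyZ)))
        (fun a ha haZ b hbZ hb => hnaz a b (hW a ha).1 haZ hbZ (hW a ha).2 hb)
      exact h3 (mem_sdiff.2 ⟨hcl v hvW hz2, hz⟩)
  refine ⟨w, hwZ, ?_⟩
  intro z hz hzZ
  obtain ⟨hzu, hzv, hz2⟩ := mem_dset.1 hz
  have hzTE : z ∉ T ∪ EE G e T := by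
    intro h3
    exact hz2 (hu2 z h3).symm
  have hzT : z ∉ T := fun h3 => hzTE (mem_union_left _ h3)
  have hzE : z ∉ EE G e T := fun h3 => hzTE (mem_union_right _ h3)
  rcases le_or_gt (cl G (insert z T) v).card e with h3 | h3
  · refine mem_union_left _ (hw z hzZ (mem_IN.2 ⟨hzT, hzv, by omega⟩))
  rcases le_or_gt (cl G (insert z T) u).card e with h4 | h4
  · refine mem_union_right _ (RSz_one hs (hnaz u z huT huZ hzZ ?_ (mem_IN.2 ⟨hzT, hzu, ?_⟩)))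
    · rw [hucl]
      exact (hW v hvW).2
    · omega
  · exfalso
    apply hzE
    unfold EE
    rw [mem_filter]
    exact ⟨mem_univ _, hzT, v, u, hvT, hzv.symm, hzu.symm, huv', fun h5 => hz2 h5.symm, h3, h4⟩

end Pool.Agent.NRR
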