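import Pool.Agent.NRR.Targets

/-!
# NRR, CT1: counting graphs with one described vertex in a hereditary class
-/

set_option autoImplicit false

open Finset Classical

namespace Pool.Agent.NRR

open Pool.Agent Pool.Agent.Lib.Recon Pool.Agent.RNB Pool.Agent.NRC Pool.Agent.NRM
  Pool.Agent.NRP

namespace CT1_

/-- the number for one vertex -/
theorem one (C : HER47.Cls) (hC : HER47.Her C) (n B : ℕ)
    (P : SimpleGraph (Fin (n + 1)) → Fin (n + 1) → Prop)
    (hP : ∀ (F : SimpleGraph (Fin (n + 1))) (v : Fin (n + 1)),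
      (univ.filter (fun K : SimpleGraph (Fin (n + 1)) =>
        (∀ x y, x ≠ v → y ≠ v → (K.Adj x y ↔ F.Adj x y)) ∧ P K v)).card ≤ B)
    (v : Fin (n + 1)) :
    (univ.filter (fun G : SimpleGraph (Fin (n + 1)) => C (Fin (n + 1)) G ∧ P G v)).card ≤
      HER47.cn C n * B := by
  obtain ⟨e, he⟩ : ∃ e : Fin n ↪ Fin (n + 1), ∀ i, e i = v.succAbove i :=
    ⟨v.succAboveEmb, fun _ => rfl⟩
  have hex : ∀ x, x ≠ v → ∃ i, e i = x := by
    intro x hx
    obtain ⟨i, hi⟩ := Fin.exists_succAbove_eq hx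
    exact ⟨i, (he i).trans hi⟩
  obtain ⟨S, hS⟩ : ∃ S : Finset (SimpleGraph (Fin (n + 1))),
      S = univ.filter (fun G => C (Fin (n + 1)) G ∧ P G v) := ⟨_, rfl⟩
  rw [← hS]
  have h1 : S.card ≤ B * (S.image fun G => G.comap e).card := by
    refine Finset.card_le_mul_card_image S B fun a ha => ?_
    obtain ⟨F, hF, rfl⟩ := Finset.mem_image.1 ha
    refine le_trans (card_le_card ?_) (hP F v)
    intro K hK
    rw [mem_filter, hS, mem_filter] at hK
    rw [mem_filter]
    refine ⟨mem_univ _, fun x y hx hy => ?_, hK.1.2.2⟩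
    obtain ⟨i, rfl⟩ := hex x hx
    obtain ⟨j, rfl⟩ := hex y hy
    have h3 : (K.comap e).Adj i j ↔ (F.comap e).Adj i j := by rw [hK.2]
    exact h3
  have h2 : (S.image fun G => G.comap e).card ≤ HER47.cn C n := by
    have h3 : HER47.cn C n =
        (univ.filter (fun H : SimpleGraph (Fin n) => C (Fin n) H)).card := by
      unfold HER47.cn
      rw [Nat.card_eq_fintype_card, Fintype.card_subtype]
    rw [h3]
    refine card_le_card fun H hH => ?_
    obtain ⟨G, hG, rfl⟩ := Finset.mem_image.1 hH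
    rw [hS, mem_filter] at hG
    rw [mem_filter]
    exact ⟨mem_univ _, hC _ _ e G hG.2.1⟩
  calc S.card ≤ B * (S.image fun G => G.comap e).card := h1
    _ ≤ B * HER47.cn C n := Nat.mul_le_mul_left _ h2
    _ = HER47.cn C n * B := Nat.mul_comm _ _

end CT1_

theorem p_CT1 : T_CT1 := by
  intro C hC n B P hP
  rw [Nat.card_eq_fintype_card, Fintype.card_subtype]
  have h1 : (univ.filter (fun G : SimpleGraph (Fin (n + 1)) =>
      C (Fin (n + 1)) G ∧ ∃ v, P G v)) ⊆
      (univ : Finset (Fin (n + 1))).biUnion fun v =>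
        univ.filter (fun G : SimpleGraph (Fin (n + 1)) => C (Fin (n + 1)) G ∧ P G v) := by
    intro G hG
    rw [mem_filter] at hG
    obtain ⟨-, hGC, v, hv⟩ := hG
    rw [mem_biUnion]
    exact ⟨v, mem_univ _, mem_filter.2 ⟨mem_univ _, hGC, hv⟩⟩
  refine (card_le_card h1).trans ?_
  refine (Finset.card_biUnion_le_card_mul _ _ (HER47.cn C n * B) fun v _ =>
    CT1_.one C hC n B P hP v).trans ?_
  rw [card_univ, Fintype.card_fin]

end Pool.Agent.NRR
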