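import Pool.Agent.NRR.Targets
import Pool.Agent.NRQ.P_DCQ

/-!
# NRR, CTZ: counting codes with hints in a hereditary class
-/

set_option autoImplicit false

open Finset Classical

namespace Pool.Agent.NRR

open Pool.Agent Pool.Agent.Lib.Recon Pool.Agent.RNB Pool.Agent.NRC Pool.Agent.NRM
  Pool.Agent.NRP

namespace CTZ_

/-- an injective code for the small subsets of a small set -/
theorem enc_ex {V : Type} [Fintype V] (m d : ℕ) (B : Finset V) (hB : B.card ≤ m) :
    ∃ f : Finset V → Fin ((m + 1) ^ d), ∀ S S', S ⊆ B → S.card ≤ d → S' ⊆ B → S'.card ≤ d →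
      f S = f S' → S = S' := by
  have hle : (NRQ.DCQ_.small B d).card ≤ (m + 1) ^ d :=
    (NRQ.DCQ_.card_small B d).trans (Nat.pow_le_pow_left (Nat.add_le_add_right hB 1) d)
  have hpos : 0 < (m + 1) ^ d := by positivity
  refine ⟨fun S => if hS : S ∈ NRQ.DCQ_.small B d then
    Fin.castLE hle ((NRQ.DCQ_.small B d).equivFin ⟨S, hS⟩) else ⟨0, hpos⟩, ?_⟩
  intro S S' h1 h2 h3 h4 h5
  have hS : S ∈ NRQ.DCQ_.small B d := mem_filter.2 ⟨mem_powerset.2 h1, h2⟩
  have hS' : S' ∈ NRQ.DCQ_.small B d := mem_filter.2 ⟨mem_powerset.2 h3, h4⟩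
  simp only [dif_pos hS, dif_pos hS'] at h5
  have h6 := (NRQ.DCQ_.small B d).equivFin.injective (Fin.castLE_injective hle h5)
  exact congrArg Subtype.val h6

/-- the code -/
noncomputable def enc {V : Type} [Fintype V] (m d : ℕ) (B : Finset V) :
    Finset V → Fin ((m + 1) ^ d) :=
  if hB : B.card ≤ m then (enc_ex m d B hB).choose else fun _ => ⟨0, by positivity⟩

theorem enc_inj {V : Type} [Fintype V] {m d : ℕ} {B S S' : Finset V} (hB : B.card ≤ m)
    (hS : S ⊆ B) (hd : S.card ≤ d) (hS' : S' ⊆ B) (hd' : S'.card ≤ d)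
    (h : enc m d B S = enc m d B S') : S = S' := by
  unfold enc at h
  rw [dif_pos hB] at h
  exact (enc_ex m d B hB).choose_spec S S' hS hd hS' hd' h

/-- the two sets of hints -/
noncomputable def RU {V : Type} [Fintype V] (G : SimpleGraph V) (g h q d : ℕ)
    (A Z : Finset V) (s : ℕ) (w u : V) : Finset V :=
  RSz G g h q d A Z s w ∪ RSz G g h q d A Z s u

theorem card_RU (h1 : T_RSZ) {V : Type} [Fintype V] (G : SimpleGraph V) (g h q d : ℕ)
    (A Z : Finset V) (s : ℕ) (w u : V) :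
    (RU G g h q d A Z s w u).card ≤ 2 * (h + h * (4 * g) * d + q * d + 1) ^ s := by
  have f1 := h1 V G g h q d A Z s w
  have f2 := h1 V G g h q d A Z s u
  have f3 := card_union_le (RSz G g h q d A Z s w) (RSz G g h q d A Z s u)
  unfold RU
  omega

theorem sub_RU {V : Type} [Fintype V] {G : SimpleGraph V} {g h q d : ℕ} {A Z : Finset V}
    {s : ℕ} {w u : V} {D : Finset V}
    (hD : D ⊆ RSz G g h q d A Z s w ∪ RSz G g h q d A Z s u) :
    D ⊆ RU G g h q d A Z s w u := hD

theorem RU_eq {V : Type} [Fintype V] {G H : SimpleGraph V} {g h q d : ℕ} {A Z : Finset V}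
    {s : ℕ} {w u : V} (hw : RSz G g h q d A Z s w = RSz H g h q d A Z s w)
    (hu : RSz G g h q d A Z s u = RSz H g h q d A Z s u) :
    RU G g h q d A Z s w u = RU H g h q d A Z s w u := by
  unfold RU
  rw [hw, hu]

/-- the number of graphs for a given set `Z` -/
theorem fixZ (h1 : T_RSZ) (h2 : T_INZ) (C : HER47.Cls) (hC : HER47.Her C)
    {n k g h q d s : ℕ} (A Z : Finset (Fin n)) (hZ : Z.card = k) :
    Nat.card {G : SimpleGraph (Fin n) // C (Fin n) G ∧ CdM G g h q d s A Z} ≤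
      HER47.cn C (n - k) *
        (2 * n ^ 2 * (2 * (h + h * (4 * g) * d + q * d + 1) ^ s + 1) ^ d) ^ k := by
  have hex := fun G : {G : SimpleGraph (Fin n) // C (Fin n) G ∧ CdM G g h q d s A Z} => G.2.2.2
  choose w u b D hall using hex
  have hA := fun G : {G : SimpleGraph (Fin n) // C (Fin n) G ∧ CdM G g h q d s A Z} => G.2.2.1
  have hZc : (Zᶜ).card = n - k := by
    rw [card_compl, Fintype.card_fin, hZ]
  let e : Fin (n - k) ↪ Fin n := (Zᶜ.orderEmbOfFin hZc).toEmbedding
  have he : ∀ a, a ∉ Z → ∃ i, e i = a := by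
    intro a ha
    have h2 : a ∈ Set.range (Zᶜ.orderEmbOfFin hZc) := by
      rw [Finset.range_orderEmbOfFin]
      exact mem_compl.2 ha
    exact h2
  set m : ℕ := 2 * (h + h * (4 * g) * d + q * d + 1) ^ s with hm
  let cod : {G : SimpleGraph (Fin n) // C (Fin n) G ∧ CdM G g h q d s A Z} →
      {G : SimpleGraph (Fin (n - k)) // C (Fin (n - k)) G} ×
        ({v // v ∈ Z} → Fin n × Fin n × Bool × Fin ((m + 1) ^ d)) :=
    fun G => (⟨G.1.comap e, hC _ _ e G.1 G.2.1⟩,
      fun v => (w G v.1, u G v.1, b G v.1,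
        enc m d (RU G.1 g h q d A Z s (w G v.1) (u G v.1)) (D G v.1)))
  have hinj : Function.Injective cod := by
    intro G H hGH
    apply Subtype.ext
    have a1 : G.1.comap e = H.1.comap e := by
      have := congrArg
        (fun p => (p.1 : {G : SimpleGraph (Fin (n - k)) // C (Fin (n - k)) G}).1) hGH
      exact this
    have a2 : ∀ v : {v // v ∈ Z}, (w G v.1, u G v.1, b G v.1,
        enc m d (RU G.1 g h q d A Z s (w G v.1) (u G v.1)) (D G v.1)) = (w H v.1, u H v.1, b H v.1,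
        enc m d (RU H.1 g h q d A Z s (w H v.1) (u H v.1)) (D H v.1)) := by
      intro v
      have := congrArg (fun p => p.2 v) hGH
      exact this
    have b1 : ∀ v ∈ Z, w G v = w H v := fun v hv => congrArg (fun p => p.1) (a2 ⟨v, hv⟩)
    have b2 : ∀ v ∈ Z, u G v = u H v := fun v hv => congrArg (fun p => p.2.1) (a2 ⟨v, hv⟩)
    have b4 : ∀ v ∈ Z, b G v = b H v := fun v hv => congrArg (fun p => p.2.2.1) (a2 ⟨v, hv⟩)
    have b5 : ∀ v ∈ Z,
        enc m d (RU G.1 g h q d A Z s (w G v) (u G v)) (D G v) =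
        enc m d (RU H.1 g h q d A Z s (w H v) (u H v)) (D H v) :=
      fun v hv => congrArg (fun p => p.2.2.2) (a2 ⟨v, hv⟩)
    -- outside `Z`
    have hout : ∀ a b, a ∉ Z → b ∉ Z → (G.1.Adj a b ↔ H.1.Adj a b) := by
      intro a b ha hb
      obtain ⟨i, rfl⟩ := he a ha
      obtain ⟨j, rfl⟩ := he b hb
      have h5 : (G.1.comap e).Adj i j ↔ (H.1.comap e).Adj i j := by rw [a1]
      exact h5
    have hRS : ∀ x, x ∉ Z → RSz G.1 g h q d A Z s x = RSz H.1 g h q d A Z s x := fun x hx =>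
      h2 (Fin n) H.1 G.1 g h q d A Z (hA G) hout s x hx
    have hD : ∀ v ∈ Z, D G v = D H v := by
      intro v hv
      obtain ⟨c1, c2, c3, c4, -, -⟩ := hall G v hv
      obtain ⟨e1, e2, e3, e4, -, -⟩ := hall H v hv
      have c5 := b5 v hv
      have c6 := sub_RU c4
      have e6 := sub_RU e4
      rw [RU_eq (hRS _ c1) (hRS _ c2), b1 v hv, b2 v hv] at c6 c5
      exact enc_inj (card_RU h1 _ _ _ _ _ _ _ _ _ _) c6 c3 e6 e3 c5
    have hin : ∀ z, z ∉ Z → ∀ v ∈ Z, (G.1.Adj z v ↔ H.1.Adj z v) := by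
      intro z hz v hv
      obtain ⟨-, -, -, -, d6, -⟩ := hall G v hv
      obtain ⟨-, f2, -, -, f6, -⟩ := hall H v hv
      have d7 := d6 z hz
      have f7 := f6 z hz
      rw [hD v hv, b2 v hv, b4 v hv, hout z (u H v) hz f2] at d7
      exact d7.trans f7.symm
    have hii : ∀ v' ∈ Z, ∀ v ∈ Z, (G.1.Adj v' v ↔ H.1.Adj v' v) := by
      intro v' hv' v hv
      by_cases hne : v' = v
      · rw [hne]
        simp
      · obtain ⟨-, -, -, -, -, d7⟩ := hall G v hv
        obtain ⟨-, f2, -, -, -, f7⟩ := hall H v hv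
        obtain ⟨-, k3, -⟩ := hall H v' hv'
        have d8 := d7 v' hv' hne
        have f8 := f7 v' hv' hne
        rw [b2 v hv, b2 v' hv', hout _ _ k3 f2] at d8
        exact d8.trans f8.symm
    ext x y
    by_cases hx : x ∈ Z
    · by_cases hy : y ∈ Z
      · exact hii x hx y hy
      · rw [G.1.adj_comm, H.1.adj_comm]
        exact hin y hy x hx
    · by_cases hy : y ∈ Z
      · exact hin x hx y hy
      · exact hout x y hx hy
  refine (Nat.card_le_card_of_injective cod hinj).trans (le_of_eq ?_)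
  have hc1 : Nat.card {v : Fin n // v ∈ Z} = k := by
    rw [Nat.card_eq_fintype_card, Fintype.card_coe, hZ]
  have hc2 : Nat.card (Fin n) = n := by simp
  have hc3 : Nat.card Bool = 2 := by simp
  have hc4 : Nat.card (Fin ((m + 1) ^ d)) = (m + 1) ^ d := by simp
  rw [Nat.card_prod, Nat.card_fun, Nat.card_prod, Nat.card_prod, Nat.card_prod, hc1, hc2, hc3,
    hc4]
  show HER47.cn C (n - k) * _ = _
  congr 2
  ring

end CTZ_

theorem p_CTZ (h1 : T_RSZ) (h2 : T_INZ) : T_CTZ := by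
  intro C hC n k g h q d s A _
  let f : {G : SimpleGraph (Fin n) // C (Fin n) G ∧
      ∃ Z : Finset (Fin n), Z.card = k ∧ CdM G g h q d s A Z} →
      (Σ Z : {Z : Finset (Fin n) // Z.card = k},
        {G : SimpleGraph (Fin n) // C (Fin n) G ∧ CdM G g h q d s A Z.1}) :=
    fun G => ⟨⟨G.2.2.choose, G.2.2.choose_spec.1⟩, ⟨G.1, G.2.1, G.2.2.choose_spec.2⟩⟩
  have hf : Function.Injective f := by
    intro G H hGH
    apply Subtype.ext
    have := congrArg (fun s : (Σ Z : {Z : Finset (Fin n) // Z.card = k},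
        {G : SimpleGraph (Fin n) // C (Fin n) G ∧ CdM G g h q d s A Z.1}) => s.2.1) hGH
    exact this
  refine (Nat.card_le_card_of_injective f hf).trans ?_
  rw [Nat.card_sigma]
  calc ∑ Z : {Z : Finset (Fin n) // Z.card = k},
        Nat.card {G : SimpleGraph (Fin n) // C (Fin n) G ∧ CdM G g h q d s A Z.1}
      ≤ ∑ _Z : {Z : Finset (Fin n) // Z.card = k},
        HER47.cn C (n - k) *
          (2 * n ^ 2 * (2 * (h + h * (4 * g) * d + q * d + 1) ^ s + 1) ^ d) ^ k :=
        Finset.sum_le_sum fun Z _ => CTZ_.fixZ h1 h2 C hC A Z.1 Z.2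
    _ = n.choose k * (HER47.cn C (n - k) *
          (2 * n ^ 2 * (2 * (h + h * (4 * g) * d + q * d + 1) ^ s + 1) ^ d) ^ k) := by
        rw [Finset.sum_const, Finset.card_univ, Fintype.card_finset_len, Fintype.card_fin,
          smul_eq_mul]

end Pool.Agent.NRR
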