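import Pool.Agent.NRR.Targets

/-!
# NRR, block HNZ: counting hinted vertices
-/

set_option autoImplicit false

open Finset Classical

namespace Pool.Agent.NRR

open Pool.Agent Pool.Agent.Lib.Recon Pool.Agent.RNB Pool.Agent.NRC Pool.Agent.NRM
  Pool.Agent.NRP

namespace HNZ_

variable {V : Type} [Fintype V]

/-- the set `dset a a' \ Z` if it is small -/
noncomputable def sm (G : SimpleGraph V) (d : ℕ) (Z : Finset V) (a a' : V) : Finset V :=
  if (dset G a a' \ Z).card ≤ d then dset G a a' \ Z else ∅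

lemma card_sm (G : SimpleGraph V) (d : ℕ) (Z : Finset V) (a a' : V) :
    (sm G d Z a a').card ≤ d := by
  unfold sm
  split_ifs with h
  · exact h
  · simp

lemma mem_sm {G : SimpleGraph V} {d : ℕ} {Z : Finset V} {a a' b : V} (h1 : b ∉ Z)
    (h2 : (dset G a a' \ Z).card ≤ d) (h3 : b ∈ dset G a a') : b ∈ sm G d Z a a' := by
  unfold sm
  rw [if_pos h2]
  exact mem_sdiff.2 ⟨h3, h1⟩

lemma card_bi (G : SimpleGraph V) (d : ℕ) (Z : Finset V) (a : V) (S : Finset V) {n : ℕ}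
    (h : S.card ≤ n) : (S.biUnion (sm G d Z a)).card ≤ n * d :=
  (card_biUnion_le_card_mul _ _ d fun a' _ => card_sm G d Z a a').trans
    (Nat.mul_le_mul_right d h)

end HNZ_

open HNZ_ in
theorem p_HNZ : T_HNZ := by
  intro V _ G g h q d A Z a
  obtain ⟨I, hI⟩ : ∃ I, I = inz G (4 * g) A Z a := ⟨_, rfl⟩
  obtain ⟨R, hR⟩ : ∃ R, R = rcz G g A Z a := ⟨_, rfl⟩
  obtain ⟨S1, hS1⟩ : ∃ S1 : Finset V, S1 = if I.card ≤ h then
    I ∪ I.biUnion (fun t => (sz G A Z t a).biUnion (sm G d Z a)) else ∅ := ⟨_, rfl⟩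
  obtain ⟨S2, hS2⟩ : ∃ S2 : Finset V, S2 = if R.card ≤ q then
    R.biUnion (sm G d Z a) else ∅ := ⟨_, rfl⟩
  have c1 : S1.card ≤ h + h * (4 * g) * d := by
    rw [hS1]
    split_ifs with h1
    · refine (card_union_le _ _).trans (Nat.add_le_add h1 ?_)
      have h2 : ∀ t ∈ I, ((sz G A Z t a).biUnion (sm G d Z a)).card ≤ 4 * g * d := by
        intro t ht
        rw [hI, inz, mem_filter] at ht
        exact card_bi G d Z a _ ht.2.2.2.2
      refine (card_biUnion_le_card_mul _ _ _ h2).trans ?_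
      rw [mul_assoc h]
      exact Nat.mul_le_mul_right _ h1
    · simp
  have c2 : S2.card ≤ q * d := by
    rw [hS2]
    split_ifs with h1
    · exact card_bi G d Z a _ h1
    · simp
  have hsub : univ.filter (fun b => Hnz G g h q d A Z a b) ⊆ S1 ∪ S2 := by
    intro b hb
    obtain ⟨hbv, hb⟩ := (mem_filter.1 hb).2
    rw [← hI, ← hR] at hb
    rw [mem_union]
    rcases hb with ⟨h1, h2⟩ | ⟨h1, a', h2, h3, h4⟩
    · left
      rw [hS1, if_pos h1, mem_union]
      rcases h2 with h2 | ⟨t, ht, a', h3, h4, h5⟩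
      · exact Or.inl h2
      · exact Or.inr (mem_biUnion.2 ⟨t, ht, mem_biUnion.2 ⟨a', h3, mem_sm hbv h4 h5⟩⟩)
    · right
      rw [hS2, if_pos h1]
      exact mem_biUnion.2 ⟨a', h2, mem_sm hbv h3 h4⟩
  exact (card_le_card hsub).trans ((card_union_le _ _).trans (Nat.add_le_add c1 c2))

end Pool.Agent.NRR
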