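import Pool.Agent.NRR.Targets

/-!
# NRR: IDS, an independent set in a digraph (MP_552896_co)
-/

set_option autoImplicit false

open Finset Classical

namespace Pool.Agent.NRR

open Pool.Agent Pool.Agent.Lib.Recon Pool.Agent.RNB Pool.Agent.NRC Pool.Agent.NRM
  Pool.Agent.NRP

namespace IDS_

/-- some vertex has at most `D` in-neighbours -/
theorem exists_indeg {V : Type} [Fintype V] (Z : Finset V) (S : V → Finset V) (D : ℕ)
    (hS : ∀ v ∈ Z, (Z ∩ S v).card ≤ D) (hZ : Z.Nonempty) :
    ∃ v ∈ Z, (Z.filter fun v' => v ∈ S v').card ≤ D := by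
  by_contra hcon
  push Not at hcon
  have h1 : ∑ v ∈ Z, (Z.filter fun v' => v ∈ S v').card = ∑ v' ∈ Z, (Z ∩ S v').card := by
    simp only [card_filter]
    rw [sum_comm]
    refine sum_congr rfl fun v' _ => ?_
    rw [← card_filter, filter_mem_eq_inter]
  have h2 : ∑ v' ∈ Z, (Z ∩ S v').card ≤ ∑ _v ∈ Z, D := sum_le_sum hS
  have h3 : ∑ _v ∈ Z, D < ∑ v ∈ Z, (Z.filter fun v' => v ∈ S v').card :=
    sum_lt_sum_of_nonempty hZ hcon
  omega

theorem main {V : Type} [Fintype V] (S : V → Finset V) (D : ℕ) : ∀ Z : Finset V,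
    (∀ v ∈ Z, (Z ∩ S v).card ≤ D) →
    ∃ Z2 ⊆ Z, Z.card ≤ (2 * D + 1) * Z2.card ∧
      ∀ v ∈ Z2, ∀ v' ∈ Z2, v' ≠ v → v' ∉ S v := by
  intro Z
  induction Z using Finset.strongInduction with
  | H Z ih =>
    intro hS
    rcases Z.eq_empty_or_nonempty with rfl | hZ
    · exact ⟨∅, Subset.refl _, by simp, by simp⟩
    obtain ⟨v, hv, hdeg⟩ := exists_indeg Z S D hS hZ
    have hss : Z \ insert v (Z ∩ S v ∪ Z.filter fun v' => v ∈ S v') ⊂ Z := by
      refine ⟨sdiff_subset, fun h => ?_⟩
      have h2 := h hv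
      rw [mem_sdiff] at h2
      exact h2.2 (mem_insert_self _ _)
    obtain ⟨Z2, hZ2, hc, hind⟩ := ih _ hss (by
      intro a ha
      refine le_trans (card_le_card ?_) (hS a (mem_sdiff.1 ha).1)
      exact inter_subset_inter_right sdiff_subset)
    have hnot : ∀ a ∈ Z2, a ∈ Z ∧ a ≠ v ∧ a ∉ S v ∧ v ∉ S a := by
      intro a ha
      obtain ⟨h1, h2⟩ := mem_sdiff.1 (hZ2 ha)
      rw [mem_insert, mem_union, mem_inter, mem_filter] at h2
      push Not at h2
      exact ⟨h1, h2.1, h2.2.1 h1, h2.2.2 h1⟩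
    have hv2 : v ∉ Z2 := fun h => (hnot v h).2.1 rfl
    refine ⟨insert v Z2, ?_, ?_, ?_⟩
    · intro a ha
      rcases mem_insert.1 ha with rfl | h
      · exact hv
      · exact (hnot a h).1
    · rw [card_insert_of_notMem hv2]
      have h1 : (insert v (Z ∩ S v ∪ Z.filter fun v' => v ∈ S v')).card ≤ 2 * D + 1 := by
        refine le_trans (card_insert_le _ _) ?_
        have h2 := card_union_le (Z ∩ S v) (Z.filter fun v' => v ∈ S v')
        have h3 := hS v hv
        omega
      have h4 : Z.card ≤ (Z \ insert v (Z ∩ S v ∪ Z.filter fun v' => v ∈ S v')).card +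
          (insert v (Z ∩ S v ∪ Z.filter fun v' => v ∈ S v')).card :=
        card_le_card_sdiff_add_card
      calc Z.card ≤ (2 * D + 1) * Z2.card + (2 * D + 1) := by omega
        _ = (2 * D + 1) * (Z2.card + 1) := by ring
    · intro a ha c hcm hne
      rcases mem_insert.1 ha with rfl | h
      · rcases mem_insert.1 hcm with rfl | h'
        · exact absurd rfl hne
        · exact (hnot c h').2.2.1
      · rcases mem_insert.1 hcm with rfl | h'
        · exact (hnot a h).2.2.2
        · exact hind a h c h' hne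

end IDS_

theorem p_IDS : T_IDS := by
  intro V _ Z S D hS
  exact IDS_.main S D Z hS

end Pool.Agent.NRR
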