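import Pool.Agent.NRR.Targets
import Pool.Agent.NRP.P_ITR

/-!
# NRR, block ITK: all steps (MP_552896_co)
-/

set_option autoImplicit false

open Finset Classical

namespace Pool.Agent.NRR

open Pool.Agent Pool.Agent.Lib.Recon Pool.Agent.RNB Pool.Agent.NRC Pool.Agent.NRM
  Pool.Agent.NRP

open Pool.Agent.NRP.ITR_ in
theorem p_ITK (h1 : T_STK) (h2 : Pool.Agent.NRP.T_NUM) (h3 : Pool.Agent.NRP.T_PW) : T_ITK := by
  intro V _ G A T01 T1 T Y g1 qq h1' d M κ ms c hR hKK hdn hqq hM hCx hT1 hds hY hNr hMk hms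
    hCo
  set n : ℝ := (Fintype.card V : ℝ) with hn
  set ρ : ℝ := (1 + Real.logb 2 n) * (8 * g1 * n / qq + κ) + (1 + Real.logb 2 qq) * (n / M)
    with hρ
  have hn0 : 0 ≤ n := Nat.cast_nonneg _
  have hln : 0 ≤ Real.logb 2 n := logb_nonneg _
  have hρ0 : 0 ≤ ρ := by
    have hlq : 0 ≤ Real.logb 2 (qq : ℝ) := logb_nonneg _
    positivity
  have hKKp : 1 ≤ KK := Nat.one_le_two_pow
  obtain ⟨pk, hpk⟩ : ∃ x : ℝ, x = pw KH := ⟨_, rfl⟩
  rw [← hpk]
  -- the claim
  have key : ∀ d : ℕ, KK ≤ d → d ≤ Fintype.card V → 2 * g1 + d ^ 2 + 2 ≤ qq →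
      ∀ (T : Finset V) (ms : V → ℕ) (c : ℝ), T1 ⊆ T → Y ⊆ T → Nr G d T → Mk (kc G) T ms →
      (∀ y, ms y = 0 ∨ KH ≤ ms y) → Co G T (c + Ph ms) →
      (∃ (d' : ℕ) (T' : Finset V), KK ≤ d' ∧ d' ≤ d ∧ T ⊆ T' ∧
        NRQ.Rich G (2 * g1) qq A T' ∧ Nr G d' T' ∧
        κ < (SCP (IN G (2 * d' ^ 2) T')
          (PL G (d' ^ 2) (d' ^ 4) T' (T' ∪ EE G (d' ^ 2) T')) M).card) ∨
      ∃ T' : Finset V, Dst G T' ∧ Co G T' (c + (36 / 40005 - 18 / (lam d : ℝ)) * n +
        (1 + Real.logb 2 d) * ρ + 6 * n * pk) := by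
    intro d
    induction d using Nat.strong_induction_on with
    | _ d ih =>
      intro hKK hdn hqq T ms c hT1 hY hNr hMk hms hCo
      obtain ⟨u1, u2, -, -, -, -, u7⟩ := h2 d hKK
      have hlam : (40005 : ℝ) ≤ (lam d : ℝ) := by exact_mod_cast u7
      have hlam0 : (0 : ℝ) < (lam d : ℝ) := by linarith
      have hld : 0 ≤ Real.logb 2 (d : ℝ) := logb_nonneg _
      rcases h1 V G A T01 T1 T Y g1 qq h1' d M κ ms c hR hKK hdn hqq hM hCx hT1 hds hY hNr
        hMk hms hCo with ⟨T2, a1, a2, a3, a4⟩ | ⟨T', ms', b1, b2, b3, b4, b5⟩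
      · exact Or.inl ⟨d, T2, hKK, le_rfl, a1, a2, a3, a4⟩
      have hb5 : Co G T' ((c + 18 * n / (lam d : ℝ) + ρ) + Ph ms') := by
        refine co_mono b5 (le_of_eq ?_)
        rw [hρ]
        ring
      by_cases hnx : KK ≤ nx d
      · have hlt : nx d < d := by omega
        have hq' : 2 * g1 + nx d ^ 2 + 2 ≤ qq := by
          have : nx d ^ 2 ≤ d ^ 2 := Nat.pow_le_pow_left (by omega) 2
          omega
        rcases ih (nx d) hlt hnx (by omega) hq' T' ms' (c + 18 * n / (lam d : ℝ) + ρ)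
          (hT1.trans b1) (hY.trans b1) b2 b3 b4 hb5 with ⟨d', T2, a1, a2, a3, a4, a5, a6⟩ | ⟨T2, a1, a2⟩
        · exact Or.inl ⟨d', T2, a1, by omega, b1.trans a3, a4, a5, a6⟩
        · refine Or.inr ⟨T2, a1, co_mono a2 ?_⟩
          have hlog := log_step (a := nx d) (b := d) (by omega) u2
          have hnl : (0 : ℝ) < (lam (nx d) : ℝ) := by
            obtain ⟨-, -, -, -, -, -, v7⟩ := h2 (nx d) hnx
            have : (40005 : ℝ) ≤ (lam (nx d) : ℝ) := by exact_mod_cast v7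
            linarith
          have hl2 : 2 * (lam (nx d) : ℝ) ≤ (lam d : ℝ) := by exact_mod_cast u1
          have hfr : 36 / (lam d : ℝ) ≤ 18 / (lam (nx d) : ℝ) := by
            rw [div_le_div_iff₀ hlam0 hnl]
            linarith
          have e1 : (36 / (lam d : ℝ)) * n ≤ (18 / (lam (nx d) : ℝ)) * n :=
            mul_le_mul_of_nonneg_right hfr hn0
          have e2 : (1 + Real.logb 2 (nx d : ℝ)) * ρ ≤ Real.logb 2 (d : ℝ) * ρ :=
            mul_le_mul_of_nonneg_right hlog hρ0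
          have e3 : 18 * n / (lam d : ℝ) = (18 / (lam d : ℝ)) * n := by ring
          have e4 : (36 / (lam d : ℝ)) * n = 2 * ((18 / (lam d : ℝ)) * n) := by ring
          rw [e3]
          have e5 : (36 / 40005 - 18 / (lam d : ℝ)) * n =
            36 / 40005 * n - (18 / (lam d : ℝ)) * n := by ring
          have e6 : (36 / 40005 - 18 / (lam (nx d) : ℝ)) * n =
            36 / 40005 * n - (18 / (lam (nx d) : ℝ)) * n := by ring
          have e7 : (1 + Real.logb 2 (d : ℝ)) * ρ = ρ + Real.logb 2 (d : ℝ) * ρ := by ring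
          rw [e5, e6, e7]
          linarith
      · refine Or.inr ⟨T', ?_, co_mono hb5 ?_⟩
        · intro u v hu hv huv
          by_contra hcon
          push Not at hcon
          have hf := b2 u v hu hv huv (fun a ha => hcon a ha)
          have hg := hds u v (fun h => hu (b1 (hY h))) (fun h => hv (b1 (hY h))) huv
          omega
        · have hph := ph_le h3 ms' b4
          have e3 : 18 * n / (lam d : ℝ) = (18 / (lam d : ℝ)) * n := by ring
          have hfr : 18 / (lam d : ℝ) ≤ 18 / 40005 := by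
            rw [div_le_div_iff₀ hlam0 (by norm_num)]
            linarith
          have e1 : (18 / (lam d : ℝ)) * n ≤ (18 / 40005) * n :=
            mul_le_mul_of_nonneg_right hfr hn0
          have e2 : 0 ≤ Real.logb 2 (d : ℝ) * ρ := mul_nonneg hld hρ0
          rw [e3]
          rw [← hpk] at hph
          have e5 : (36 / 40005 - 18 / (lam d : ℝ)) * n =
            36 / 40005 * n - (18 / (lam d : ℝ)) * n := by ring
          have e7 : (1 + Real.logb 2 (d : ℝ)) * ρ = ρ + Real.logb 2 (d : ℝ) * ρ := by ring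
          rw [e5, e7]
          linarith
  rcases key d hKK hdn hqq T ms c hT1 hY hNr hMk hms hCo with h | ⟨T', a1, a2⟩
  · exact Or.inl h
  · refine Or.inr ⟨T', a1, co_mono a2 ?_⟩
    have hlam0 : (0 : ℝ) ≤ 18 / (lam d : ℝ) := div_nonneg (by norm_num) (Nat.cast_nonneg _)
    have e1 : (36 / 40005 - 18 / (lam d : ℝ)) * n ≤ n / 1000 := by
      have : (36 / 40005 - 18 / (lam d : ℝ)) * n ≤ (1 / 1000) * n :=
        mul_le_mul_of_nonneg_right (by linarith) hn0
      linarith
    linarith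

end Pool.Agent.NRR
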