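import Pool.Agent.NRR.Targets
import Pool.Agent.NRP.P_LV1
import Pool.Agent.NRP.P_NLV

/-!
# NRR-LK1: the first level with an exceptional set

Project NRR (owner helper48), edit of NRP/P_LV1.lean (helper21) by helper10.
-/

set_option autoImplicit false

open Finset Classical

namespace Pool.Agent.NRR

open Pool.Agent Pool.Agent.Lib.Recon Pool.Agent.RNB Pool.Agent.NRC Pool.Agent.NRM
  Pool.Agent.NRP

namespace LK1_

theorem aux (n L m q K a e0 e1 e2 e3 y κ t r s e k x lq : ℝ) (hL : 80000 ≤ L)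
    (hm : 64000 ≤ m) (hK : 60000 * K ≤ q) (ha0 : 0 ≤ a) (h0 : 0 ≤ e0) (h1 : 0 ≤ e1)
    (h2 : 0 ≤ e2) (h3 : 0 ≤ e3) (hy0 : 0 ≤ y) (hκ0 : 0 ≤ κ) (ht0 : 0 ≤ t)
    (hs0 : 0 ≤ s) (he0 : 0 ≤ e) (hk0 : 0 ≤ k) (hx0 : 0 ≤ x)
    (ha : a * L ^ 2 ≤ n) (hE0 : 4 * L ^ 6 * e0 ≤ 4 * n * L ^ 3)
    (hE1 : 4 * L ^ 6 * e1 ≤ 4 * n * L ^ 3) (hE2 : 4 * L ^ 6 * e2 ≤ 4 * n * L ^ 3)
    (hE3 : e3 * L ^ 3 ≤ n) (hY : y * L ^ 3 ≤ n) (hκ : 1000 * (κ * L ^ 2) ≤ n)
    (ht : t ≤ a + e0 + e2 + y + 2 * (e1 + e3 + y)) (hr : r ≤ 2 * L)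
    (hs : 1000000 * L * s ≤ n) (he : q * e ≤ n)
    (hk : k * m ^ 2 ≤ n) (hx : x * m ^ 2 ≤ n) (hl : lq ≤ 2 * m) :
    r * t + r * κ + r * s + 4 * lq * (k + x) + 6 * K * e ≤ n / 1000 := by
  have hL0 : 0 < L := by linarith
  have hm0 : 0 < m := by linarith
  have n0 : 0 ≤ n := le_trans (by positivity) ha
  have hdiv : ∀ y : ℝ, 4 * L ^ 6 * y ≤ 4 * n * L ^ 3 → y * L ^ 3 ≤ n := by
    intro y h
    have h8 : (y * L ^ 3) * (4 * L ^ 3) ≤ n * (4 * L ^ 3) := by
      calc (y * L ^ 3) * (4 * L ^ 3) = 4 * L ^ 6 * y := by ring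
        _ ≤ 4 * n * L ^ 3 := h
        _ = n * (4 * L ^ 3) := by ring
    exact le_of_mul_le_mul_right h8 (by positivity)
  have hsq : ∀ y : ℝ, 0 ≤ y → y * L ^ 3 ≤ n → 80000 * (y * L ^ 2) ≤ n := by
    intro y hy h
    calc 80000 * (y * L ^ 2) ≤ L * (y * L ^ 2) :=
          mul_le_mul_of_nonneg_right hL (by positivity)
      _ = y * L ^ 3 := by ring
      _ ≤ n := h
  have hl1 : ∀ y : ℝ, 0 ≤ y → 80000 * (y * L) ≤ y * L ^ 2 := by
    intro y hy
    calc 80000 * (y * L) ≤ L * (y * L) := mul_le_mul_of_nonneg_right hL (by positivity)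
      _ = y * L ^ 2 := by ring
  have hall : ∀ y : ℝ, 0 ≤ y → y * L ^ 3 ≤ n → 80000 * (80000 * (y * L)) ≤ n := by
    intro y hy h
    have := hsq y hy h
    have := hl1 y hy
    linarith
  have c0 := hall e0 h0 (hdiv e0 hE0)
  have c1 := hall e1 h1 (hdiv e1 hE1)
  have c2 := hall e2 h2 (hdiv e2 hE2)
  have c3 := hall e3 h3 hE3
  have cy := hall y hy0 hY
  have ca : 80000 * (a * L) ≤ n := (hl1 a ha0).trans ha
  have cκ : 1000 * (80000 * (κ * L)) ≤ n := by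
    have := hl1 κ hκ0
    linarith
  have ctL : (t + κ) * L ≤ n / 40000 := by
    have h3 : (t + κ) * L ≤ (a + e0 + e2 + y + 2 * (e1 + e3 + y) + κ) * L :=
      mul_le_mul_of_nonneg_right (by linarith) hL0.le
    have h4 : (a + e0 + e2 + y + 2 * (e1 + e3 + y) + κ) * L =
        a * L + e0 * L + e2 * L + 3 * (y * L) + 2 * (e1 * L) + 2 * (e3 * L) + κ * L := by ring
    linarith
  have ct : r * (t + κ) ≤ n / 20000 := by
    calc r * (t + κ) ≤ 2 * L * (t + κ) := mul_le_mul_of_nonneg_right hr (by positivity)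
      _ = 2 * ((t + κ) * L) := by ring
      _ ≤ n / 20000 := by linarith
  have ct' : r * (t + κ) = r * t + r * κ := by ring
  have cs : r * s ≤ n / 500000 := by
    calc r * s ≤ 2 * L * s := mul_le_mul_of_nonneg_right hr hs0
      _ ≤ n / 500000 := by linarith
  have ckx : 4 * lq * (k + x) ≤ n / 4000 := by
    have h5 : 64000 * (m * (k + x)) ≤ m * (m * (k + x)) :=
      mul_le_mul_of_nonneg_right hm (by positivity)
    have h6 : m * (m * (k + x)) = k * m ^ 2 + x * m ^ 2 := by ring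
    calc 4 * lq * (k + x) ≤ 4 * (2 * m) * (k + x) := by gcongr
      _ = 8 * (m * (k + x)) := by ring
      _ ≤ n / 4000 := by linarith
  have ce : 6 * K * e ≤ n / 10000 := by
    have h7 : 60000 * K * e ≤ q * e := mul_le_mul_of_nonneg_right hK he0
    linarith
  linarith

/-- the start set -/
noncomputable def T0s {V : Type} [Fintype V] (G : SimpleGraph V) (g q : ℕ)
    (A Y : Finset V) : Finset V :=
  (((A ∪ EE G g A) ∪ univ.filter (fun y => g < (ZZ G A y).card)) ∪ Y) ∪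
    (LA G g q A \ PP G g q g KK A Y)

theorem PL_sub {V : Type} [Fintype V] (G : SimpleGraph V) (g q : ℕ) (A Y : Finset V) :
    PL G g q A (T0s G g q A Y) ⊆ PP G g q g KK A Y := by
  intro y hy
  unfold PL at hy
  rw [mem_filter] at hy
  by_contra hc
  refine hy.2 ?_
  unfold T0s
  exact mem_union_right _ (mem_sdiff.2 ⟨hy.1, hc⟩)

theorem T0s_lv {V : Type} [Fintype V] (G : SimpleGraph V) (g q : ℕ) (A Y : Finset V)
    (hg : 1 ≤ g) (hq : 64 * g ≤ q) : Lv G g q g A (T0s G g q A Y) where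
  sub := by
    unfold T0s
    exact subset_union_left.trans (subset_union_left.trans subset_union_left)
  g1 := hg
  h1 := hg
  q1 := by omega
  q2 := by omega
  ind := by
    intro y hy
    have h1 := PL_sub G g q A Y hy
    unfold PP at h1
    have h2 := (mem_filter.1 h1).1
    unfold P0 at h2
    have h3 := (mem_sdiff.1 h2).1
    unfold LL at h3
    exact (mem_filter.1 h3).2.1

theorem SC_eq {V : Type} [Fintype V] (G : SimpleGraph V) (g M : ℕ) (A P : Finset V) :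
    SC G g M A P = SCP (IN G (2 * g) A) P M := rfl

end LK1_

open LK1_ Pool.Agent.NRP.LV1_ in
theorem p_LK1 (h1 : T_LVK) (h2 : Pool.Agent.NRP.T_CBS) (h3 : Pool.Agent.NRP.T_XBD)
    (h4 : Pool.Agent.NRM.T_LPP) (h5 : Pool.Agent.NRM.T_ELM) (hZ : Pool.Agent.NRQ.T_ZZC) :
    T_LK1 := by
  obtain ⟨-, n1, hN⟩ := Pool.Agent.NRP.p_NLV
  obtain ⟨n2, hP⟩ := pL_ge 80000
  refine ⟨n1 + n2 + 1, fun V _ G A Y hn hd hYc hA hs => ?_⟩
  obtain ⟨hd1, hd2, hd3, -, hg1, -, -, -⟩ := hN (Fintype.card V) (by omega)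
  have hL : 80000 ≤ pL (Fintype.card V) := hP _ (by omega)
  set n := Fintype.card V with hndef
  set g := pg n with hgdef
  set q := q1 n with hqdef
  have hqg : q = 64 * g * pL n ^ 3 := rfl
  have hgL : g = 4 * pL n ^ 6 := rfl
  have hq64 : 64 * g ≤ q := by
    rw [hqg]
    exact Nat.le_mul_of_pos_right _ (by positivity)
  have hqL : pL n ^ 3 ≤ q := by
    rw [hqg]
    exact Nat.le_mul_of_pos_left _ (by omega)
  have hm : 64000 ≤ lam1 n := big_m _ hd1
  have hq0 : q ≠ 0 := by omega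
  have hqm : q < 2 ^ lam1 n := Nat.lt_pow_succ_log_self (by norm_num) q
  have hn1 : 1 ≤ n := by omega
  have hnL : n < 2 ^ pL n := Nat.lt_pow_succ_log_self (by norm_num) n
  by_cases hS : kS n < (SC G g (M1 n) A (PL G g q A (T0s G g q A Y))).card
  · exact Or.inl ⟨_, PL_sub G g q A Y, hS⟩
  have hS' : (SCP (IN G (2 * g) A) (PL G g q A (T0s G g q A Y)) (M1 n)).card ≤ kS n := by
    rw [← SC_eq]
    exact not_lt.1 hS
  have hLv := T0s_lv G g q A Y hg1 hq64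
  have hY0 : Y ⊆ T0s G g q A Y := by
    unfold T0s
    exact subset_union_right.trans subset_union_left
  obtain ⟨T1, T', ms', s, x, e, hT1, hT', hNr, hMs, hqe, hx, hMk, hmk, hLv1, hCz, hCo⟩ :=
    h1 V G g q g (M1 n) (d1 n) (n / lam1 n ^ 2) A (T0s G g q A Y) Y (fun _ => 0)
    ((1 + Real.logb 2 (n : ℝ)) * (T0s G g q A Y).card) (1 + Real.logb 2 (n : ℝ)) hn1 hd2 hd
    hY0 hLv
    (fun y hy => absurd rfl hy) (fun y => Or.inl rfl) (fun y _ => Or.inl rfl)
    (by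
      rw [Ph_zero, add_zero]
      exact h2 V G _)
    (by
      intro Q _ hQM _
      have hQ : Q.Nonempty := by
        rw [← card_pos]
        omega
      obtain ⟨y, hy⟩ := hQ
      refine ⟨y, hy, ?_⟩
      have h5 : kc G (T0s G g q A Y) y ≤ n := by
        unfold kc
        exact card_le_univ _
      have := logb_mono _ _ h5
      linarith)
  refine Or.inr ⟨T1, T', ms', ⟨hLv1, fun y hy => ?_, hT', hCz⟩, (hY0.trans hT1).trans hT',
    hNr, hMk, hmk, ?_⟩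
  · refine hT1 ?_
    unfold T0s
    exact mem_union_left _ (mem_union_left _ (mem_union_right _
      (mem_filter.2 ⟨mem_univ _, hy⟩)))
  refine co_mono hCo ?_
  have hgr : (g : ℝ) = 4 * (pL n : ℝ) ^ 6 := by
    rw [hgL]
    push_cast
    ring
  have hE0 : 4 * (pL n : ℝ) ^ 6 * ((EE G g A).card : ℝ) ≤ 4 * (n : ℝ) * (pL n : ℝ) ^ 3 := by
    have h6 : ((g * (EE G g A).card : ℕ) : ℝ) ≤ (sm G A : ℝ) :=
      Nat.cast_le.2 (NRC.p_ESM V G g A)
    rw [Nat.cast_mul, hgr] at h6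
    exact h6.trans hs
  have hE1 : 4 * (pL n : ℝ) ^ 6 *
      (((LA G g q A).filter (fun y => g < (IN G (2 * g) A y).card)).card : ℝ) ≤
      4 * (n : ℝ) * (pL n : ℝ) ^ 3 := by
    have h6 : ((g * ((LA G g q A).filter
        (fun y => g < (IN G (2 * g) A y).card)).card : ℕ) : ℝ) ≤ (sm G A : ℝ) :=
      Nat.cast_le.2 (NRC.p_EHI V G g q g A (by omega))
    rw [Nat.cast_mul, hgr] at h6
    exact h6.trans hs
  have hE2 : 4 * (pL n : ℝ) ^ 6 *
      ((univ.filter (fun y => g < (ZZ G A y).card)).card : ℝ) ≤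
      4 * (n : ℝ) * (pL n : ℝ) ^ 3 := by
    have h6 : ((g * (univ.filter (fun y => g < (ZZ G A y).card)).card : ℕ) : ℝ) ≤
        (sm G A : ℝ) := Nat.cast_le.2 (hZ V G g A)
    rw [Nat.cast_mul, hgr] at h6
    exact h6.trans hs
  have hE3 : (((LA G g q A \ Y).filter (fun y => 2 * (IN G (2 * g) A y).card < KK)).card : ℝ) *
      (pL n : ℝ) ^ 3 ≤ (n : ℝ) := by
    have h6 := h5 V G g q KK A Y hd
    have h7 : ((LA G g q A \ Y).filter (fun y => 2 * (IN G (2 * g) A y).card < KK)).card *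
        pL n ^ 3 ≤ n := by
      rw [mul_comm]
      exact (Nat.mul_le_mul_right _ hqL).trans h6
    exact_mod_cast h7
  have hYL : (Y.card : ℝ) * (pL n : ℝ) ^ 3 ≤ (n : ℝ) := by
    have h6 : Y.card * pL n ^ 3 ≤ n :=
      (Nat.mul_le_mul_right _ hYc).trans (Nat.div_mul_le_self _ _)
    exact_mod_cast h6
  have hκ : 1000 * (((SCP (IN G (2 * g) A) (PL G g q A (T0s G g q A Y)) (M1 n)).card : ℝ) *
      (pL n : ℝ) ^ 2) ≤ (n : ℝ) := by
    have h6 : (SCP (IN G (2 * g) A) (PL G g q A (T0s G g q A Y)) (M1 n)).card *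
        (1000 * pL n ^ 2) ≤ n :=
      (Nat.mul_le_mul_right _ hS').trans (Nat.div_mul_le_self _ _)
    have h7 : 1000 * ((SCP (IN G (2 * g) A) (PL G g q A (T0s G g q A Y)) (M1 n)).card *
        pL n ^ 2) ≤ n := by
      calc 1000 * ((SCP (IN G (2 * g) A) (PL G g q A (T0s G g q A Y)) (M1 n)).card *
        pL n ^ 2) = (SCP (IN G (2 * g) A) (PL G g q A (T0s G g q A Y)) (M1 n)).card *
        (1000 * pL n ^ 2) := by ring
        _ ≤ n := h6
    exact_mod_cast h7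
  have hAL : (A.card : ℝ) * (pL n : ℝ) ^ 2 ≤ (n : ℝ) := by
    have h6 : A.card * pL n ^ 2 ≤ n :=
      (Nat.mul_le_mul_right _ hA).trans (Nat.div_mul_le_self _ _)
    exact_mod_cast h6
  have hcard : ((T0s G g q A Y).card : ℝ) ≤ (A.card : ℝ) + ((EE G g A).card : ℝ) +
      ((univ.filter (fun y => g < (ZZ G A y).card)).card : ℝ) + (Y.card : ℝ) +
      2 * ((((LA G g q A).filter (fun y => g < (IN G (2 * g) A y).card)).card : ℝ) +
        (((LA G g q A \ Y).filter (fun y => 2 * (IN G (2 * g) A y).card < KK)).card : ℝ) +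
        (Y.card : ℝ)) := by
    have h6 : (T0s G g q A Y).card ≤ A.card + (EE G g A).card +
        (univ.filter (fun y => g < (ZZ G A y).card)).card + Y.card +
        2 * (((LA G g q A).filter (fun y => g < (IN G (2 * g) A y).card)).card +
        ((LA G g q A \ Y).filter (fun y => 2 * (IN G (2 * g) A y).card < KK)).card +
        Y.card) := by
      unfold T0s
      refine (card_union_le _ _).trans (Nat.add_le_add ?_ (h4 V G g q g KK A Y))
      refine (card_union_le _ _).trans (Nat.add_le_add_right ?_ _)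
      refine (card_union_le _ _).trans (Nat.add_le_add_right ?_ _)
      exact card_union_le _ _
    exact_mod_cast h6
  have hxx : (x : ℝ) * (lam1 n : ℝ) ^ 2 ≤ (n : ℝ) := by
    have h7 := h3 n (lam1 n) (1 + q + g * (2 * g)) (by omega) hd2 (by
      have h8 : g ≤ 2 ^ lam1 n := by omega
      have h9 : g * (2 * g) ≤ 2 ^ lam1 n * (2 * 2 ^ lam1 n) :=
        Nat.mul_le_mul h8 (Nat.mul_le_mul_left 2 h8)
      have h10 : (2 : ℕ) ^ (2 * lam1 n + 2) = 4 * (2 ^ lam1 n * 2 ^ lam1 n) := by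
        rw [pow_add, two_mul, pow_add]
        ring
      have h11 : 1 + q ≤ 2 ^ lam1 n * 2 ^ lam1 n := by
        calc 1 + q ≤ 2 ^ lam1 n := by omega
          _ = 2 ^ lam1 n * 1 := by ring
          _ ≤ _ := Nat.mul_le_mul_left _ Nat.one_le_two_pow
      rw [h10]
      have h12 : 2 ^ lam1 n * (2 * 2 ^ lam1 n) = 2 * (2 ^ lam1 n * 2 ^ lam1 n) := by ring
      rw [h12] at h9
      omega)
    exact xb n (lam1 n) _ q g (d1 n) x rfl rfl hx h7
  have hkk : ((n / lam1 n ^ 2 : ℕ) : ℝ) * (lam1 n : ℝ) ^ 2 ≤ (n : ℝ) := by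
    have h6 : n / lam1 n ^ 2 * lam1 n ^ 2 ≤ n := Nat.div_mul_le_self _ _
    exact_mod_cast h6
  have hss : 1000000 * (pL n : ℝ) * (s : ℝ) ≤ (n : ℝ) := by
    unfold M1 at hMs
    exact_mod_cast hMs
  have hee : (q : ℝ) * (e : ℝ) ≤ (n : ℝ) := by exact_mod_cast hqe
  have hKr : 60000 * (KH : ℝ) ≤ (q : ℝ) := by
    have h6 : 60000 * KH ≤ q := big_q q (d1 n) hd1 (by omega)
    exact_mod_cast h6
  have hrho : 1 + Real.logb 2 (n : ℝ) ≤ 2 * (pL n : ℝ) := by
    have h6 := logb_le n (pL n) hnL.le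
    have h7 : (1 : ℝ) ≤ (pL n : ℝ) := by exact_mod_cast (by omega : 1 ≤ pL n)
    linarith
  have hlq : 1 + Real.logb 2 (q : ℝ) ≤ 2 * (lam1 n : ℝ) := by
    have h6 := logb_le q (lam1 n) hqm.le
    have h7 : (1 : ℝ) ≤ (lam1 n : ℝ) := by exact_mod_cast (by omega : 1 ≤ lam1 n)
    linarith
  have hfin := LK1_.aux n (pL n) (lam1 n) q KH A.card _ _ _ _ Y.card
    (SCP (IN G (2 * g) A) (PL G g q A (T0s G g q A Y)) (M1 n)).card (T0s G g q A Y).card
    (1 + Real.logb 2 (n : ℝ)) s e ((n / lam1 n ^ 2 : ℕ) : ℝ) x (1 + Real.logb 2 (q : ℝ))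
    (by exact_mod_cast hL) (by exact_mod_cast hm) hKr (Nat.cast_nonneg _)
    (Nat.cast_nonneg _) (Nat.cast_nonneg _) (Nat.cast_nonneg _) (Nat.cast_nonneg _)
    (Nat.cast_nonneg _) (Nat.cast_nonneg _) (Nat.cast_nonneg _) (Nat.cast_nonneg _)
    (Nat.cast_nonneg _) (Nat.cast_nonneg _) (Nat.cast_nonneg _) hAL hE0
    hE1 hE2 hE3 hYL hκ hcard hrho hss hee hkk hxx hlq
  linarith

end Pool.Agent.NRR
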