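import Pool.Agent.NRR.Targets

/-!
# NRR-LVK: all small closed components get a root
-/

set_option autoImplicit false

open Finset Classical

namespace Pool.Agent.NRR

open Pool.Agent Pool.Agent.Lib.Recon Pool.Agent.RNB Pool.Agent.NRC Pool.Agent.NRM
  Pool.Agent.NRP

namespace LVK_

variable {V : Type} [Fintype V]

theorem mem_cl (G : SimpleGraph V) (B : Finset V) (v y : V) :
    y ∈ cl G B v ↔ y ∉ B ∧ ∀ b ∈ B, (G.Adj b v ↔ G.Adj b y) := by
  simp [cl]

theorem cl_mono (G : SimpleGraph V) {B C : Finset V} (h : B ⊆ C) (v : V) :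
    cl G C v ⊆ cl G B v := by
  intro y hy
  rw [mem_cl] at hy ⊢
  exact ⟨fun h1 => hy.1 (h h1), fun b hb => hy.2 b (h hb)⟩

theorem kc_anti (G : SimpleGraph V) {B C : Finset V} (h : B ⊆ C) (v : V) :
    kc G C v ≤ kc G B v :=
  Finset.card_le_card (cl_mono G h v)

theorem one_le_kc (G : SimpleGraph V) {B : Finset V} {v : V} (h : v ∉ B) :
    1 ≤ kc G B v := by
  have h1 : v ∈ cl G B v := by
    rw [mem_cl]
    exact ⟨h, fun b _ => Iff.rfl⟩
  exact Finset.card_pos.2 ⟨v, h1⟩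

theorem mem_PL (G : SimpleGraph V) (g q : ℕ) (A T0 : Finset V) (y : V) :
    y ∈ PL G g q A T0 ↔ y ∈ LA G g q A ∧ y ∉ T0 := by
  simp only [PL, mem_filter]

theorem PL_anti (G : SimpleGraph V) (g q : ℕ) (A : Finset V) {T0 T1 : Finset V}
    (h : T0 ⊆ T1) : PL G g q A T1 ⊆ PL G g q A T0 := by
  intro y hy
  rw [mem_PL] at hy ⊢
  exact ⟨hy.1, fun h1 => hy.2 (h h1)⟩

theorem Co_le {G : SimpleGraph V} {T : Finset V} {c c' : ℝ} (h : Co G T c) (hc : c ≤ c') :
    Co G T c' := by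
  cases h with
  | base h0 => exact Co.base (h0.trans hc)
  | step h1 h2 h3 h4 h5 => exact Co.step h1 h2 h3 h4 (h5.trans hc)

theorem mem_cmp (I : V → Finset V) (P : Finset V) (y z : V) :
    z ∈ NRP.cmp I P y ↔ Relation.ReflTransGen (fun a b => b ∈ P ∧ b ∈ I a) y z := by
  simp [NRP.cmp]

/-- a small closed connected subset is a small closed component -/
theorem Sc_mem (I : V → Finset V) (P P1 : Finset V) (M : ℕ) (Q : Finset V) (hP : P1 ⊆ P)
    (h : Sc I P1 M Q) : Q ∈ SCP I P M := by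
  obtain ⟨hQ, hM, hcl, y0, hy0, hr⟩ := h
  have hE : NRP.cmp I P y0 = Q := by
    ext z
    rw [mem_cmp]
    constructor
    · intro hz
      induction hz with
      | refl => exact hy0
      | tail _ hbc ih => exact hcl _ ih hbc.2
    · intro hz
      have hz' := hr z hz
      clear hz
      induction hz' with
      | refl => exact Relation.ReflTransGen.refl
      | tail _ hbc ih => exact ih.tail ⟨hP (hQ hbc.1), hbc.2⟩
  unfold SCP
  rw [mem_image]
  refine ⟨y0, ?_, hE⟩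
  rw [mem_filter, hE]
  exact ⟨hP (hQ hy0), hM, hcl⟩

/-- the members of `SCP` are nonempty -/
theorem SCP_ne (I : V → Finset V) (P : Finset V) (M : ℕ) (K : Finset V)
    (h : K ∈ SCP I P M) : ∃ y, y ∈ K := by
  unfold SCP at h
  rw [mem_image] at h
  obtain ⟨y, -, rfl⟩ := h
  refine ⟨y, ?_⟩
  rw [mem_cmp]

end LVK_

open LVK_ in
theorem p_LVK (h1 : T_LVY) (h2 : NRP.T_CBN) : T_LVK := by
  intro V _ G g q h M d k A T0 Y ms c ρ hn hd hFar hYT hLv hMk hKH hq hCo hcl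
  have hne : Nonempty V := Fintype.card_pos_iff.1 (by omega)
  set I : V → Finset V := IN G (2 * g) A with hI
  set P : Finset V := PL G g q A T0 with hPdef
  choose! f hf using SCP_ne I P M
  set Q2 : Finset V := (SCP I P M).image f with hQ2
  have hsub : T0 ⊆ T0 ∪ Q2 := Finset.subset_union_left
  have hlog : 0 ≤ 1 + Real.logb 2 (Fintype.card V) := by
    have h3 : 0 ≤ Real.logb 2 (Fintype.card V) :=
      Real.logb_nonneg (by norm_num) (by exact_mod_cast hn)
    linarith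
  have hcard : (((T0 ∪ Q2) \ T0).card : ℝ) ≤ (SCP I P M).card := by
    have h3 : (T0 ∪ Q2) \ T0 ⊆ Q2 := by
      intro x hx
      rw [mem_sdiff, mem_union] at hx
      tauto
    have h4 := (Finset.card_le_card h3).trans Finset.card_image_le
    exact_mod_cast h4
  have hCo1 : Co G (T0 ∪ Q2) (c + (1 + Real.logb 2 (Fintype.card V)) *
      (SCP I P M).card + Ph ms) := by
    refine Co_le (h2 V G T0 (T0 ∪ Q2) (c + Ph ms) hsub hCo) ?_
    have h3 := mul_le_mul_of_nonneg_left hcard hlog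
    linarith
  have hLv1 : Lv G g q h A (T0 ∪ Q2) :=
    ⟨hLv.sub.trans hsub, hLv.g1, hLv.h1, hLv.q1, hLv.q2,
      fun y hy => hLv.ind y (PL_anti G g q A hsub hy)⟩
  have hMk1 : Mk (kc G) (T0 ∪ Q2) ms := fun y hy => (kc_anti G hsub y).trans (hMk y hy)
  have hcl1 : ∀ Q : Finset V, Q ⊆ PL G g q A (T0 ∪ Q2) → M < Q.card →
      (∀ y ∈ Q, IN G (2 * g) A y ⊆ Q) →
      ∃ y ∈ Q, 1 + Real.logb 2 (kc G (T0 ∪ Q2) y) ≤ ρ := by
    intro Q hQ hM hQcl
    obtain ⟨y, hy, h3⟩ := hcl Q (hQ.trans (PL_anti G g q A hsub)) hM hQcl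
    refine ⟨y, hy, le_trans ?_ h3⟩
    have h4 : y ∉ T0 ∪ Q2 := ((mem_PL G g q A _ y).1 (hQ hy)).2
    have h5 := one_le_kc G h4
    have h6 := kc_anti G hsub y
    have h7 : Real.logb 2 (kc G (T0 ∪ Q2) y) ≤ Real.logb 2 (kc G T0 y) :=
      Real.logb_le_logb_of_le (by norm_num) (by exact_mod_cast h5) (by exact_mod_cast h6)
    linarith
  rcases h1 V G g q h M d k A (T0 ∪ Q2) Y ms
    (c + (1 + Real.logb 2 (Fintype.card V)) * (SCP I P M).card) ρ hn hd hFar
    (hYT.trans hsub) hLv1 hMk1 hKH (fun y hy => hq y (PL_anti G g q A hsub hy)) hCo1 hcl1 with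
    h3 | h3
  · exfalso
    obtain ⟨Q, hQ⟩ := h3
    have h4 : Q ∈ SCP I P M := Sc_mem I P _ M Q (PL_anti G g q A hsub) hQ
    have h5 : f Q ∈ Q := hf Q h4
    have h6 := hQ.1 h5
    rw [mem_PL] at h6
    exact h6.2 (mem_union_right _ (mem_image_of_mem f h4))
  · obtain ⟨T', ms', s, x, e, h4, h5, h6, h7, h8, h9, h10, h11, h12⟩ := h3
    exact ⟨T0 ∪ Q2, T', ms', s, x, e, hsub, h4, h5, h6, h7, h8, h9, h10, hLv1, h11, h12⟩

end Pool.Agent.NRR
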