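import Pool.Agent.NRR.Targets
import Pool.Agent.NRP.P_LVS
import Pool.Agent.NRM.P_ELM

/-!
# NRR, target LVY: one level with an exceptional set (edit of `NRP/P_LVS.lean`)
-/

set_option autoImplicit false

open Finset Classical

namespace Pool.Agent.NRR

open Pool.Agent Pool.Agent.Lib.Recon Pool.Agent.RNB Pool.Agent.NRC Pool.Agent.NRM
  Pool.Agent.NRP

open Pool.Agent.NRP.LVS_ in
theorem p_LVY (h1 : NRP.T_LEV) (h2 : NRP.T_SLR) (h3 : NRP.T_NRD) (h4 : NRP.T_RMK) : T_LVY := by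
  intro V _ G g q h M d k A T0 Y ms c ρ hn hdn hFar hYT hLv hMk hms hq hCo hcl
  obtain ⟨R0, X, hR0, hX, hs1, hs2⟩ := h2 V G g q h d k A T0 hn hdn hLv
  rcases h1 V G g q h M A T0 (R0 ∪ X) ms c ρ hLv hMk hq hCo hcl with
    hS | ⟨T', ms', s, hT, hR, hs, hMk', hNw, hCz, hCo'⟩
  · exact Or.inl hS
  obtain ⟨ms'', hMk'', hms'', hPh⟩ := h4 V (kc G) (IN G (2 * g) A) (PL G g q A T0) T' ms ms' KH
    kh_pos hms hNw hMk'
  refine Or.inr ⟨T', ms'', s, X.card,
    ((PL G g q A T0).filter (fun x => (IN G (2 * g) A x).card < KH)).card, hT,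
    h3 V G g q d A T0 R0 X T' hLv.sub hT (subset_union_left.trans hR)
      (subset_union_right.trans hR) hs1 hs2, hs, ?_, hX, hMk'', hms'', hCz, ?_⟩
  · refine le_trans (Nat.mul_le_mul_left q (Finset.card_le_card ?_))
      (NRM.p_ELM V G g q KK A Y hFar)
    intro x hx
    rw [mem_filter] at hx ⊢
    obtain ⟨hx1, hx2⟩ := hx
    unfold PL at hx1
    rw [mem_filter] at hx1
    refine ⟨mem_sdiff.2 ⟨hx1.1, fun hxY => hx1.2 (hYT hxY)⟩, ?_⟩
    rw [kk_eq]
    omega
  · refine co_mono hCo' ?_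
    have e1 : ((R0 ∪ X).card : ℝ) ≤ k + X.card := by
      have e2 : (R0 ∪ X).card ≤ k + X.card :=
        (Finset.card_union_le _ _).trans (Nat.add_le_add_right hR0 _)
      exact_mod_cast e2
    have e3 : (0 : ℝ) ≤ 4 * (1 + Real.logb 2 q) := by
      have hq1 : 1 ≤ q := by
        have := hLv.q1
        omega
      have : 0 ≤ Real.logb 2 (q : ℝ) :=
        Real.logb_nonneg (by norm_num) (by exact_mod_cast hq1)
      linarith
    have e4 := mul_le_mul_of_nonneg_left e1 e3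
    linarith

end Pool.Agent.NRR
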