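import Pool.Agent.NRR.Targets

/-!
# NRR-MCZ: the code of many removed vertices
-/

set_option autoImplicit false

open Finset Classical

namespace Pool.Agent.NRR

open Pool.Agent Pool.Agent.Lib.Recon Pool.Agent.RNB Pool.Agent.NRC Pool.Agent.NRM
  Pool.Agent.NRP

namespace MCZ_

variable {V : Type} [Fintype V]

theorem mem_cl' {G : SimpleGraph V} {B : Finset V} {v y : V} :
    y ∈ cl G B v ↔ y ∉ B ∧ ∀ b ∈ B, (G.Adj b v ↔ G.Adj b y) := by
  unfold cl
  rw [mem_filter]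
  exact ⟨fun h => h.2, fun h => ⟨mem_univ _, h⟩⟩

/-- outside the set of the differences the adjacencies agree -/
theorem not_dset {G : SimpleGraph V} {z u v : V} (h1 : z ≠ u) (h2 : z ≠ v)
    (h : z ∉ dset G u v) : (G.Adj z u ↔ G.Adj z v) := by
  by_contra h3
  exact h (mem_dset.2 ⟨h1, h2, h3⟩)

end MCZ_

open MCZ_ in
/-- MCZ. -/
theorem p_MCZ (h1 : T_CDZ) : T_MCZ := by
  intro V _ G g h q q2 d e s A T Z u W hg he hgq hq2 hBs hR hNr hZT hN hs hall
  have hAT : A ∪ EE G g A ⊆ T := hBs.1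
  have hne : ∀ v ∈ Z, ∀ z, z ∉ Z → z ≠ v := fun v hv z hz h2 => hz (h2 ▸ hv)
  have hw : ∀ v, ∃ w, v ∈ Z → w ∉ Z ∧ ∀ z ∈ dset G (u v) v, z ∉ Z →
      z ∈ RSz G g h q2 d A Z s w ∪ RSz G g h q2 d A Z s (u v) := by
    intro v
    by_cases hv : v ∈ Z
    · obtain ⟨a1, a2, a3, a4, a5, -⟩ := hall v hv
      obtain ⟨w, b1, b2⟩ := h1 V G g h q q2 d e s A T Z (W v) (u v) v hg he hgq hq2 hBs hR
        hNr hZT hN hs hv a1 a2 a3 a4 a5
      exact ⟨w, fun _ => ⟨b1, b2⟩⟩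
    · exact ⟨v, fun h2 => absurd h2 hv⟩
  choose w hw using hw
  refine ⟨fun v hv hA => hZT v hv (hAT (mem_union_left _ hA)), w, u,
    fun v => decide (G.Adj (u v) v), fun v => dset G (u v) v \ Z, fun v hv => ?_⟩
  obtain ⟨-, -, -, a4, a5, a6⟩ := hall v hv
  obtain ⟨c1, c2⟩ := mem_cl'.1 a5
  have huv : u v ≠ v := hne v hv _ a4
  have huT : u v ∉ T := fun h2 => c1 (mem_union_left _ h2)
  have hadj : ∀ a ∈ T, (G.Adj a (u v) ↔ G.Adj a v) := fun a ha =>
    (c2 a (mem_union_left _ ha)).symm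
  refine ⟨(hw v hv).1, a4, ?_, ?_, ?_, ?_⟩
  · exact (card_le_card sdiff_subset).trans (hNr (u v) v huT (hZT v hv) huv hadj).le
  · intro z hz
    obtain ⟨z1, z2⟩ := mem_sdiff.1 hz
    exact (hw v hv).2 z z1 z2
  · intro z hz
    by_cases hzu : z = u v
    · rw [if_pos hzu, decide_eq_true_iff, hzu]
    · rw [if_neg hzu]
      by_cases hzd : z ∈ dset G (u v) v
      · rw [if_pos (mem_sdiff.2 ⟨hzd, hz⟩)]
        have h2 := (mem_dset.1 hzd).2.2
        tauto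
      · rw [if_neg fun h2 => hzd (mem_sdiff.1 h2).1]
        exact (not_dset hzu (hne v hv z hz) hzd).symm
  · intro v' hv' hvv
    obtain ⟨d1, d2, d3⟩ := a6 v' hv' hvv
    have e1 := not_dset (hne v' hv' _ a4).symm hvv d1
    have e2 := not_dset d3 (hne v' hv' _ a4) d2
    rw [← e1, G.adj_comm v' (u v), ← e2, G.adj_comm (u v) (u v')]

end Pool.Agent.NRR
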