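import Pool.Agent.NRR.Targets

/-!
# NRR, target NAZ: arrows with respect to `T` are hinted in the graph without `Z`
-/

set_option autoImplicit false

open Finset Classical

namespace Pool.Agent.NRR

open Pool.Agent Pool.Agent.Lib.Recon Pool.Agent.RNB Pool.Agent.NRC Pool.Agent.NRM
  Pool.Agent.NRP

namespace NAZ_

variable {V : Type} [Fintype V]

theorem mem_cl {G : SimpleGraph V} {B : Finset V} {v y : V} :
    y ∈ cl G B v ↔ y ∉ B ∧ ∀ b ∈ B, (G.Adj b v ↔ G.Adj b y) := by
  simp [cl]

theorem cl_anti {G : SimpleGraph V} {B C : Finset V} (h : B ⊆ C) (v : V) :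
    cl G C v ⊆ cl G B v := by
  intro x hx
  rw [mem_cl] at hx ⊢
  exact ⟨fun h1 => hx.1 (h h1), fun b hb => hx.2 b (h hb)⟩

theorem cl_eq {G : SimpleGraph V} {B : Finset V} {v w : V} (h : w ∈ cl G B v) :
    cl G B w = cl G B v := by
  have h' := (mem_cl.1 h).2
  ext x
  rw [mem_cl, mem_cl]
  constructor
  · rintro ⟨h1, h2⟩
    exact ⟨h1, fun b hb => (h' b hb).trans (h2 b hb)⟩
  · rintro ⟨h1, h2⟩
    exact ⟨h1, fun b hb => (h' b hb).symm.trans (h2 b hb)⟩

theorem sz_le {G : SimpleGraph V} {A Z : Finset V} (z y : V) :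
    (sz G A Z z y).card ≤ (cl G (insert z A) y).card :=
  card_le_card sdiff_subset

/-- the partner of `a` -/
theorem partner {G : SimpleGraph V} {e : ℕ} {T Z : Finset V} {a b : V}
    (h8 : 2 * e + 1 < (cl G T a \ Z).card) (hb : (cl G (insert b T) a).card ≤ 2 * e) :
    ∃ a' ∈ cl G T a, a' ∉ Z ∧ a' ≠ b ∧ ¬ (G.Adj b a ↔ G.Adj b a') := by
  by_contra hcon
  push Not at hcon
  have hsub : cl G T a \ Z ⊆ cl G (insert b T) a ∪ {b} := by
    intro x hx
    rw [mem_sdiff] at hx
    obtain ⟨hx, hxZ⟩ := hx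
    rw [mem_union, mem_singleton]
    by_cases h1 : x = b
    · exact Or.inr h1
    refine Or.inl ?_
    have h3 := hcon x hx hxZ h1
    rw [mem_cl] at hx ⊢
    refine ⟨fun h => ?_, fun c hc => ?_⟩
    · rcases mem_insert.1 h with h | h
      · exact h1 h
      · exact hx.1 h
    · rcases mem_insert.1 hc with rfl | hc
      · exact h3
      · exact hx.2 c hc
  have h1 := card_le_card hsub
  have h2 := card_union_le (cl G (insert b T) a) {b}
  rw [card_singleton] at h2
  omega

theorem EEz_sub {G : SimpleGraph V} {g : ℕ} {A Z : Finset V} : EEz G g A Z ⊆ EE G g A := by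
  intro z hz
  rw [EEz, mem_filter] at hz
  obtain ⟨-, hzA, -, y, y', h1, h2, -, h4, -, h6, h7, h8, h9⟩ := hz
  rw [EE, mem_filter]
  exact ⟨mem_univ _, hzA, y, y', h1, h2, h4, h6, h7, h8.trans_le (sz_le z y),
    h9.trans_le (sz_le z y')⟩

theorem EE_mono {G : SimpleGraph V} {g k : ℕ} {A : Finset V} (h : g ≤ k) :
    EE G k A ⊆ EE G g A := by
  intro z hz
  rw [EE, mem_filter] at hz ⊢
  obtain ⟨hu, hzA, y, y', h1, h2, h4, h6, h7, h8, h9⟩ := hz
  exact ⟨hu, hzA, y, y', h1, h2, h4, h6, h7, h.trans_lt h8, h.trans_lt h9⟩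

theorem sub_EEz {G : SimpleGraph V} {g : ℕ} {A T Z : Finset V} (hE : EE G g A ⊆ T)
    (hZT : ∀ v ∈ Z, v ∉ T) (hNc : Ncz G g A Z) : EE G (2 * g) A ⊆ EEz G g A Z := by
  intro z hz
  have hzT : z ∈ T := hE (EE_mono (by omega) hz)
  rw [EE, mem_filter] at hz
  obtain ⟨hu, hzA, y, y', h1, h2, h4, h6, h7, h8, h9⟩ := hz
  have hy'A : y' ∉ A := (mem_cl.1 h6).1
  have g1 := (hNc z y hzA h1 h2).1 h8
  have g2 := (hNc z y' hzA hy'A h4).1 h9
  obtain ⟨w, hw⟩ : (sz G A Z z y).Nonempty := card_pos.1 (by omega)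
  obtain ⟨w', hw'⟩ : (sz G A Z z y').Nonempty := card_pos.1 (by omega)
  unfold sz at hw hw'
  rw [mem_sdiff] at hw hw'
  obtain ⟨hw, hwZ⟩ := hw
  obtain ⟨hw', hwZ'⟩ := hw'
  have e1 : sz G A Z z w = sz G A Z z y := by
    unfold sz
    rw [cl_eq hw]
  have e2 : sz G A Z z w' = sz G A Z z y' := by
    unfold sz
    rw [cl_eq hw']
  obtain ⟨k1, k2⟩ := mem_cl.1 hw
  obtain ⟨k1', k2'⟩ := mem_cl.1 hw'
  have a1 := k2 z (mem_insert_self z A)
  have a2 := k2' z (mem_insert_self z A)
  rw [EEz, mem_filter]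
  refine ⟨mem_univ _, hzA, fun h => hZT z h hzT, w, w', fun h => k1 (mem_insert_of_mem h),
    fun h => k1 (by rw [h]; exact mem_insert_self z A), hwZ,
    fun h => k1' (by rw [h]; exact mem_insert_self z A), hwZ', ?_, ?_, ?_, ?_⟩
  · rw [mem_cl]
    refine ⟨fun h => k1' (mem_insert_of_mem h), fun c hc => ?_⟩
    have b1 := k2 c (mem_insert_of_mem hc)
    have b2 := k2' c (mem_insert_of_mem hc)
    have b3 := (mem_cl.1 h6).2 c hc
    exact b1.symm.trans (b3.trans b2)
  · tauto
  · rw [e1]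
    exact g1
  · rw [e2]
    exact g2

end NAZ_

open NAZ_ in
theorem p_NAZ : T_NAZ := by
  intro V _ G g h q q2 d e A T Z a b hg he hq4 hqq hBs hR hN hZT hNc ha haZ hbZ hbT hbig hb
  rw [IN, mem_filter] at hb
  obtain ⟨-, -, hba, hbc⟩ := hb
  obtain ⟨a', ha'Q, ha'Z, ha'b, hadj⟩ := partner hbig hbc
  obtain ⟨hAE, hZ⟩ := hBs
  have hA : A ⊆ T := (subset_union_left).trans hAE
  have hE : EE G g A ⊆ T := (subset_union_right).trans hAE
  have haA : a ∉ A := fun hh => ha (hA hh)
  obtain ⟨ha'T, ha'adj⟩ := mem_cl.1 ha'Q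
  have hbd : b ∈ dset G a a' := by
    rw [dset, mem_filter]
    exact ⟨mem_univ _, hba, fun hh => ha'b hh.symm, hadj⟩
  have haa' : a ≠ a' := by
    rintro rfl
    exact hadj Iff.rfl
  have hd : (dset G a a' \ Z).card ≤ d :=
    (card_le_card sdiff_subset).trans (hN a a' ha ha'T haa' ha'adj).le
  have hrcz : a' ∈ rcz G g A Z a := by
    rw [rcz, mem_sdiff]
    refine ⟨cl_anti ?_ a ha'Q, ha'Z⟩
    exact union_subset hA (EEz_sub.trans hE)
  refine ⟨hbZ, ?_⟩
  by_cases h4 : (cl G A a).card ≤ 16 * g + 6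
  · right
    refine ⟨?_, a', hrcz, hd, hbd⟩
    refine (card_le_card ?_).trans (h4.trans hq4)
    exact sdiff_subset.trans (cl_anti subset_union_left a)
  rw [not_le] at h4
  have hinz : (inz G (4 * g) A Z a).card ≤ h := by
    have h1 : inz G (4 * g) A Z a ⊆ ZZ G A a := by
      intro z hz
      rw [inz, mem_filter] at hz
      obtain ⟨-, hzA, hzZ, hza, hzc⟩ := hz
      rw [ZZ, mem_filter, SS, mem_filter]
      have h2 := (hNc z a hzA haA fun hh => hza hh.symm).2 hzc
      exact ⟨mem_univ _, hzA, mem_univ _, haA, fun hh => hza hh.symm, by omega⟩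
    refine (card_le_card h1).trans ?_
    by_contra hh
    exact ha (hZ a (not_le.1 hh))
  by_cases h2 : ∃ t ∈ T, t ∉ A ∧ (sz G A Z t a).card ≤ 4 * g
  · obtain ⟨t, htT, htA, htc⟩ := h2
    left
    refine ⟨hinz, Or.inr ⟨t, ?_, a', ?_, hd, hbd⟩⟩
    · rw [inz, mem_filter]
      exact ⟨mem_univ _, htA, fun hh => hZT t hh htT, fun hh => ha (hh ▸ htT), htc⟩
    · rw [sz, mem_sdiff]
      exact ⟨cl_anti (insert_subset htT hA) a ha'Q, ha'Z⟩
  push Not at h2
  have hE2 : EE G (2 * g) A ⊆ T := (EE_mono (by omega)).trans hE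
  by_cases h3 : a ∈ LA G (2 * g) q A
  · -- the class of `a` is rich
    have hno : ∀ t ∈ T, t ∉ IN G (2 * (2 * g)) A a := by
      intro t ht hin
      rw [IN, mem_filter] at hin
      obtain ⟨-, htA, hta, htc⟩ := hin
      have h6 := sz_le (G := G) (A := A) (Z := Z) t a
      have h7 := h2 t ht htA
      omega
    have hrich := hR a ha h3 hno
    by_cases hbin : (cl G (insert b A) a).card ≤ 4 * g
    · left
      refine ⟨hinz, Or.inl ?_⟩
      have h6 := sz_le (G := G) (A := A) (Z := Z) b a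
      rw [inz, mem_filter]
      exact ⟨mem_univ _, fun hh => hbT (hA hh), hbZ, hba, by omega⟩
    · exfalso
      rw [not_le] at hbin
      have hbA : b ∉ A := fun hh => hbT (hA hh)
      obtain ⟨O, hO⟩ : ∃ O : Finset V, O = (cl G A a).filter
        (fun x => x ≠ b ∧ ¬ (G.Adj b a ↔ G.Adj b x)) := ⟨_, rfl⟩
      have hOg : O.card ≤ 2 * g := by
        by_contra hO1
        rw [not_le] at hO1
        obtain ⟨x0, hx0⟩ : O.Nonempty := Finset.card_pos.1 (by omega)
        rw [hO, mem_filter] at hx0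
        have hsub : O ⊆ cl G (insert b A) x0 := by
          intro w hw
          rw [hO, mem_filter] at hw
          have h5 := mem_cl.1 hx0.1
          have h6 := mem_cl.1 hw.1
          rw [mem_cl]
          refine ⟨fun hh => ?_, fun c hc => ?_⟩
          · rcases mem_insert.1 hh with hh | hh
            · exact hw.2.1 hh
            · exact h6.1 hh
          · rcases mem_insert.1 hc with rfl | hc
            · have h7 := hx0.2.2
              have h8 := hw.2.2
              tauto
            · exact (h5.2 c hc).symm.trans (h6.2 c hc)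
        have hc := Finset.card_le_card hsub
        refine hbT (hE2 ?_)
        rw [EE, mem_filter]
        exact ⟨mem_univ _, hbA, a, x0, haA, fun hh => hba hh.symm, hx0.2.1, hx0.1, hx0.2.2,
          by omega, lt_of_lt_of_le hO1 hc⟩
      have hcov : cl G T a ⊆ (cl G (insert b T) a ∪ {b}) ∪ O := by
        intro w hw
        rw [mem_union, mem_union, mem_singleton]
        by_cases h5 : w = b
        · exact Or.inl (Or.inr h5)
        by_cases h6 : (G.Adj b a ↔ G.Adj b w)
        · refine Or.inl (Or.inl ?_)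
          rw [mem_cl] at hw ⊢
          refine ⟨fun hh => ?_, fun c hc => ?_⟩
          · rcases mem_insert.1 hh with hh | hh
            · exact h5 hh
            · exact hw.1 hh
          · rcases mem_insert.1 hc with rfl | hc
            · exact h6
            · exact hw.2 c hc
        · refine Or.inr ?_
          rw [hO, mem_filter]
          exact ⟨cl_anti hA a hw, h5, h6⟩
      have h5 := card_le_card hcov
      have h6 := card_union_le (cl G (insert b T) a ∪ {b}) O
      have h7 := card_union_le (cl G (insert b T) a) {b}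
      rw [card_singleton] at h7
      omega
  · right
    have haE : a ∉ A ∪ EE G (2 * g) A := fun hh => ha (union_subset hA hE2 hh)
    have hsm : (cl G (A ∪ EE G (2 * g) A) a).card ≤ q := by
      by_contra hh
      refine h3 ?_
      rw [LA, mem_filter]
      exact ⟨mem_univ _, haE, not_le.1 hh⟩
    refine ⟨?_, a', hrcz, hd, hbd⟩
    refine (card_le_card ?_).trans (hsm.trans hqq)
    exact sdiff_subset.trans (cl_anti (union_subset_union (Subset.refl A)
      (sub_EEz hE hZT hNc)) a)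

end Pool.Agent.NRR
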