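import Pool.Agent.NRR.Targets
import Pool.Agent.NRP.P_NBQ

/-!
# NRR: NBR, numbers (helper17)
-/

set_option autoImplicit false

open Finset Classical

namespace Pool.Agent.NRR

open Pool.Agent.NRC Pool.Agent.NRP
open Pool.Agent.NRP.NBQ_ (two_pow_mono exists_l0 bounds)

namespace NBR_

/-- the number of codes of the second kind -/
theorem codes (n : ℕ) : (2 * (pg n + pg n * (4 * pg n) * d1 n + q2 n * d1 n + 1) ^ (M2 n) + 1) ^
    (d1 n) ≤ 2 ^ (4400000 * pl n ^ 7) := by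
  have hl1 : 1 ≤ pl n := by
    unfold pl
    omega
  obtain ⟨hg, hq, hd, hd2⟩ := bounds n
  unfold M2
  generalize pl n = l at *
  have hD : pg n + pg n * (4 * pg n) * d1 n + q2 n * d1 n + 1 ≤ 2 ^ (42 * l) := by
    have e1 : pg n ≤ 2 ^ (40 * l) := hg.trans (two_pow_mono (by omega))
    have e2 : pg n * (4 * pg n) * d1 n ≤ 2 ^ (40 * l) := by
      calc pg n * (4 * pg n) * d1 n ≤ 2 ^ (8 * l) * (4 * 2 ^ (8 * l)) * 2 ^ (20 * l) := by
            gcongr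
        _ = 2 ^ (8 * l + 8 * l + 20 * l + 2) := by
            rw [pow_add, pow_add, pow_add]
            ring
        _ ≤ 2 ^ (40 * l) := two_pow_mono (by omega)
    have e3 : q2 n * d1 n ≤ 2 ^ (40 * l) := by
      calc q2 n * d1 n ≤ 2 ^ (18 * l) * 2 ^ (20 * l) := by gcongr
        _ = 2 ^ (18 * l + 20 * l) := by rw [pow_add]
        _ ≤ 2 ^ (40 * l) := two_pow_mono (by omega)
    have e4 : 1 ≤ 2 ^ (40 * l) := Nat.one_le_two_pow
    calc _ ≤ 4 * 2 ^ (40 * l) := by omega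
      _ = 2 ^ (40 * l + 2) := by ring
      _ ≤ 2 ^ (42 * l) := two_pow_mono (by omega)
  have h3 : 1 ≤ l ^ 4 := Nat.one_le_pow _ _ hl1
  have hE : 2 * (pg n + pg n * (4 * pg n) * d1 n + q2 n * d1 n + 1) ^ (l ^ 3) + 1 ≤
      2 ^ (44 * l ^ 4) := by
    have e1 : (pg n + pg n * (4 * pg n) * d1 n + q2 n * d1 n + 1) ^ (l ^ 3) ≤
        2 ^ (42 * l ^ 4) := by
      calc _ ≤ (2 ^ (42 * l)) ^ (l ^ 3) := Nat.pow_le_pow_left hD _
        _ = 2 ^ (42 * l ^ 4) := by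
            rw [← pow_mul]
            congr 1
            ring
    have e2 : 1 ≤ 2 ^ (42 * l ^ 4) := Nat.one_le_two_pow
    calc _ ≤ 4 * 2 ^ (42 * l ^ 4) := by omega
      _ = 2 ^ (42 * l ^ 4 + 2) := by ring
      _ ≤ 2 ^ (44 * l ^ 4) := two_pow_mono (by omega)
  calc _ ≤ (2 ^ (44 * l ^ 4)) ^ d1 n := Nat.pow_le_pow_left hE _
    _ = 2 ^ (44 * l ^ 4 * d1 n) := by rw [← pow_mul]
    _ ≤ 2 ^ (4400000 * l ^ 7) := by
        refine two_pow_mono ?_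
        calc 44 * l ^ 4 * d1 n ≤ 44 * l ^ 4 * (100000 * l ^ 3) := Nat.mul_le_mul_left _ hd
          _ = 4400000 * l ^ 7 := by ring

/-- the two terms -/
theorem fin (n L b : ℕ) (hL : 1 ≤ L) (hn : n ≤ 2 ^ L) :
    2 * n ^ 3 * 2 ^ (b * L) + 2 * n ^ 2 * 2 ^ L ≤ 2 ^ ((b + 5) * L) := by
  have h1 : 2 * n ^ 3 * 2 ^ (b * L) ≤ 2 ^ (b * L + 3 * L + 1) := by
    calc 2 * n ^ 3 * 2 ^ (b * L) ≤ 2 * (2 ^ L) ^ 3 * 2 ^ (b * L) := by gcongr
      _ = 2 ^ (b * L + 3 * L + 1) := by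
          rw [← pow_mul, mul_comm L 3, pow_add, pow_add]
          ring
  have h2 : 2 * n ^ 2 * 2 ^ L ≤ 2 ^ (b * L + 3 * L + 1) := by
    calc 2 * n ^ 2 * 2 ^ L ≤ 2 * (2 ^ L) ^ 2 * 2 ^ L := by gcongr
      _ = 2 ^ (3 * L + 1) := by
          rw [← pow_mul, mul_comm L 2, show 3 * L + 1 = 2 * L + L + 1 by ring, pow_add, pow_add]
          ring
      _ ≤ 2 ^ (b * L + 3 * L + 1) := two_pow_mono (by omega)
  calc _ ≤ 2 ^ (b * L + 3 * L + 1) + 2 ^ (b * L + 3 * L + 1) := Nat.add_le_add h1 h2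
    _ = 2 ^ (b * L + 3 * L + 2) := by ring
    _ ≤ 2 ^ ((b + 5) * L) := two_pow_mono (by
        have : (b + 5) * L = b * L + 5 * L := by ring
        omega)

end NBR_

open NBR_ in
theorem p_NBR : T_NBR := by
  obtain ⟨l0, hl0⟩ := exists_l0
  refine ⟨1000000 + 5, 2 ^ (2 ^ l0), fun n hn => ?_⟩
  have hn2 : 2 ≤ n := by
    calc 2 = 2 ^ 1 := (pow_one 2).symm
      _ ≤ 2 ^ (2 ^ l0) := two_pow_mono Nat.one_le_two_pow
      _ ≤ n := hn
  have hlog : 2 ^ l0 ≤ Nat.log 2 n := by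
    have h1 := Nat.log_mono_right (b := 2) hn
    rwa [Nat.log_pow (by norm_num)] at h1
  have hL : 2 ^ l0 ≤ pL n := by
    unfold pL
    omega
  have hl : l0 ≤ pl n := by
    unfold pl
    have h1 := Nat.log_mono_right (b := 2) hL
    rw [Nat.log_pow (by norm_num)] at h1
    omega
  have h2 := hl0 _ hl
  have h3 : 2 ^ pl n ≤ 2 * pL n := by
    unfold pl
    rw [pow_succ]
    have h4 := Nat.pow_log_le_self 2 (show pL n ≠ 0 by unfold pL; omega)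
    omega
  have h4 : 4400000 * pl n ^ 7 ≤ pL n := by omega
  have h5 : n ≤ 2 ^ pL n := by
    unfold pL
    exact (Nat.lt_pow_succ_log_self (by norm_num) _).le
  have h6 : (2 * (pg n + pg n * (4 * pg n) * d1 n + q2 n * d1 n + 1) ^ (M2 n) + 1) ^ (d1 n) ≤
      2 ^ pL n := (codes n).trans (two_pow_mono h4)
  unfold XR M1
  calc _ ≤ 2 * n ^ 3 * 2 ^ (1000000 * pL n) + 2 * n ^ 2 * 2 ^ pL n := by gcongr
    _ ≤ _ := fin n (pL n) _ (by unfold pL; omega) h5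

end Pool.Agent.NRR
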