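import Pool.Agent.NRR.Targets

/-!
# NRR, block NCP: vertices of the small closed components which are not cut vertices
-/

set_option autoImplicit false

open Finset Classical

namespace Pool.Agent.NRR

open Pool.Agent Pool.Agent.Lib.Recon Pool.Agent.RNB Pool.Agent.NRC Pool.Agent.NRM
  Pool.Agent.NRP

namespace NCP_

variable {V : Type} [Fintype V]

theorem mem_cmp {I : V → Finset V} {P : Finset V} {y z : V} :
    z ∈ cmp I P y ↔ Relation.ReflTransGen (fun a b => b ∈ P ∧ b ∈ I a) y z := by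
  simp [NRP.cmp]

theorem self_mem {I : V → Finset V} {P : Finset V} {y : V} : y ∈ cmp I P y :=
  mem_cmp.2 Relation.ReflTransGen.refl

theorem reach {I : V → Finset V} {P : Finset V} {y z : V} (hy : y ∈ P)
    (h : Relation.ReflTransGen (fun a b => b ∈ P ∧ b ∈ I a) y z) : z ∈ P := by
  induction h with
  | refl => exact hy
  | tail _ h _ => exact h.1

theorem rev {I : V → Finset V} {P : Finset V}
    (hI : ∀ y ∈ P, ∀ z ∈ P, z ∈ I y → y ∈ I z) {y z : V} (hy : y ∈ P)
    (h : Relation.ReflTransGen (fun a b => b ∈ P ∧ b ∈ I a) y z) :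
    Relation.ReflTransGen (fun a b => b ∈ P ∧ b ∈ I a) z y := by
  induction h with
  | refl => exact Relation.ReflTransGen.refl
  | tail h1 h2 ih =>
    have hb := reach hy h1
    exact Relation.ReflTransGen.head ⟨hb, hI _ hb _ h2.1 h2.2⟩ ih

theorem cmp_eq {I : V → Finset V} {P : Finset V}
    (hI : ∀ y ∈ P, ∀ z ∈ P, z ∈ I y → y ∈ I z) {y z : V} (hy : y ∈ P) (hz : z ∈ cmp I P y) :
    cmp I P z = cmp I P y := by
  have h1 := mem_cmp.1 hz
  ext a
  rw [mem_cmp, mem_cmp]
  exact ⟨fun h => h1.trans h, fun h => (rev hI hy h1).trans h⟩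

/-- every element of a component is reached inside the component -/
theorem inside {I : V → Finset V} {P : Finset V} {y z : V}
    (h : Relation.ReflTransGen (fun a b => b ∈ P ∧ b ∈ I a) y z) :
    Relation.ReflTransGen (fun a b => b ∈ cmp I P y ∧ b ∈ I a) y z := by
  induction h with
  | refl => exact Relation.ReflTransGen.refl
  | tail h1 h2 ih => exact ih.tail ⟨mem_cmp.2 (h1.tail h2), h2.2⟩

end NCP_

open NCP_ in
theorem p_NCP (h1 : NRC.T_NCV) : T_NCP := by
  intro V _ I P M hI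
  have key : ∀ K ∈ SCP I P M, ∃ v ∈ K, K ⊆ P ∧ cmp I P v = K ∧ Atz I M K v := by
    intro K hK
    obtain ⟨y, hy, rfl⟩ := mem_image.1 hK
    obtain ⟨hyP, hcard, hcl⟩ := mem_filter.1 hy
    have hsub : cmp I P y ⊆ P := fun z hz => reach hyP (mem_cmp.1 hz)
    rcases Nat.lt_or_ge (cmp I P y).card 2 with h2 | h2
    · have h3 : (cmp I P y).card = 1 := by
        have : 0 < (cmp I P y).card := card_pos.2 ⟨y, self_mem⟩
        omega
      obtain ⟨v, hv⟩ := card_eq_one.1 h3
      have hyv : y = v := by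
        have : y ∈ cmp I P y := self_mem
        rw [hv] at this
        exact mem_singleton.1 this
      refine ⟨y, self_mem, hsub, rfl, hcl, hcard, self_mem, Or.inl ?_⟩
      rw [hv, hyv]
    · obtain ⟨v, hv, w, hw, hwv, hr⟩ := h1 V (fun a b => b ∈ I a) (cmp I P y) y self_mem h2
        fun z hz => inside (mem_cmp.1 hz)
      exact ⟨v, hv, hsub, cmp_eq hI hyP hv, hcl, hcard, hv, Or.inr ⟨w, hw, hwv, hr⟩⟩
  rcases isEmpty_or_nonempty V with hV | hV
  · refine ⟨∅, fun _ => ∅, ?_, by simp⟩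
    have hP : P = ∅ := Finset.eq_empty_of_isEmpty P
    subst hP
    simp [SCP]
  choose! f hf1 hf2 hf3 hf4 using key
  refine ⟨(SCP I P M).image f, cmp I P, ?_, ?_⟩
  · refine card_image_of_injOn ?_
    intro K hK K' hK' h
    have e1 := hf3 K hK
    have e2 := hf3 K' hK'
    have h' : f K = f K' := h
    rw [← e1, ← e2, h']
  · intro v hv
    obtain ⟨K, hK, rfl⟩ := mem_image.1 hv
    rw [hf3 K hK]
    refine ⟨hf2 K hK, hf4 K hK, ?_⟩
    intro v' hv' hm
    obtain ⟨K', hK', rfl⟩ := mem_image.1 hv'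
    have hP : f K ∈ P := hf2 K hK (hf1 K hK)
    have e : cmp I P (f K') = cmp I P (f K) := cmp_eq hI hP (by rw [hf3 K hK]; exact hm)
    rw [hf3 K hK, hf3 K' hK'] at e
    rw [e]

end Pool.Agent.NRR
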