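import Pool.Agent.NRR.Targets

/-!
# NRR: proof of the target NIZ
-/

set_option autoImplicit false

open Finset Classical

namespace Pool.Agent.NRR

open Pool.Agent Pool.Agent.Lib.Recon Pool.Agent.RNB Pool.Agent.NRC Pool.Agent.NRM
  Pool.Agent.NRP

namespace NIZ_

variable {V : Type} [Fintype V]

/-- `k` disjoint subsets -/
theorem parts (g : ℕ) : ∀ (k : ℕ) (S : Finset V), k * (2 * g + 1) ≤ S.card →
    ∃ F : Finset (Finset V), F.card ≤ k ∧ (∀ T ∈ F, 2 * g < T.card) ∧
      ∀ Z : Finset V, (∀ T ∈ F, g < (T \ Z).card) → k * (g + 1) ≤ (S \ Z).card := by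
  intro k
  induction k with
  | zero =>
    intro S _
    exact ⟨∅, by simp, by simp, by simp⟩
  | succ k ih =>
    intro S hS
    have h1 : 2 * g + 1 ≤ S.card := by nlinarith
    obtain ⟨T, hTS, hT⟩ := Finset.exists_subset_card_eq h1
    have h2 : (S \ T).card = S.card - T.card := Finset.card_sdiff_of_subset hTS
    have h3 : k * (2 * g + 1) ≤ (S \ T).card := by
      rw [h2, hT]
      have : (k + 1) * (2 * g + 1) = k * (2 * g + 1) + (2 * g + 1) := by ring
      omega
    obtain ⟨F, hF, hF1, hF2⟩ := ih (S \ T) h3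
    refine ⟨insert T F, (Finset.card_insert_le _ _).trans (by omega), ?_, ?_⟩
    · intro T' hT'
      rcases Finset.mem_insert.1 hT' with h | h
      · rw [h, hT]
        omega
      · exact hF1 T' h
    · intro Z hZ
      have h4 := hZ T (Finset.mem_insert_self _ _)
      have h5 := hF2 Z (fun T' hT' => hZ T' (Finset.mem_insert_of_mem hT'))
      have h6 : (T \ Z) ∪ ((S \ T) \ Z) ⊆ S \ Z := by
        intro x hx
        rcases Finset.mem_union.1 hx with h | h
        · have := Finset.mem_sdiff.1 h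
          exact Finset.mem_sdiff.2 ⟨hTS this.1, this.2⟩
        · have := Finset.mem_sdiff.1 h
          exact Finset.mem_sdiff.2 ⟨(Finset.mem_sdiff.1 this.1).1, this.2⟩
      have h7 : Disjoint (T \ Z) ((S \ T) \ Z) := by
        rw [Finset.disjoint_left]
        intro x hx hx'
        exact (Finset.mem_sdiff.1 (Finset.mem_sdiff.1 hx').1).2 (Finset.mem_sdiff.1 hx).1
      have h8 := Finset.card_le_card h6
      rw [Finset.card_union_of_disjoint h7] at h8
      have : (k + 1) * (g + 1) = k * (g + 1) + (g + 1) := by ring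
      omega

/-- the sets for one side -/
theorem fam (g : ℕ) (S : Finset V) :
    ∃ F : Finset (Finset V), F.card ≤ 5 ∧ (∀ T ∈ F, 2 * g < T.card) ∧
      ∀ Z : Finset V, (∀ T ∈ F, g < (T \ Z).card) →
        (2 * g < S.card → g < (S \ Z).card) ∧
        (8 * g + 4 ≤ S.card → 4 * (g + 1) ≤ (S \ Z).card) := by
  by_cases h1 : 2 * g < S.card
  · by_cases h2 : 8 * g + 4 ≤ S.card
    · obtain ⟨F, hF, hF1, hF2⟩ := parts g 4 S (by omega)
      refine ⟨insert S F, (Finset.card_insert_le _ _).trans (by omega), ?_, ?_⟩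
      · intro T hT
        rcases Finset.mem_insert.1 hT with h | h
        · rw [h]
          exact h1
        · exact hF1 T h
      · intro Z hZ
        exact ⟨fun _ => hZ S (Finset.mem_insert_self _ _),
          fun _ => hF2 Z (fun T hT => hZ T (Finset.mem_insert_of_mem hT))⟩
    · refine ⟨{S}, by simp, ?_, ?_⟩
      · intro T hT
        rw [Finset.mem_singleton.1 hT]
        exact h1
      · intro Z hZ
        exact ⟨fun _ => hZ S (Finset.mem_singleton_self _), fun h => absurd h h2⟩
  · refine ⟨∅, by simp, by simp, ?_⟩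
    intro Z _
    exact ⟨fun h => absurd h h1, fun h => by omega⟩

end NIZ_

/-- the target NIZ -/
theorem p_NIZ (h1 : NRM.T_NIC) : T_NIZ := by
  intro V _ G g A D hn
  choose Fa hFa hFb hFc using fun p : V × V => NIZ_.fam g (cl G (insert p.1 A) p.2)
  have hcard : ((Finset.univ : Finset (V × V)).biUnion Fa).card ≤ 5 * Fintype.card V ^ 2 := by
    refine (Finset.card_biUnion_le_card_mul _ _ 5 (fun p _ => hFa p)).trans ?_
    rw [Finset.card_univ, Fintype.card_prod]
    exact le_of_eq (by ring)
  obtain ⟨Z, hZD, hZ, hZF⟩ := h1 V D ((Finset.univ : Finset (V × V)).biUnion Fa) g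
    (by
      intro S hS
      obtain ⟨p, _, hp⟩ := Finset.mem_biUnion.1 hS
      exact hFb p S hp)
    (by omega)
  refine ⟨Z, hZD, hZ, ?_⟩
  intro z y _ _ _
  have h2 := hFc (z, y) Z
    (fun T hT => hZF T (Finset.mem_biUnion.2 ⟨(z, y), Finset.mem_univ _, hT⟩))
  refine ⟨fun h => h2.1 h, fun h => ?_⟩
  by_contra h3
  have h4 := h2.2 (by
    have h5 : 8 * g + 3 < (cl G (insert z A) y).card := not_le.1 h3
    exact h5)
  have h6 : (cl G (insert z A) y \ Z).card ≤ 4 * g := h
  have h7 : 4 * (g + 1) ≤ (cl G (insert z A) y \ Z).card := h4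
  omega

end Pool.Agent.NRR
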