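import Pool.Agent.NRR.Targets
import Pool.Agent.NRP.P_NLV

/-!
# NRR, NLK: numbers
-/

set_option autoImplicit false

open Finset Classical

namespace Pool.Agent.NRR

open Pool.Agent Pool.Agent.Lib.Recon Pool.Agent.RNB Pool.Agent.NRC Pool.Agent.NRM
  Pool.Agent.NRP

namespace NLK_

open Pool.Agent.NRP.NLV_

theorem l_L {n : ℕ} (h : 200 ≤ pl n) : pl n ^ 2 ≤ pL n := by
  have h1 := pow12 _ h
  have h2 := two_pow_pl n
  have h3 : pl n ^ 2 ≤ pl n ^ 12 := Nat.pow_le_pow_right (pl_pos n) (by norm_num)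
  have h4 : 1 * pl n ^ 12 ≤ 10 ^ 21 * pl n ^ 12 := Nat.mul_le_mul_right _ (by norm_num)
  omega

theorem L3_le {n : ℕ} (h : 200 ≤ pl n) : pL n ^ 3 ≤ n := by
  have hn : n ≠ 0 := by
    rintro rfl
    simp [pl, pL] at h
  have hL : 200 ≤ pL n := h.trans (pl_le n)
  have h1 := pow12 _ hL
  have h3 : pL n ^ 3 ≤ pL n ^ 12 := Nat.pow_le_pow_right (pL_pos n) (by norm_num)
  have h4 : 1 * pL n ^ 12 ≤ 10 ^ 21 * pL n ^ 12 := Nat.mul_le_mul_right _ (by norm_num)
  have h5 : 2 ^ pL n ≤ 2 * n := by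
    have := Nat.pow_log_le_self 2 hn
    unfold pL
    rw [pow_succ]
    omega
  omega

theorem n2_lt (n : ℕ) (hL : 200 ≤ pL n) : 40 * n ^ 2 < 2 ^ (pg n + 2) := by
  have h0 : n < 2 ^ pL n := Nat.lt_pow_succ_log_self (by norm_num) n
  have h1 : n ^ 2 < (2 ^ pL n) ^ 2 := Nat.pow_lt_pow_left h0 (by norm_num)
  have h2 : (2 ^ pL n) ^ 2 * 2 ^ 6 = 2 ^ (2 * pL n + 6) := by
    rw [pow_add, ← pow_mul, mul_comm 2 (pL n)]
  have h3 : 2 * pL n + 6 ≤ pg n + 2 := by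
    unfold pg
    have hL6 : pL n ^ 1 ≤ pL n ^ 6 := Nat.pow_le_pow_right (by omega) (by norm_num)
    rw [pow_one] at hL6
    omega
  have h4 : 2 ^ (2 * pL n + 6) ≤ 2 ^ (pg n + 2) := Nat.pow_le_pow_right (by norm_num) h3
  have h5 : (2 ^ pL n) ^ 2 * 2 ^ 6 = (2 ^ pL n) ^ 2 * 64 := by norm_num
  omega

theorem cost_real2 {A B D n l L k : ℝ} (hn : 0 < n) (hl : 399000 ≤ l) (hL : l ^ 2 ≤ L)
    (a2 : A ≤ 21 * l) (b1 : 0 ≤ B) (b2 : B ≤ 2 * L) (c1 : 0 ≤ D)
    (c2 : D ≤ 18 * l) (k1 : 0 ≤ k) (k2 : k ≤ n / (1000 * L ^ 2)) :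
    A * (B * (n / (8 * L ^ 3) + k) + D * (n / l ^ 3)) ≤ n / 1000 := by
  have hl0 : 0 < l := by linarith
  have hl2 : 0 < l ^ 2 := by positivity
  have hL0 : 0 < L := by linarith
  have hL1 : 1 ≤ L := by nlinarith
  have t0 : n / (8 * L ^ 3) + k ≤ n / (8 * L ^ 3) + n / (1000 * L ^ 2) := by linarith
  have t1 : B * (n / (8 * L ^ 3) + k) ≤ n / l ^ 2 := by
    calc B * (n / (8 * L ^ 3) + k) ≤ (2 * L) * (n / (8 * L ^ 3) + n / (1000 * L ^ 2)) :=
          mul_le_mul b2 t0 (by positivity) (by positivity)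
      _ = n / (4 * L ^ 2) + n / (500 * L) := by
        field_simp
        ring
      _ ≤ n / (4 * L) + n / (500 * L) := by
        have : n / (4 * L ^ 2) ≤ n / (4 * L) := by
          apply div_le_div_of_nonneg_left hn.le (by positivity)
          nlinarith
        linarith
      _ = (63 / 250) * (n / L) := by
        field_simp
        norm_num
      _ ≤ n / L := by
        have : 0 < n / L := by positivity
        linarith
      _ ≤ n / l ^ 2 := div_le_div_of_nonneg_left hn.le hl2 hL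
  have t2 : D * (n / l ^ 3) ≤ 18 * (n / l ^ 2) := by
    calc D * (n / l ^ 3) ≤ (18 * l) * (n / l ^ 3) :=
          mul_le_mul_of_nonneg_right c2 (by positivity)
      _ = 18 * (n / l ^ 2) := by
        field_simp
  have t3 : B * (n / (8 * L ^ 3) + k) + D * (n / l ^ 3) ≤ 19 * (n / l ^ 2) := by
    linarith
  have t4 : 0 ≤ B * (n / (8 * L ^ 3) + k) + D * (n / l ^ 3) := by positivity
  calc A * (B * (n / (8 * L ^ 3) + k) + D * (n / l ^ 3))
      ≤ (21 * l) * (19 * (n / l ^ 2)) := mul_le_mul a2 t3 t4 (by positivity)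
    _ = 399 * n / l := by
        field_simp
        norm_num
    _ ≤ n / 1000 := by
        rw [div_le_div_iff₀ hl0 (by norm_num)]
        nlinarith

theorem cost2 {n : ℕ} (h : 399000 ≤ pl n) :
    (1 + Real.logb 2 (d1 n)) * ((1 + Real.logb 2 n) * (8 * pg n * n / q1 n + kS n) +
      (1 + Real.logb 2 (q1 n)) * (n / M2 n)) ≤ n / 1000 := by
  have h200 : 200 ≤ pl n := by omega
  have hn : 0 < n := (pL_pos n).trans (pL_le h200)
  have a2 := (logd n).2
  obtain ⟨b1, b2⟩ := logn hn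
  obtain ⟨c1, c2⟩ := logq n
  have hnr : (0 : ℝ) < n := by exact_mod_cast hn
  have hl1 : (399000 : ℝ) ≤ pl n := by exact_mod_cast h
  have hL1 : (pl n : ℝ) ^ 2 ≤ pL n := by exact_mod_cast l_L h200
  have hL0 : (0 : ℝ) < pL n := by exact_mod_cast pL_pos n
  have e1 : (8 * (pg n : ℝ) * n / q1 n) = n / (8 * (pL n : ℝ) ^ 3) := by
    have hg : (0 : ℝ) < pg n := by
      unfold pg
      push_cast
      positivity
    have hq : (q1 n : ℝ) = 64 * pg n * (pL n : ℝ) ^ 3 := by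
      unfold q1
      push_cast
      rfl
    rw [hq]
    generalize (pg n : ℝ) = g at hg
    generalize (pL n : ℝ) = L at hL0
    generalize (n : ℝ) = x
    rw [div_eq_div_iff (by positivity) (by positivity)]
    ring
  have e2 : (M2 n : ℝ) = (pl n : ℝ) ^ 3 := by
    unfold M2
    push_cast
    rfl
  have e3 : (kS n : ℝ) ≤ n / (1000 * (pL n : ℝ) ^ 2) := by
    unfold kS
    have := @Nat.cast_div_le ℝ _ _ _ n (1000 * pL n ^ 2)
    push_cast at this
    exact this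
  rw [e1, e2]
  exact cost_real2 hnr hl1 hL1 a2 b1 b2 c1 c2 (Nat.cast_nonneg _) e3

theorem kk (d L n : ℕ) (hd : 399000 ≤ d) (h : 8 * d ^ 4 ≤ L) :
    24 * (4 * d + 1) * (n / L ^ 3) ≤ n / (1000 * L ^ 2) := by
  have hd0 : 0 < d := by omega
  have hL0 : 0 < L := by
    have : 0 < d ^ 4 := Nat.pow_pos hd0
    omega
  have h1 : 24000 * (4 * d + 1) ≤ L := by
    have h2 : d ^ 2 ≤ d ^ 4 := Nat.pow_le_pow_right hd0 (by norm_num)
    have h3 : 399000 * d ≤ d ^ 2 := by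
      rw [pow_two]
      exact Nat.mul_le_mul_right _ hd
    omega
  rw [Nat.le_div_iff_mul_le (by positivity)]
  calc 24 * (4 * d + 1) * (n / L ^ 3) * (1000 * L ^ 2)
      = (24000 * (4 * d + 1)) * (n / L ^ 3) * L ^ 2 := by ring
    _ ≤ L * (n / L ^ 3) * L ^ 2 := by gcongr
    _ = n / L ^ 3 * L ^ 3 := by ring
    _ ≤ n := Nat.div_mul_le_self _ _

theorem gg (g : ℕ) (h : 16 ≤ g) : 16 * g + 6 ≤ g * (g + 5) := by nlinarith

end NLK_

open NLK_ Pool.Agent.NRP.NLV_ in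
/-- Numbers. -/
theorem p_NLK : T_NLK := by
  obtain ⟨n0, h0⟩ := ex_n0 KK
  refine ⟨n0, fun n hn => ?_⟩
  have hl := h0 n hn
  have hl2 : 399000 ≤ pl n := KK_ge.trans hl
  have hd1 := pl_le_d1 n
  have hKd : KK ≤ d1 n := hl.trans hd1
  clear hl hn h0
  have h200 : 200 ≤ pl n := by omega
  have hdL := d1_L h200
  have hLn := pL_le h200
  have hL := pL_pos n
  have hL3 := L3_le h200
  have hL200 : 200 ≤ pL n := h200.trans (pl_le n)
  have hn2 := n2_lt n hL200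
  have hd39 : 399000 ≤ d1 n := hl2.trans hd1
  have hk := kk (d1 n) (pL n) n hd39 hdL
  have hc := cost2 hl2
  have hd0 : 1 ≤ d1 n := (pl_pos n).trans hd1
  have hd4 : d1 n ^ 1 ≤ d1 n ^ 4 := Nat.pow_le_pow_right hd0 (by norm_num)
  have hd5 : d1 n ^ 2 ≤ d1 n ^ 4 := Nat.pow_le_pow_right hd0 (by norm_num)
  rw [pow_one] at hd4
  have hL6 : pL n ^ 1 ≤ pL n ^ 6 := Nat.pow_le_pow_right hL (by norm_num)
  rw [pow_one] at hL6
  have hL9 : pL n ^ 6 ≤ pL n ^ 9 := Nat.pow_le_pow_right hL (by norm_num)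
  have hg : pg n = 4 * pL n ^ 6 := rfl
  have hq := q1_eq n
  have hM : 1 ≤ M2 n := Nat.one_le_pow 3 _ (pl_pos n)
  have hg16 : 16 ≤ pg n := by omega
  have hq2 : q2 n = q1 n + pg n * (pg n + 5) := rfl
  have hgg : 16 * pg n + 6 ≤ pg n * (pg n + 5) := gg _ hg16
  have hkR : 1 ≤ kR n := by
    unfold kR
    rw [Nat.le_div_iff_mul_le (Nat.pow_pos hL), one_mul]
    exact hL3
  have hkk : 24 * (4 * d1 n + 1) * kR n ≤ kS n := hk
  have h8 : 8 * kR n ≤ kS n := by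
    refine le_trans (Nat.mul_le_mul_right _ ?_) hkk
    omega
  refine ⟨hKd, ?_, ?_, hM, ?_, ?_, ?_, ?_, ?_, hkk, h8, hn2, ?_, hkR, hc⟩
  all_goals clear hKd hc
  · omega
  · omega
  · omega
  · omega
  · omega
  · omega
  · omega
  · omega

end Pool.Agent.NRR
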