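import Pool.Agent.NRR.Targets

/-!
# NRR, target ONR: non-reconstructible graphs have codes for many vertices
-/

set_option autoImplicit false

open Finset Classical

namespace Pool.Agent.NRR

open Pool.Agent Pool.Agent.Lib.Recon Pool.Agent.RNB Pool.Agent.NRC Pool.Agent.NRM
  Pool.Agent.NRP

namespace ONR_

theorem EE_mono {V : Type} [Fintype V] (G : SimpleGraph V) {g g' : ℕ} (A : Finset V)
    (h : g ≤ g') : EE G g' A ⊆ EE G g A := by
  intro z hz
  unfold EE at hz ⊢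
  rw [mem_filter] at hz ⊢
  obtain ⟨h0, h1, y, y', h2, h3, h4, h5, h6, h7, h8⟩ := hz
  exact ⟨h0, h1, y, y', h2, h3, h4, h5, h6, lt_of_le_of_lt h h7, lt_of_le_of_lt h h8⟩

theorem bs_of {V : Type} [Fintype V] {G : SimpleGraph V} {A T01 T1 T : Finset V} {g qq h : ℕ}
    (hx : Cx G A T01 T1 g qq h) (hT : T1 ⊆ T) : NRQ.Bs G g h A T :=
  ⟨hx.lv.sub.trans (hx.sub.trans hT), fun y hy => hT (hx.sub (hx.bad y hy))⟩

theorem one_le_KK : 1 ≤ KK := by
  unfold KK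
  exact Nat.one_le_two_pow

theorem sq_le {g d d' : ℕ} (a : 2 * d ^ 2 + 1 ≤ 6 * g) (b : d' ≤ d) :
    2 * d' ^ 2 + 1 ≤ 6 * g := by
  have : d' ^ 2 ≤ d ^ 2 := Nat.pow_le_pow_left b 2
  omega

end ONR_

open ONR_ in
theorem p_ONR (h1 : T_LK1) (h2 : T_ITK) (h3 : T_NLK) (h4 : T_ZE1) (h5 : T_AZ2)
    (h6 : NRM.T_MGD) (h7 : NRM.T_RCM) (h8 : NRP.T_DON) (h9 : NRP.T_NLV) (hR : NRQ.T_RIC) :
    T_ONR := by
  obtain ⟨n1, H1⟩ := h1
  obtain ⟨n3, H3⟩ := h3
  obtain ⟨n4, H4⟩ := h8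
  obtain ⟨hpw, -⟩ := h9
  refine ⟨n1 + n3 + n4 + 3, fun V _ G hn hrec Y hY hfar A hA hs => ?_⟩
  by_contra hGZ
  refine hrec (h7 V G (by omega) fun H hc => ?_)
  by_contra hni
  obtain ⟨b1, b2, b3, b4, b5, b6, b7, b8, b9, b10, b11, b12, b13, b14, b15⟩ :=
    H3 (Fintype.card V) (by omega)
  rcases H1 V G A Y (by omega) hfar hY hA hs with ⟨P, hP, hk⟩ |
    ⟨T01, T1, ms, hx, hYT, hNr, hMk, hKH, hCo⟩
  · obtain ⟨Z, hZ, hnice, hatt⟩ := h4 V G (pg (Fintype.card V)) (q1 (Fintype.card V))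
      (pg (Fintype.card V)) KK (M1 (Fintype.card V)) (kR (Fintype.card V)) A Y P b5 (by omega)
      one_le_KK b13 hP (b11.trans hk.le)
    exact hGZ ⟨Z, hZ, Or.inl (h6 V G (pg (Fintype.card V)) (q1 (Fintype.card V))
      (pg (Fintype.card V)) KK (M1 (Fintype.card V)) A Y Z b5 (by omega) (by omega)
      hnice hatt)⟩
  · have hR' : ∀ T : Finset V, A ∪ EE G (pg (Fintype.card V)) A ⊆ T → ∃ T' : Finset V,
        T ⊆ T' ∧ NRQ.Rich G (2 * pg (Fintype.card V)) (q1 (Fintype.card V)) A T' ∧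
        q1 (Fintype.card V) * (T' \ T).card ≤ 8 * pg (Fintype.card V) * Fintype.card V := by
      intro T hT
      obtain ⟨T', e1, e2, e3⟩ := hR V G (2 * pg (Fintype.card V)) (q1 (Fintype.card V)) A T
        (by omega) ((union_subset_union_right
          (EE_mono G A (by omega : pg (Fintype.card V) ≤ 2 * pg (Fintype.card V)))).trans hT)
      refine ⟨T', e1, e2, e3.trans (le_of_eq ?_)⟩
      ring
    rcases h2 V G A T01 T1 T1 Y (pg (Fintype.card V)) (q1 (Fintype.card V))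
      (pg (Fintype.card V)) (d1 (Fintype.card V)) (M2 (Fintype.card V))
      (kS (Fintype.card V)) ms (Fintype.card V / 1000) hR' b1 b2 b3 b4 hx subset_rfl hfar hYT
      hNr hMk hKH hCo with ⟨d', T', c1, c2, c3, c4, c5, c6⟩ | ⟨T', hD, hC⟩
    · obtain ⟨Z, hZ, hcd⟩ := h5 V G (pg (Fintype.card V)) (pg (Fintype.card V))
        (q1 (Fintype.card V)) (q2 (Fintype.card V)) (d1 (Fintype.card V)) d'
        (M2 (Fintype.card V)) (kR (Fintype.card V)) A T' b5 (sq_le b6 c2) b7 b8 c1 c2 b4 b12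
        (bs_of hx c3) c4 c5 (b10.trans c6.le)
      exact hGZ ⟨Z, hZ, Or.inr hcd⟩
    · refine hni (H4 V G H T' _ (by omega) hc hD hC ?_)
      have hn0 : (0 : ℝ) ≤ Fintype.card V := Nat.cast_nonneg _
      have h10 : (Fintype.card V : ℝ) * (6 * pw KH) ≤ Fintype.card V * (1 / 1000) :=
        mul_le_mul_of_nonneg_left hpw hn0
      linarith

end Pool.Agent.NRR
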