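import Pool.Agent.NRR.Targets

/-!
# NRR, target RSZ: the size of `RSz`
-/

set_option autoImplicit false

open Finset Classical

namespace Pool.Agent.NRR

open Pool.Agent Pool.Agent.Lib.Recon Pool.Agent.RNB Pool.Agent.NRC Pool.Agent.NRP

namespace RSZ_

theorem step {V : Type} [Fintype V] (S : Finset V) (P : V → V → Prop) (D : ℕ)
    (h : ∀ a, (univ.filter (fun b => P a b)).card ≤ D) :
    (S ∪ univ.filter (fun b => ∃ c ∈ S, P c b)).card ≤ S.card * (D + 1) := by
  have h1 : (univ.filter (fun b => ∃ c ∈ S, P c b)) ⊆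
      S.biUnion (fun c => univ.filter (fun b => P c b)) := by
    intro b hb
    rw [mem_filter] at hb
    obtain ⟨c, hc, hcb⟩ := hb.2
    rw [mem_biUnion]
    exact ⟨c, hc, by rw [mem_filter]; exact ⟨mem_univ _, hcb⟩⟩
  have h2 : (univ.filter (fun b => ∃ c ∈ S, P c b)).card ≤ S.card * D :=
    (card_le_card h1).trans (card_biUnion_le_card_mul _ _ _ fun c _ => h c)
  calc (S ∪ univ.filter (fun b => ∃ c ∈ S, P c b)).card
      ≤ S.card + (univ.filter (fun b => ∃ c ∈ S, P c b)).card := card_union_le _ _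
    _ ≤ S.card + S.card * D := by omega
    _ = S.card * (D + 1) := by ring

end RSZ_

theorem p_RSZ (h1 : T_HNZ) : T_RSZ := by
  intro V _ G g h q d A Z s a
  induction s with
  | zero =>
    rw [pow_zero]
    simp [RSz]
  | succ s ih =>
    have h2 := RSZ_.step (RSz G g h q d A Z s a) (fun c b => Hnz G g h q d A Z c b)
      (h + h * (4 * g) * d + q * d) (fun c => h1 V G g h q d A Z c)
    have h3 : RSz G g h q d A Z (s + 1) a = RSz G g h q d A Z s a ∪
        univ.filter (fun b => ∃ c ∈ RSz G g h q d A Z s a, Hnz G g h q d A Z c b) := rfl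
    rw [h3, pow_succ]
    exact h2.trans (Nat.mul_le_mul_right _ ih)

end Pool.Agent.NRR
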