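import Pool.Agent.NRR.Targets

/-!
# NRR, target SPZ: bounded number of steps in the graph without `Z`
-/

set_option autoImplicit false

open Finset Classical

namespace Pool.Agent.NRR

open Pool.Agent Pool.Agent.Lib.Recon Pool.Agent.RNB Pool.Agent.NRC Pool.Agent.NRM
  Pool.Agent.NRP

/-- **SPZ**: bounded number of steps. -/
theorem p_SPZ : T_SPZ := by
  intro V _ G g h q d s A Z W w r hs hw hwZ hpath hH
  set X : ℕ → Finset V := fun j => RSz G g h q d A Z j w ∩ (W \ Z) with hX
  have hmono : ∀ j, X j ⊆ X (j + 1) := by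
    intro j x hx
    simp only [hX, mem_inter] at hx ⊢
    exact ⟨mem_union_left _ hx.1, hx.2⟩
  have hw0 : ∀ j, w ∈ X j := by
    intro j
    induction j with
    | zero =>
      simp only [hX, mem_inter]
      exact ⟨mem_singleton_self w, mem_sdiff.2 ⟨hw, hwZ⟩⟩
    | succ j ih => exact hmono j ih
  have hclosed : ∀ j, X (j + 1) = X j → W \ Z ⊆ X j := by
    intro j hj y hy
    obtain ⟨hyW, hyv⟩ := mem_sdiff.1 hy
    have hp := hpath y hyW hyv
    clear hyW hyv hy
    induction hp with
    | refl => exact hw0 j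
    | @tail b c _ hbc ih =>
      obtain ⟨hcW, hcv, hr⟩ := hbc
      have hb := ih
      have hb2 := (mem_inter.1 hb)
      obtain ⟨hbW, hbv⟩ := mem_sdiff.1 hb2.2
      have hhn := hH b hbW hbv c hcv hr
      rw [← hj]
      refine mem_inter.2 ⟨mem_union_right _ ?_, mem_sdiff.2 ⟨hcW, hcv⟩⟩
      exact mem_filter.2 ⟨mem_univ _, b, hb2.1, hhn⟩
  have hmain : ∀ j, W \ Z ⊆ X j ∨ j + 1 ≤ (X j).card := by
    intro j
    induction j with
    | zero => exact Or.inr (card_pos.2 ⟨w, hw0 0⟩)
    | succ j ih =>
      rcases ih with ih | ih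
      · exact Or.inl (ih.trans (hmono j))
      · by_cases hj : X (j + 1) = X j
        · exact Or.inl ((hclosed j hj).trans (hmono j))
        · right
          have hlt : (X j).card < (X (j + 1)).card :=
            card_lt_card (Finset.ssubset_iff_subset_ne.2 ⟨hmono j, fun h => hj h.symm⟩)
          omega
  rcases hmain s with h1 | h1
  · exact h1.trans inter_subset_left
  · exfalso
    have h2 : (X s).card ≤ (W \ Z).card := card_le_card inter_subset_right
    have h3 : (W \ Z).card ≤ W.card := card_le_card sdiff_subset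
    omega

end Pool.Agent.NRR
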