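import Pool.Agent.NRR.Targets
import Pool.Agent.NRP.P_STP

/-!
# NRR, STK: one step with many roots (MP_552896_co)
-/

set_option autoImplicit false

open Finset Classical

namespace Pool.Agent.NRR

open Pool.Agent Pool.Agent.Lib.Recon Pool.Agent.RNB Pool.Agent.NRC Pool.Agent.NRM
  Pool.Agent.NRP

open Pool.Agent.NRP.STP_ in
/-- STK -/
theorem p_STK (h1 : T_LVK) (h2 : NRP.T_LVT) (h3 : NRP.T_ECO) (h4 : NRP.T_CLO) (h5 : NRP.T_NUM)
    (h6 : NRP.T_XBD) (h7 : NRP.T_CBN) : T_STK := by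
  intro V _ G A T01 T1 T Y g1 qq hh1 d M κ ms c hR hKd hdn hqq hM hCx hT1 hFar hY hNr hMk hms hCo
  have hA : A ∪ EE G g1 A ⊆ T := (hCx.lv.sub.trans hCx.sub).trans hT1
  obtain ⟨T2, hT2, hRich, hcard⟩ := hR T hA
  obtain ⟨-, n2, n3, n4, n5, n6, n7⟩ := h5 d hKd
  have hKK : 1 ≤ KK := one_le_KK
  have hd1 : 1 ≤ d := hKK.trans hKd
  have hd2 : 1 ≤ d ^ 2 := Nat.one_le_pow _ _ hd1
  have hn1 : 1 ≤ Fintype.card V := hd1.trans hdn
  have hNr2 : Nr G d T2 := nr_mono hT2 hNr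
  by_cases hκ : κ < (SCP (IN G (2 * d ^ 2) T2)
      (PL G (d ^ 2) (d ^ 4) T2 (T2 ∪ EE G (d ^ 2) T2)) M).card
  · exact Or.inl ⟨T2, hT2, hRich, hNr2, hκ⟩
  right
  have hκ' : (SCP (IN G (2 * d ^ 2) T2)
      (PL G (d ^ 2) (d ^ 4) T2 (T2 ∪ EE G (d ^ 2) T2)) M).card ≤ κ := not_lt.1 hκ
  have hCo2 := h7 V G T T2 _ hT2 hCo
  have hCo3 := h3 V G d T2 _ hKd hNr2 hCo2
  have hLv := h2 V G d T2 hKd hNr2
  have hT20 : T2 ⊆ T2 ∪ EE G (d ^ 2) T2 := Finset.subset_union_left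
  have hMk0 : Mk (kc G) (T2 ∪ EE G (d ^ 2) T2) ms := mk_mono (hT2.trans hT20) hMk
  have hnx : nx d ≤ Fintype.card V := by omega
  have hPLm : ∀ y ∈ PL G (d ^ 2) (d ^ 4) T2 (T2 ∪ EE G (d ^ 2) T2), ms y = 0 ∨ d ^ 4 < ms y := by
    intro y hy
    by_cases h0 : ms y = 0
    · exact Or.inl h0
    · right
      have e1 := hMk0 y h0
      simp only [PL, LA, Finset.mem_filter, Finset.mem_univ, true_and] at hy
      exact hy.1.2.trans_le e1
  have hρ : ∀ Q : Finset V, Q ⊆ PL G (d ^ 2) (d ^ 4) T2 (T2 ∪ EE G (d ^ 2) T2) → M < Q.card →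
      (∀ y ∈ Q, IN G (2 * d ^ 2) T2 y ⊆ Q) →
      ∃ y ∈ Q, 1 + Real.logb 2 (kc G (T2 ∪ EE G (d ^ 2) T2) y) ≤ 1 + Real.logb 2 qq := by
    intro Q hQ hQM hQc
    by_contra hcon
    push Not at hcon
    have hbig : ∀ y ∈ Q, qq < kc G (T2 ∪ EE G (d ^ 2) T2) y := by
      intro y hy
      by_contra hle
      have hy0 : y ∉ T2 ∪ EE G (d ^ 2) T2 := by
        have := hQ hy
        simp only [PL, Finset.mem_filter] at this
        exact this.2
      have hpos : 0 < kc G (T2 ∪ EE G (d ^ 2) T2) y :=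
        Finset.card_pos.2 ⟨y, mem_self G hy0⟩
      have e1 : Real.logb 2 (kc G (T2 ∪ EE G (d ^ 2) T2) y) ≤ Real.logb 2 qq := by
        refine Real.logb_le_logb_of_le (by norm_num) (by exact_mod_cast hpos) ?_
        exact_mod_cast not_lt.1 hle
      have e2 := hcon y hy
      linarith
    obtain ⟨e1, e2⟩ := h4 V G A T01 T1 T2 Q g1 qq hh1 (d ^ 2) (d ^ 4) hd2 hqq hCx
      (hT1.trans hT2) hQ hQc hbig
    have hne : Q.Nonempty := Finset.card_pos.1 (by omega)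
    obtain ⟨y, hy, hyT⟩ := hCx.cls Q e1 hne e2
    have := hQ hy
    simp only [PL, Finset.mem_filter] at this
    exact this.2 (hT20 ((hT1.trans hT2) hyT))
  obtain ⟨T1', T', ms', s, x, e, k0, k1, k2, k3, k4, k5, k6, k7, -, -, k9⟩ :=
    h1 V G (d ^ 2) (d ^ 4) (2 * d) M (nx d) (Fintype.card V / lam d ^ 2) T2
    (T2 ∪ EE G (d ^ 2) T2) Y ms (c + (1 + Real.logb 2 (Fintype.card V)) * (T2 \ T).card +
      lam d * (2 * Fintype.card V / d)) (1 + Real.logb 2 qq) hn1 hnx hFar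
    ((hY.trans hT2).trans hT20) hLv hMk0 hms hPLm
    (co_mono hCo3 (le_of_eq (by ring))) hρ
  refine ⟨T', ms', ((hT2.trans hT20).trans k0).trans k1, k2, k6, k7, co_mono k9 ?_⟩
  have hl0 : 0 < lam d := lt_of_lt_of_le (Nat.succ_pos _) n7
  have c5 := num_aux KH (lam d) (d ^ 4) e (Fintype.card V) hl0 n6 k4
  generalize (SCP (IN G (2 * d ^ 2) T2)
      (PL G (d ^ 2) (d ^ 4) T2 (T2 ∪ EE G (d ^ 2) T2)) M).card = sc at hκ' ⊢
  clear hms hFar hKd k7 hKK n6 k9 hCo hCo2 hCo3 hρ hPLm hLv hκ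
  have hN : (0 : ℝ) < Fintype.card V := by exact_mod_cast hn1
  have hN1 : (1 : ℝ) ≤ Fintype.card V := by exact_mod_cast hn1
  have hqq1 : 1 ≤ qq := by omega
  have hqr : (1 : ℝ) ≤ qq := by exact_mod_cast hqq1
  have hMr : (0 : ℝ) < M := by exact_mod_cast hM
  have hdr : (0 : ℝ) < d := by exact_mod_cast hd1
  have hm : (40005 : ℝ) ≤ (lam d : ℝ) := by exact_mod_cast n7
  have hm0 : (0 : ℝ) < (lam d : ℝ) := by linarith
  have hlN : 0 ≤ Real.logb 2 (Fintype.card V) := Real.logb_nonneg (by norm_num) hN1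
  have hlq : 0 ≤ Real.logb 2 qq := Real.logb_nonneg (by norm_num) hqr
  have c1 : (1 + Real.logb 2 (Fintype.card V)) * (((T2 \ T).card : ℝ) + sc) ≤
      (1 + Real.logb 2 (Fintype.card V)) * (8 * g1 * Fintype.card V / qq + κ) := by
    refine mul_le_mul_of_nonneg_left ?_ (by linarith)
    refine add_le_add ?_ (by exact_mod_cast hκ')
    rw [le_div_iff₀ (by linarith)]
    have : ((qq * (T2 \ T).card : ℕ) : ℝ) ≤ ((8 * g1 * Fintype.card V : ℕ) : ℝ) := by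
      exact_mod_cast hcard
    push_cast at this
    linarith
  have c2 : (lam d : ℝ) * (2 * Fintype.card V / d) ≤ Fintype.card V / lam d := by
    have e1 : (8 : ℝ) * (lam d : ℝ) ^ 2 ≤ d := by exact_mod_cast n3
    rw [le_div_iff₀ hm0]
    have e2 : (lam d : ℝ) * (2 * Fintype.card V / d) * lam d =
        Fintype.card V * (2 * (lam d : ℝ) ^ 2) / d := by ring
    rw [e2, div_le_iff₀ hdr]
    refine mul_le_mul_of_nonneg_left ?_ hN.le
    have : 0 ≤ (lam d : ℝ) ^ 2 := by positivity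
    linarith
  have c3 : (1 + Real.logb 2 qq) * (s : ℝ) ≤
      (1 + Real.logb 2 qq) * (Fintype.card V / M) := by
    refine mul_le_mul_of_nonneg_left ?_ (by linarith)
    rw [le_div_iff₀ hMr]
    have : ((M * s : ℕ) : ℝ) ≤ (Fintype.card V : ℝ) := by exact_mod_cast k3
    push_cast at this
    linarith
  have hx : (x : ℝ) ≤ Fintype.card V / (lam d : ℝ) ^ 2 := by
    rw [le_div_iff₀ (by positivity)]
    have e1 := h6 (Fintype.card V) (lam d) (1 + d ^ 4 + 2 * d * (2 * d ^ 2)) (by omega)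
      (by unfold nx at hnx; exact hnx) n5
    refine le_trans (mul_le_mul_of_nonneg_right k5 (by positivity)) (le_trans (le_of_eq ?_) e1)
    unfold nx
    push_cast
    ring
  have hk : ((Fintype.card V / lam d ^ 2 : ℕ) : ℝ) ≤ Fintype.card V / (lam d : ℝ) ^ 2 := by
    have := @Nat.cast_div_le ℝ _ _ _ (Fintype.card V) (lam d ^ 2)
    push_cast at this
    exact this
  have c4 : 4 * (1 + Real.logb 2 ((d ^ 4 : ℕ) : ℝ)) *
      (((Fintype.card V / lam d ^ 2 : ℕ) : ℝ) + x) ≤ 8 * (Fintype.card V / lam d) := by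
    have e1 : 4 * (1 + Real.logb 2 ((d ^ 4 : ℕ) : ℝ)) ≤ 4 * (lam d : ℝ) := by linarith
    have e2 : ((Fintype.card V / lam d ^ 2 : ℕ) : ℝ) + x ≤
        2 * (Fintype.card V / (lam d : ℝ) ^ 2) := by linarith
    calc 4 * (1 + Real.logb 2 ((d ^ 4 : ℕ) : ℝ)) *
          (((Fintype.card V / lam d ^ 2 : ℕ) : ℝ) + x)
        ≤ 4 * (lam d : ℝ) * (((Fintype.card V / lam d ^ 2 : ℕ) : ℝ) + x) :=
          mul_le_mul_of_nonneg_right e1 (by positivity)
      _ ≤ 4 * (lam d : ℝ) * (2 * (Fintype.card V / (lam d : ℝ) ^ 2)) :=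
          mul_le_mul_of_nonneg_left e2 (by positivity)
      _ = 8 * (Fintype.card V / lam d) := by
          field_simp
          ring
  have hNm : 0 ≤ (Fintype.card V : ℝ) / lam d := div_nonneg hN.le hm0.le
  refine le_trans (le_of_eq ?_) (fin_aux c _ _ _ _ _ _ _ (Ph ms') (Fintype.card V) (lam d)
    c1 c2 c3 c4 c5 hNm)
  ring

end Pool.Agent.NRR
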