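import Pool.Agent.NRR.Targets

set_option autoImplicit false

open Finset Classical

namespace Pool.Agent.NRR

open Pool.Agent Pool.Agent.Lib.Recon Pool.Agent.RNB Pool.Agent.NRC Pool.Agent.NRM
  Pool.Agent.NRP

namespace THN_

variable {V : Type} [Fintype V]

lemma mem_cl0 {G : SimpleGraph V} {B : Finset V} {v y : V} :
    y ∈ cl G B v ↔ y ∉ B ∧ ∀ b ∈ B, (G.Adj b v ↔ G.Adj b y) := by
  simp [cl]

lemma cl_eq0 {G : SimpleGraph V} {B : Finset V} {v y : V} (h : y ∈ cl G B v) :
    cl G B y = cl G B v := by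
  rw [mem_cl0] at h
  ext x
  rw [mem_cl0, mem_cl0]
  constructor
  · rintro ⟨h1, h2⟩
    exact ⟨h1, fun b hb => (h.2 b hb).trans (h2 b hb)⟩
  · rintro ⟨h1, h2⟩
    exact ⟨h1, fun b hb => (h.2 b hb).symm.trans (h2 b hb)⟩

/-- a choice of `min |Z ∩ C| (|C| / 2)` elements of `Z ∩ C` -/
lemma ex_sub (Z C : Finset V) :
    ∃ S : Finset V, S ⊆ Z ∩ C ∧ S.card = min (Z ∩ C).card (C.card / 2) :=
  Finset.exists_subset_card_eq (min_le_left _ _)

/-- an injection of a small subset into its complement -/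
lemma ex_inj (S C : Finset V) (hS : S ⊆ C) (h : 2 * S.card ≤ C.card) :
    ∃ f : V → V, (∀ x ∈ S, f x ∈ C ∧ f x ∉ S) ∧ ∀ x ∈ S, ∀ y ∈ S, f x = f y → x = y := by
  have h1 : S.card ≤ (C \ S).card := by
    rw [Finset.card_sdiff_of_subset hS]
    omega
  have h2 : Fintype.card S ≤ Fintype.card ((C \ S : Finset V)) := by
    rw [Fintype.card_coe, Fintype.card_coe]
    exact h1
  obtain ⟨e⟩ := Function.Embedding.nonempty_of_card_le h2
  refine ⟨fun x => if hx : x ∈ S then ((e ⟨x, hx⟩ : (C \ S : Finset V)) : V) else x, ?_, ?_⟩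
  · intro x hx
    simp only [hx, dif_pos]
    have := (e ⟨x, hx⟩).2
    rw [Finset.mem_sdiff] at this
    exact this
  · intro x hx y hy hxy
    simp only [hx, hy, dif_pos] at hxy
    have h3 := e.injective (Subtype.ext hxy)
    exact congrArg Subtype.val h3

end THN_

open THN_ in
theorem p_THN : T_THN := by
  intro V _ G B Z hZ
  choose S hS1 hS2 using fun C : Finset V => ex_sub Z C
  have hSC : ∀ C : Finset V, S C ⊆ C := fun C => (hS1 C).trans Finset.inter_subset_right
  have hSh : ∀ C : Finset V, 2 * (S C).card ≤ C.card := by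
    intro C
    have h1 := hS2 C
    have h2 : min (Z ∩ C).card (C.card / 2) ≤ C.card / 2 := min_le_right _ _
    omega
  choose f hf1 hf2 using fun C : Finset V => ex_inj (S C) C (hSC C) (hSh C)
  have hself : ∀ x ∈ Z, x ∈ cl G B x := fun x hx => mem_cl0.2 ⟨(hZ x hx).1, fun b _ => Iff.rfl⟩
  set Z1 : Finset V := Z.filter (fun x => x ∈ S (cl G B x)) with hZ1
  have hcap : ∀ y, cl G B y ∩ Z1 = S (cl G B y) := by
    intro y
    ext z
    rw [Finset.mem_inter, hZ1, Finset.mem_filter]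
    constructor
    · rintro ⟨h1, -, h3⟩
      rwa [cl_eq0 h1] at h3
    · intro h1
      have h2 := Finset.mem_inter.1 (hS1 _ h1)
      refine ⟨h2.2, h2.1, ?_⟩
      rwa [cl_eq0 h2.2]
  refine ⟨Z1, fun x => f (cl G B x) x, Finset.filter_subset _ _, ?_, ?_, ?_, ?_⟩
  · have hm : ∀ x ∈ Z, cl G B x ∈ Z.image (cl G B) := fun x hx => Finset.mem_image_of_mem _ hx
    have hm1 : ∀ x ∈ Z1, cl G B x ∈ Z.image (cl G B) := fun x hx =>
      hm x (Finset.mem_filter.1 hx).1
    rw [Finset.card_eq_sum_card_fiberwise hm, Finset.card_eq_sum_card_fiberwise hm1,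
      Finset.mul_sum]
    apply Finset.sum_le_sum
    intro C hC
    obtain ⟨x0, hx0, rfl⟩ := Finset.mem_image.1 hC
    have e1 : Z.filter (fun x => cl G B x = cl G B x0) = Z ∩ cl G B x0 := by
      ext x
      rw [Finset.mem_filter, Finset.mem_inter]
      constructor
      · rintro ⟨h1, h2⟩
        exact ⟨h1, h2 ▸ hself x h1⟩
      · rintro ⟨h1, h2⟩
        exact ⟨h1, cl_eq0 h2⟩
    have e2 : Z1.filter (fun x => cl G B x = cl G B x0) = S (cl G B x0) := by
      rw [← hcap x0]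
      ext x
      rw [Finset.mem_filter, Finset.mem_inter]
      constructor
      · rintro ⟨h1, h2⟩
        exact ⟨h2 ▸ hself x (Finset.mem_filter.1 h1).1, h1⟩
      · rintro ⟨h1, h2⟩
        exact ⟨h2, cl_eq0 h1⟩
    rw [e1, e2, hS2]
    have h3 : (Z ∩ cl G B x0).card ≤ (cl G B x0).card :=
      Finset.card_le_card Finset.inter_subset_right
    have h4 := (hZ x0 hx0).2
    rcases le_total (Z ∩ cl G B x0).card ((cl G B x0).card / 2) with h5 | h5
    · rw [min_eq_left h5]
      omega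
    · rw [min_eq_right h5]
      omega
  · intro x hx
    have h1 : x ∈ Z := (Finset.mem_filter.1 hx).1
    have h2 : x ∈ S (cl G B x) := (Finset.mem_filter.1 hx).2
    obtain ⟨h3, h4⟩ := hf1 (cl G B x) x h2
    refine ⟨h3, fun h5 => h4 ?_⟩
    rw [← hcap x]
    exact Finset.mem_inter.2 ⟨h3, h5⟩
  · intro x hx y hy hxy
    have h2 : x ∈ S (cl G B x) := (Finset.mem_filter.1 hx).2
    have h2' : y ∈ S (cl G B y) := (Finset.mem_filter.1 hy).2
    obtain ⟨h3, -⟩ := hf1 (cl G B x) x h2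
    obtain ⟨h3', -⟩ := hf1 (cl G B y) y h2'
    simp only at hxy
    have h6 : cl G B x = cl G B y := by
      rw [← cl_eq0 h3, ← cl_eq0 h3', hxy]
    rw [← h6] at hxy h2'
    exact hf2 (cl G B x) x h2 y h2' hxy
  · intro y
    rw [hcap y]
    exact hSh _

end Pool.Agent.NRR
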