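import Pool.Agent.NRR.Targets
import Pool.Agent.NRM.P_ZEX

/-!
# NRR: many vertices, one in each small closed component of a set of good vertices (MP_552896_co)
-/

set_option autoImplicit false

open Finset Classical

namespace Pool.Agent.NRR

open Pool.Agent Pool.Agent.Lib.Recon Pool.Agent.RNB Pool.Agent.NRC Pool.Agent.NRM
open Pool.Agent.NRM.ZEX_

theorem p_ZE1 (h_NCV : NRC.T_NCV) (h_SYM : NRC.T_SYM) (h_NIC : NRM.T_NIC) : T_ZE1 := by
  intro V _ G g q h d M k A Y P hg hq hd hn hPP hk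
  -- the elements of `P`
  have hP0 : ∀ y ∈ P, y ∈ P0 G g q h d A Y := fun y hy => (mem_filter.mp (hPP hy)).1
  have hPL : ∀ y ∈ P, y ∈ LL G g q h d A := fun y hy => (mem_sdiff.mp (hP0 y hy)).1
  have hPA : ∀ y ∈ P, y ∈ LA G g q A := fun y hy => (mem_filter.mp (hPL y hy)).1
  have hPh : ∀ y ∈ P, (IN G (2 * g) A y).card ≤ h := fun y hy =>
    (mem_filter.mp (hPL y hy)).2.1
  have hPd : ∀ y ∈ P, d ≤ 2 * (IN G (2 * g) A y).card := fun y hy =>
    (mem_filter.mp (hPL y hy)).2.2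
  have hs : ∀ y ∈ P, ∀ z ∈ P, z ∈ IN G (2 * g) A y → y ∈ IN G (2 * g) A z :=
    fun y hy z hz hzy => h_SYM V G g q h A hq y z (hPA y hy) (hPA z hz) (hPh y hy) (hPh z hz) hzy
  -- members of `SC` with a common element are equal
  have hWP : ∀ W ∈ SC G g M A P, W ⊆ P := by
    intro W hW
    obtain ⟨y, hy, rfl, -, -⟩ := mem_SC G g M A P W hW
    exact CO_subset G g A P y hy
  have hWe : ∀ W ∈ SC G g M A P, ∀ v ∈ W, CO G g A P v = W := by
    intro W hW v hv
    obtain ⟨y, hy, rfl, -, -⟩ := mem_SC G g M A P W hW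
    exact CO_eq G g A P hs y v hy hv
  -- the vertices `v_W`
  choose f hf1 hf2 using fun W : {W // W ∈ SC G g M A P} =>
    cut h_NCV G g M d A P W.1 hd hPd W.2
  set D : Finset V := (SC G g M A P).attach.image f with hDdef
  have hfi : Function.Injective f := by
    intro W W' hWW
    apply Subtype.ext
    rw [← hWe W.1 W.2 (f W) (hf1 W), ← hWe W'.1 W'.2 (f W') (hf1 W'), hWW]
  have hDc : D.card = (SC G g M A P).card := by
    rw [hDdef, card_image_of_injective _ hfi, card_attach]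
  -- the family of sets
  set F1 : Finset (Finset V) := (univ.filter (fun p : V × V => p.1 ∉ A ∧ p.2 ∉ A ∧
    p.2 ≠ p.1 ∧ 2 * g < (cl G (insert p.1 A) p.2).card)).image
      (fun p => cl G (insert p.1 A) p.2) with hF1
  set F2 : Finset (Finset V) := P.image
    (fun y => cl G (A ∪ EE G g A) y ∩ P0 G g q h d A Y) with hF2
  have hF1c : F1.card ≤ Fintype.card V ^ 2 := by
    calc F1.card ≤ (univ.filter (fun p : V × V => p.1 ∉ A ∧ p.2 ∉ A ∧
          p.2 ≠ p.1 ∧ 2 * g < (cl G (insert p.1 A) p.2).card)).card := card_image_le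
      _ ≤ (univ : Finset (V × V)).card := card_filter_le _ _
      _ = Fintype.card V ^ 2 := by rw [card_univ, Fintype.card_prod, sq]
  have hF2c : F2.card ≤ Fintype.card V ^ 2 := by
    calc F2.card ≤ P.card := card_image_le
      _ ≤ Fintype.card V := card_le_univ P
      _ ≤ Fintype.card V ^ 2 := Nat.le_self_pow (by norm_num) _
  have hFc : (F1 ∪ F2).card ≤ 2 * Fintype.card V ^ 2 := by
    have := card_union_le F1 F2
    omega
  have hFS : ∀ S ∈ F1 ∪ F2, 2 * g < S.card := by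
    intro S hS
    rcases mem_union.mp hS with hS | hS
    · obtain ⟨p, hp, rfl⟩ := mem_image.mp hS
      exact (mem_filter.mp hp).2.2.2.2
    · obtain ⟨y, hy, rfl⟩ := mem_image.mp hS
      have h1 := (mem_filter.mp (hPP hy)).2
      have h2 := (mem_filter.mp (hPA y hy)).2.2
      show 2 * g < (cl G (A ∪ EE G g A) y ∩ P0 G g q h d A Y).card
      omega
  obtain ⟨Z0, hZD, hZc, hZF⟩ := h_NIC V D (F1 ∪ F2) g hFS (by omega)
  have hkZ : k ≤ Z0.card := by
    rw [hDc] at hZc
    omega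
  obtain ⟨Z, hZZ, hZk⟩ := exists_subset_card_eq hkZ
  have hZF' : ∀ S ∈ F1 ∪ F2, g < (S \ Z).card := fun S hS =>
    lt_of_lt_of_le (hZF S hS) (card_le_card (sdiff_subset_sdiff (Subset.refl S) hZZ))
  refine ⟨Z, hZk, ?_, ?_⟩
  · intro z y hz hy hyz hc
    refine hZF' (cl G (insert z A) y) (mem_union_left _ ?_)
    exact mem_image.mpr ⟨(z, y), mem_filter.mpr ⟨mem_univ _, hz, hy, hyz, hc⟩, rfl⟩
  · intro v hv
    obtain ⟨W, -, hWv⟩ := mem_image.mp (hZD (hZZ hv))
    have hvW : v ∈ W.1 := hWv ▸ hf1 W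
    have hvP : v ∈ P := hWP W.1 W.2 hvW
    refine ⟨hPP hvP, ?_, W.1, ?_⟩
    · exact hZF' _ (mem_union_right _ (mem_image.mpr ⟨v, hvP, rfl⟩))
    · obtain ⟨y, hy, hyW, hcM, hcl⟩ := mem_SC G g M A P W.1 W.2
      refine ⟨fun a ha => hPA a (hWP W.1 W.2 ha), hcl, hcM, hvW, ?_, ?_⟩
      · ext t
        rw [mem_inter, mem_singleton]
        constructor
        · rintro ⟨htW, htZ⟩
          obtain ⟨W', -, hWt⟩ := mem_image.mp (hZD (hZZ htZ))
          have htW' : t ∈ W'.1 := hWt ▸ hf1 W'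
          have hWW : W = W' := by
            apply Subtype.ext
            rw [← hWe W.1 W.2 t htW, ← hWe W'.1 W'.2 t htW']
          rw [← hWt, ← hWv, hWW]
        · rintro rfl
          exact ⟨hvW, hv⟩
      · have := hf2 W
        rw [hWv] at this
        exact this

end Pool.Agent.NRR
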