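import Pool.Agent.NRR.Targets

/-!
# NRR, ZE2: choice of `Z` on the other levels
-/

set_option autoImplicit false

open Finset Classical

namespace Pool.Agent.NRR

open Pool.Agent Pool.Agent.Lib.Recon Pool.Agent.RNB Pool.Agent.NRC Pool.Agent.NRM
  Pool.Agent.NRP

namespace ZE2_

variable {V : Type} [Fintype V]

lemma mem_cl {G : SimpleGraph V} {B : Finset V} {v y : V} :
    y ∈ cl G B v ↔ y ∉ B ∧ ∀ b ∈ B, (G.Adj b v ↔ G.Adj b y) := by
  unfold cl
  simp

lemma sz_anti {G : SimpleGraph V} {A Z Z' : Finset V} (h : Z ⊆ Z') (z y : V) :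
    (sz G A Z' z y).card ≤ (sz G A Z z y).card := by
  unfold sz
  exact card_le_card (sdiff_subset_sdiff (Subset.refl _) h)

lemma ncz_anti {G : SimpleGraph V} {g : ℕ} {A Z Z' : Finset V} (h : Z ⊆ Z')
    (hN : Ncz G g A Z') : Ncz G g A Z := by
  intro z y hz hy hyz
  obtain ⟨h1, h2⟩ := hN z y hz hy hyz
  have h3 := sz_anti (G := G) (A := A) h z y
  exact ⟨fun h4 => (h1 h4).trans_le h3, fun h4 => h2 (h3.trans h4)⟩

end ZE2_

open ZE2_ in
theorem p_ZE2 (h1 : T_NCP) (h2 : T_NIZ) (h3 : T_THN) (h4 : T_IDS) : T_ZE2 := by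
  intro V _ G g d M k A B P I hI hn hP hNr hcard
  obtain ⟨D, W, hDc, hDW⟩ := h1 V I P M hI
  obtain ⟨Z0, hZ0D, hZ0c, hZ0N⟩ := h2 V G g A D hn
  have hDP : ∀ v ∈ D, v ∈ P := fun v hv => (hDW v hv).1 (hDW v hv).2.1.2.2.1
  obtain ⟨Z1, u, hZ1, hZ1c, hu, huinj, hhalf⟩ := h3 V G B Z0
    fun x hx => hP x (hDP x (hZ0D hx))
  have hS : ∀ v ∈ Z1, (Z1 ∩ Z1.filter (fun v' => v' ∈ dset G (u v) v ∨
      u v' ∈ dset G (u v) v)).card ≤ 2 * d := by
    intro v hv
    obtain ⟨hu1, hu2⟩ := hu v hv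
    rw [mem_cl] at hu1
    have hne : u v ≠ v := fun e => hu2 (by rw [e]; exact hv)
    have hd : (dset G (u v) v).card < d := hNr (u v) v hu1.1 (hP v (hDP v (hZ0D (hZ1 hv)))).1
      hne fun a ha => (hu1.2 a ha).symm
    have hsub : Z1 ∩ Z1.filter (fun v' => v' ∈ dset G (u v) v ∨ u v' ∈ dset G (u v) v) ⊆
        Z1.filter (fun v' => v' ∈ dset G (u v) v) ∪
          Z1.filter (fun v' => u v' ∈ dset G (u v) v) := by
      intro x hx
      rw [mem_inter, mem_filter] at hx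
      rw [mem_union, mem_filter, mem_filter]
      rcases hx.2.2 with h | h
      · exact Or.inl ⟨hx.1, h⟩
      · exact Or.inr ⟨hx.1, h⟩
    have c1 : (Z1.filter (fun v' => v' ∈ dset G (u v) v)).card ≤ (dset G (u v) v).card :=
      card_le_card fun x hx => (mem_filter.1 hx).2
    have c2 : (Z1.filter (fun v' => u v' ∈ dset G (u v) v)).card ≤ (dset G (u v) v).card := by
      refine card_le_card_of_injOn u (fun x hx => ?_) fun x hx y hy hxy => ?_
      · have hx' := mem_filter.1 (mem_coe.1 hx)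
        exact hx'.2
      · have hx' := mem_filter.1 (mem_coe.1 hx)
        have hy' := mem_filter.1 (mem_coe.1 hy)
        exact huinj x hx'.1 y hy'.1 hxy
    have c3 := (card_le_card hsub).trans (card_union_le _ _)
    omega
  obtain ⟨Z2, hZ2, hZ2c, hind⟩ := h4 V Z1 (fun v => Z1.filter (fun v' => v' ∈ dset G (u v) v ∨
      u v' ∈ dset G (u v) v)) (2 * d) hS
  have hk : k ≤ Z2.card := by
    have e1 : 24 * (4 * d + 1) * k ≤ 24 * (4 * d + 1) * Z2.card := by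
      calc 24 * (4 * d + 1) * k ≤ D.card := by rw [hDc]; exact hcard
        _ ≤ 8 * Z0.card := hZ0c
        _ ≤ 8 * (3 * Z1.card) := Nat.mul_le_mul_left _ hZ1c
        _ ≤ 8 * (3 * ((2 * (2 * d) + 1) * Z2.card)) :=
          Nat.mul_le_mul_left _ (Nat.mul_le_mul_left _ hZ2c)
        _ = 24 * (4 * d + 1) * Z2.card := by ring
    exact Nat.le_of_mul_le_mul_left e1 (by positivity)
  obtain ⟨Z, hZ, hZk⟩ := exists_subset_card_eq hk
  have hZZ1 : Z ⊆ Z1 := hZ.trans hZ2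
  have hZD : Z ⊆ D := hZZ1.trans (hZ1.trans hZ0D)
  refine ⟨Z, u, W, hZk, fun v hv => hDP v (hZD hv), ncz_anti (hZZ1.trans hZ1) hZ0N,
    fun y => ?_, fun v hv => ?_⟩
  · have h6 : (cl G B y ∩ Z).card ≤ (cl G B y ∩ Z1).card :=
      card_le_card (inter_subset_inter (Subset.refl _) hZZ1)
    have h5 := hhalf y
    omega
  · obtain ⟨w1, w2, w3⟩ := hDW v (hZD hv)
    obtain ⟨u1, u2⟩ := hu v (hZZ1 hv)
    refine ⟨w1, ?_, w2, fun h => u2 (hZZ1 h), u1, fun v' hv' hne => ⟨?_, ?_, ?_⟩⟩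
    · ext x
      rw [mem_inter, mem_singleton]
      constructor
      · rintro ⟨hx1, hx2⟩
        exact w3 x (hZD hx2) hx1
      · rintro rfl
        exact ⟨w2.2.2.1, hv⟩
    · intro h
      exact hind v (hZ hv) v' (hZ hv') hne (mem_filter.2 ⟨hZZ1 hv', Or.inl h⟩)
    · intro h
      exact hind v' (hZ hv') v (hZ hv) (Ne.symm hne) (mem_filter.2 ⟨hZZ1 hv, Or.inr h⟩)
    · intro h
      exact hne (huinj v' (hZZ1 hv') v (hZZ1 hv) h.symm)

end Pool.Agent.NRR
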