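import Pool.Agent.NRP.All
import Pool.Agent.NRM.All
import Pool.Agent.NRR.P_ALR
import Pool.Agent.NRR.P_AV1
import Pool.Agent.NRR.P_AVR
import Pool.Agent.NRR.P_AZ2
import Pool.Agent.NRR.P_BN1
import Pool.Agent.NRR.P_CDZ
import Pool.Agent.NRR.P_CT1
import Pool.Agent.NRR.P_CTZ
import Pool.Agent.NRR.P_HLR
import Pool.Agent.NRR.P_HNZ
import Pool.Agent.NRR.P_IDS
import Pool.Agent.NRR.P_INR
import Pool.Agent.NRR.P_INZ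
import Pool.Agent.NRR.P_ITK
import Pool.Agent.NRR.P_LK1
import Pool.Agent.NRR.P_LVK
import Pool.Agent.NRR.P_LVY
import Pool.Agent.NRR.P_MCZ
import Pool.Agent.NRR.P_NAZ
import Pool.Agent.NRR.P_NBR
import Pool.Agent.NRR.P_NCP
import Pool.Agent.NRR.P_NIZ
import Pool.Agent.NRR.P_NLK
import Pool.Agent.NRR.P_ONR
import Pool.Agent.NRR.P_RSZ
import Pool.Agent.NRR.P_SPZ
import Pool.Agent.NRR.P_STK
import Pool.Agent.NRR.P_SUR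
import Pool.Agent.NRR.P_THN
import Pool.Agent.NRR.P_ZE1
import Pool.Agent.NRR.P_ZE2

/-!
# NRR: composition
-/

set_option autoImplicit false

namespace Pool.Agent.NRR

open Pool.Agent

theorem a_LVY : T_LVY := p_LVY NRP.a_LEV NRP.p_SLR (NRP.p_NRD NRP.p_ARR) (NRP.p_RMK NRP.p_PW)

theorem a_LVK : T_LVK := p_LVK a_LVY NRP.p_CBN

theorem a_STK : T_STK :=
  p_STK a_LVK NRP.a_LVT NRP.a_ECO NRP.p_CLO NRP.p_NUM NRP.p_XBD NRP.p_CBN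

theorem a_ITK : T_ITK := p_ITK a_STK NRP.p_NUM NRP.p_PW

theorem a_LK1 : T_LK1 := p_LK1 a_LVK NRP.p_CBS NRP.p_XBD NRM.p_LPP NRM.p_ELM NRQ.p_ZZC

theorem a_CTZ : T_CTZ := p_CTZ (p_RSZ p_HNZ) p_INZ

theorem a_MCZ : T_MCZ := p_MCZ (p_CDZ p_NAZ p_SPZ)

theorem a_ZE2 : T_ZE2 := p_ZE2 (p_NCP NRC.p_NCV) (p_NIZ NRM.p_NIC) p_THN p_IDS

theorem a_AZ2 : T_AZ2 := p_AZ2 a_ZE2 a_MCZ (NRP.p_SYS NRP.p_ARR) NRP.a_LVT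

theorem a_ZE1 : T_ZE1 := p_ZE1 NRC.p_NCV NRC.p_SYM NRM.p_NIC

theorem a_ONR : T_ONR :=
  p_ONR a_LK1 a_ITK p_NLK a_ZE1 a_AZ2 NRM.a_MGD NRM.p_RCM NRP.a_DON NRP.p_NLV NRP.c_RIC

theorem a_HLR : T_HLR := p_HLR a_ONR

theorem a_AVR : T_AVR := p_AVR a_HLR a_CTZ NRM.p_CTM NRC.p_NPA

theorem a_ALR : T_ALR := p_ALR a_AVR p_NBR NRM.p_MAX HER47.p_CODE

theorem a_SUR : T_SUR := p_SUR a_ALR

theorem a_INR : T_INR := p_INR a_ALR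

theorem a_AV1 : T_AV1 := p_AV1 p_CT1 NRP.a_HLQ NRM.p_RCM NRP.c_DCQ NRQ.p_DC1

theorem a_BN1 : T_BN1 := p_BN1 a_AV1 NRP.p_NBQ HER47.p_CODE

end Pool.Agent.NRR
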