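import Pool.Agent.NRP.TargetsF
import Pool.Agent.NRM.Targets

/-!
# NRR: hereditary classes at the factorial layer (MP_552896_co): definitions

The method of NRP when a set `Z` of many vertices is removed. `sz G A Z z y` (NRM) = the side
`cl G (insert z A) y` without `Z`.
-/

set_option autoImplicit false

open Finset Classical

namespace Pool.Agent.NRR

open Pool.Agent Pool.Agent.Lib.Recon Pool.Agent.RNB Pool.Agent.NRC Pool.Agent.NRM
  Pool.Agent.NRP

variable {V : Type} [Fintype V]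

/-- the arrows into `y` in the graph without `Z` -/
noncomputable def inz (G : SimpleGraph V) (k : ℕ) (A Z : Finset V) (y : V) : Finset V :=
  univ.filter (fun z => z ∉ A ∧ z ∉ Z ∧ z ≠ y ∧ (sz G A Z z y).card ≤ k)

/-- the vertices which cut some class of the graph without `Z` into two large sides -/
noncomputable def EEz (G : SimpleGraph V) (g : ℕ) (A Z : Finset V) : Finset V :=
  univ.filter (fun z => z ∉ A ∧ z ∉ Z ∧ ∃ y y', y ∉ A ∧ y ≠ z ∧ y ∉ Z ∧ y' ≠ z ∧ y' ∉ Z ∧
    y' ∈ cl G A y ∧ ¬ (G.Adj z y ↔ G.Adj z y') ∧ g < (sz G A Z z y).card ∧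
    g < (sz G A Z z y').card)

/-- the refined class of `y` in the graph without `Z` -/
noncomputable def rcz (G : SimpleGraph V) (g : ℕ) (A Z : Finset V) (y : V) : Finset V :=
  cl G (A ∪ EEz G g A Z) y \ Z

/-- `b` is hinted from `a` in the graph without `Z` -/
def Hnz (G : SimpleGraph V) (g h q d : ℕ) (A Z : Finset V) (a b : V) : Prop :=
  b ∉ Z ∧
  (((inz G (4 * g) A Z a).card ≤ h ∧ (b ∈ inz G (4 * g) A Z a ∨
      ∃ t ∈ inz G (4 * g) A Z a, ∃ a' ∈ sz G A Z t a,
        (dset G a a' \ Z).card ≤ d ∧ b ∈ dset G a a')) ∨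
    ((rcz G g A Z a).card ≤ q ∧ ∃ a' ∈ rcz G g A Z a,
        (dset G a a' \ Z).card ≤ d ∧ b ∈ dset G a a'))

/-- the vertices hinted from `a` in at most `s` steps -/
noncomputable def RSz (G : SimpleGraph V) (g h q d : ℕ) (A Z : Finset V) :
    ℕ → V → Finset V
  | 0, a => {a}
  | s + 1, a => RSz G g h q d A Z s a ∪
      univ.filter (fun b => ∃ c ∈ RSz G g h q d A Z s a, Hnz G g h q d A Z c b)

/-- the neighbours of all vertices of `Z` are described by codes with hints -/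
def CdM (G : SimpleGraph V) (g h q d s : ℕ) (A Z : Finset V) : Prop :=
  (∀ v ∈ Z, v ∉ A) ∧ ∃ (w u : V → V) (b : V → Bool) (D : V → Finset V), ∀ v ∈ Z,
    w v ∉ Z ∧ u v ∉ Z ∧ (D v).card ≤ d ∧
    D v ⊆ RSz G g h q d A Z s (w v) ∪ RSz G g h q d A Z s (u v) ∧
    (∀ z, z ∉ Z → (G.Adj z v ↔
      if z = u v then b v = true else if z ∈ D v then ¬ G.Adj z (u v) else G.Adj z (u v))) ∧
    ∀ v' ∈ Z, v' ≠ v → (G.Adj v' v ↔ G.Adj (u v') (u v))

/-- large sides stay large outside `Z` -/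
def Ncz (G : SimpleGraph V) (g : ℕ) (A Z : Finset V) : Prop :=
  ∀ z y, z ∉ A → y ∉ A → y ≠ z →
    (2 * g < (cl G (insert z A) y).card → g < (sz G A Z z y).card) ∧
    ((sz G A Z z y).card ≤ 4 * g → (cl G (insert z A) y).card ≤ 8 * g + 3)

/-- the small closed components -/
noncomputable def SCP (I : V → Finset V) (P : Finset V) (M : ℕ) : Finset (Finset V) :=
  (P.filter (fun y => (cmp I P y).card ≤ M ∧ ∀ a ∈ cmp I P y, I a ⊆ cmp I P y)).image
    (cmp I P)

/-- `v` is a vertex of the small closed set `W`, not a cut vertex -/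
def Atz (I : V → Finset V) (M : ℕ) (W : Finset V) (v : V) : Prop :=
  (∀ y ∈ W, I y ⊆ W) ∧ W.card ≤ M ∧ v ∈ W ∧
    (W = {v} ∨ ∃ w ∈ W, w ≠ v ∧ ∀ y ∈ W, y ≠ v →
      Relation.ReflTransGen (fun a b => b ∈ W ∧ b ≠ v ∧ b ∈ I a) w y)

/-- the number of removed vertices -/
def kR (n : ℕ) : ℕ := n / pL n ^ 3

/-- the number of small closed components which are met by roots on one level -/
def kS (n : ℕ) : ℕ := n / (1000 * pL n ^ 2)

/-- `C` has at least `n ^ (A0 n)` members on `n` vertices -/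
def Big3 (A0 : ℝ) (C : HER47.Cls) (n : ℕ) : Prop :=
  (n : ℝ) ^ (A0 * n) ≤ (HER47.cn C n : ℝ)

end Pool.Agent.NRR
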