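import Pool.Agent.NRR.Targets
import Pool.Agent.HER47.P_UNI

/-!
# NRR: hereditary classes with `n ^ (A n)` members
-/

set_option autoImplicit false

namespace Pool.Agent.NRR

open Pool.Agent Finset Classical

/-- `Big3` is monotone in the constant. -/
theorem Big3_mono {A B : ℝ} (h : A ≤ B) {C : HER47.Cls} {n : ℕ} (hB : Big3 B C n) :
    Big3 A C n := by
  unfold Big3 at *
  rcases Nat.eq_zero_or_pos n with rfl | hn
  · simpa using hB
  · refine le_trans ?_ hB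
    refine Real.rpow_le_rpow_of_exponent_le (by exact_mod_cast hn) ?_
    exact mul_le_mul_of_nonneg_right h (Nat.cast_nonneg _)

/-- **Hereditary classes at the factorial layer.** -/
theorem final_three (h_SUR : T_SUR) (h_INR : T_INR) (h_BN1 : T_BN1) : ∃ A : ℝ, 0 < A ∧
    (∀ C : HER47.Cls, HER47.Her C → ∀ n : ℕ, 2 ≤ n →
      (HER47.bn C n : ℝ) ≤ (n : ℝ) ^ A * (HER47.cn C (n - 1) : ℝ)) ∧
    (∀ C : HER47.Cls, HER47.Her C →
      ((∀ (V W : Type) [Finite V] [Finite W] (G : SimpleGraph V) (H : SimpleGraph W),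
        C V G → C W H → C (V ⊕ W) (G ⊕g H)) ∨
      (∀ (V W : Type) [Finite V] [Finite W] (G : SimpleGraph V) (H : SimpleGraph W),
        C V G → C W H → C (V ⊕ W) ((Gᶜ ⊕g Hᶜ)ᶜ))) →
      (∃ N : ℕ, ∀ n : ℕ, N ≤ n → Big3 A C n) → ∃ N : ℕ, ∀ n : ℕ, N ≤ n →
        (2 : ℝ) ^ ((n : ℝ) / Real.logb 2 n ^ 3) * (HER47.bn C n : ℝ) ≤ (HER47.cn C n : ℝ)) ∧
    (∀ C : HER47.Cls, HER47.Her C → (∀ N : ℕ, ∃ n : ℕ, N ≤ n ∧ Big3 A C n) →
      ∀ N : ℕ, ∃ n : ℕ, N ≤ n ∧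
        (2 : ℝ) ^ ((n : ℝ) / Real.logb 2 n ^ 3) * (HER47.bn C n : ℝ) ≤
          (HER47.cn C n : ℝ)) := by
  obtain ⟨A1, h1, hS⟩ := h_SUR
  obtain ⟨A2, h2, hI⟩ := h_INR
  obtain ⟨A3, hB1⟩ := h_BN1
  refine ⟨max (max A1 A2) A3, lt_max_of_lt_left (lt_max_of_lt_left h1), fun C hC n hn => ?_,
    fun C hC hU hB => ?_, fun C hC hB => ?_⟩
  · obtain ⟨m, rfl⟩ : ∃ m, n = m + 1 := ⟨n - 1, by omega⟩
    have h := hB1 C hC m (by omega)
    rw [Nat.add_sub_cancel]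
    have h' : (HER47.bn C (m + 1) : ℝ) ≤ ((m + 1 : ℕ) : ℝ) ^ (A3 : ℝ) *
        (HER47.cn C m : ℝ) := by
      rw [Real.rpow_natCast]
      exact_mod_cast h
    refine h'.trans (mul_le_mul_of_nonneg_right ?_ (Nat.cast_nonneg _))
    refine Real.rpow_le_rpow_of_exponent_le ?_ (le_max_right _ _)
    exact_mod_cast (by omega : 1 ≤ m + 1)
  · obtain ⟨N, hN⟩ := hB
    exact hS C hC (HER47.p_UNI C hC hU) ⟨N, fun n hn => Big3_mono
      ((le_max_left _ _).trans (le_max_left _ _)) (hN n hn)⟩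
  · refine hI C hC fun N => ?_
    obtain ⟨n, hn, h⟩ := hB N
    exact ⟨n, hn, Big3_mono ((le_max_right _ _).trans (le_max_left _ _)) h⟩

end Pool.Agent.NRR
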