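import Pool.Agent.NRR.Targets

/-!
# NRR, INZ: everything is computed without the set `Z`
-/

set_option autoImplicit false

open Finset Classical

namespace Pool.Agent.NRR

open Pool.Agent Pool.Agent.Lib.Recon Pool.Agent.RNB Pool.Agent.NRC Pool.Agent.NRM
  Pool.Agent.NRP

namespace INZ_

variable {V : Type}

/-- `F` and `K` have the same edges outside `Z` -/
def Ofz (F K : SimpleGraph V) (Z : Finset V) : Prop :=
  ∀ x y, x ∉ Z → y ∉ Z → (K.Adj x y ↔ F.Adj x y)

theorem Ofz_symm {F K : SimpleGraph V} {Z : Finset V} (h : Ofz F K Z) : Ofz K F Z :=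
  fun x y hx hy => (h x y hx hy).symm

variable [Fintype V]

theorem cl_iff {F K : SimpleGraph V} {Z : Finset V} (h : Ofz F K Z) {B : Finset V}
    (hB : ∀ b ∈ B, b ∉ Z) {y x : V} (hy : y ∉ Z) (hx : x ∉ Z) :
    x ∈ cl K B y ↔ x ∈ cl F B y := by
  simp only [cl, mem_filter, mem_univ, true_and]
  refine and_congr_right fun _ => forall₂_congr fun b hb => ?_
  rw [h b y (hB b hb) hy, h b x (hB b hb) hx]

theorem cl_sdiff {F K : SimpleGraph V} {Z : Finset V} (h : Ofz F K Z) {B : Finset V}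
    (hB : ∀ b ∈ B, b ∉ Z) {y : V} (hy : y ∉ Z) : cl K B y \ Z = cl F B y \ Z := by
  ext x
  simp only [mem_sdiff]
  exact and_congr_left fun hx => cl_iff h hB hy hx

omit [Fintype V] in
theorem nmem_of {A Z : Finset V} (hA : ∀ v ∈ Z, v ∉ A) : ∀ b ∈ A, b ∉ Z :=
  fun b hb hbZ => hA b hbZ hb

theorem sz_eq {F K : SimpleGraph V} {Z : Finset V} (h : Ofz F K Z) {A : Finset V}
    (hA : ∀ v ∈ Z, v ∉ A) {z y : V} (hz : z ∉ Z) (hy : y ∉ Z) :
    sz K A Z z y = sz F A Z z y := by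
  unfold sz
  refine cl_sdiff h ?_ hy
  intro b hb
  rcases mem_insert.1 hb with rfl | hb
  · exact hz
  · exact nmem_of hA b hb

theorem inz_eq {F K : SimpleGraph V} {Z : Finset V} (h : Ofz F K Z) {A : Finset V}
    (hA : ∀ v ∈ Z, v ∉ A) (k : ℕ) {a : V} (ha : a ∉ Z) : inz K k A Z a = inz F k A Z a := by
  ext z
  simp only [inz, mem_filter, mem_univ, true_and]
  refine and_congr_right fun _ => and_congr_right fun hz => and_congr_right fun _ => ?_
  rw [sz_eq h hA hz ha]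

theorem EEz_sub {F K : SimpleGraph V} {Z : Finset V} (h : Ofz F K Z) {A : Finset V}
    (hA : ∀ v ∈ Z, v ∉ A) (g : ℕ) : EEz K g A Z ⊆ EEz F g A Z := by
  intro z
  simp only [EEz, mem_filter, mem_univ, true_and]
  rintro ⟨z1, z2, y, y', a1, a2, a3, a4, a5, a6, a7, a8, a9⟩
  refine ⟨z1, z2, y, y', a1, a2, a3, a4, a5, (cl_iff h (nmem_of hA) a3 a5).1 a6, ?_, ?_, ?_⟩
  · rw [← h z y z2 a3, ← h z y' z2 a5]
    exact a7
  · rw [← sz_eq h hA z2 a3]
    exact a8
  · rw [← sz_eq h hA z2 a5]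
    exact a9

theorem EEz_eq {F K : SimpleGraph V} {Z : Finset V} (h : Ofz F K Z) {A : Finset V}
    (hA : ∀ v ∈ Z, v ∉ A) (g : ℕ) : EEz K g A Z = EEz F g A Z :=
  Subset.antisymm (EEz_sub h hA g) (EEz_sub (Ofz_symm h) hA g)

theorem EEz_nmem (F : SimpleGraph V) (g : ℕ) (A Z : Finset V) : ∀ b ∈ EEz F g A Z, b ∉ Z := by
  intro b h
  simp only [EEz, mem_filter, mem_univ, true_and] at h
  exact h.2.1

theorem rcz_eq {F K : SimpleGraph V} {Z : Finset V} (h : Ofz F K Z) {A : Finset V}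
    (hA : ∀ v ∈ Z, v ∉ A) (g : ℕ) {a : V} (ha : a ∉ Z) :
    rcz K g A Z a = rcz F g A Z a := by
  unfold rcz
  rw [EEz_eq h hA g]
  refine cl_sdiff h ?_ ha
  intro b hb
  rcases mem_union.1 hb with hb | hb
  · exact nmem_of hA b hb
  · exact EEz_nmem F g A Z b hb

theorem dset_iff {F K : SimpleGraph V} {Z : Finset V} (h : Ofz F K Z) {a a' b : V}
    (ha : a ∉ Z) (ha' : a' ∉ Z) (hb : b ∉ Z) : b ∈ dset K a a' ↔ b ∈ dset F a a' := by
  simp only [dset, mem_filter, mem_univ, true_and]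
  rw [h b a hb ha, h b a' hb ha']

theorem dset_sdiff {F K : SimpleGraph V} {Z : Finset V} (h : Ofz F K Z) {a a' : V}
    (ha : a ∉ Z) (ha' : a' ∉ Z) : dset K a a' \ Z = dset F a a' \ Z := by
  ext x
  simp only [mem_sdiff]
  exact and_congr_left fun hx => dset_iff h ha ha' hx

theorem Hnz_imp {F K : SimpleGraph V} {Z : Finset V} (h : Ofz F K Z) {A : Finset V}
    (hA : ∀ v ∈ Z, v ∉ A) {g k q d : ℕ} {a b : V} (ha : a ∉ Z)
    (H : Hnz K g k q d A Z a b) : Hnz F g k q d A Z a b := by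
  obtain ⟨hb, H⟩ := H
  refine ⟨hb, ?_⟩
  rcases H with ⟨h1, h2⟩ | ⟨h1, a', h2, h3, h4⟩
  · rw [inz_eq h hA _ ha] at h1 h2
    refine Or.inl ⟨h1, ?_⟩
    rcases h2 with h2 | ⟨t, ht, a', ha', h3, h4⟩
    · exact Or.inl h2
    · have htv : t ∉ Z := by
        simp only [inz, mem_filter, mem_univ, true_and] at ht
        exact ht.2.1
      have hav : a' ∉ Z := (mem_sdiff.1 ha').2
      rw [sz_eq h hA htv ha] at ha'
      rw [dset_sdiff h ha hav] at h3
      exact Or.inr ⟨t, ht, a', ha', h3, (dset_iff h ha hav hb).1 h4⟩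
  · have hav : a' ∉ Z := (mem_sdiff.1 h2).2
    rw [rcz_eq h hA g ha] at h1 h2
    rw [dset_sdiff h ha hav] at h3
    exact Or.inr ⟨h1, a', h2, h3, (dset_iff h ha hav hb).1 h4⟩

theorem Hnz_iff {F K : SimpleGraph V} {Z : Finset V} (h : Ofz F K Z) {A : Finset V}
    (hA : ∀ v ∈ Z, v ∉ A) {g k q d : ℕ} {a b : V} (ha : a ∉ Z) :
    Hnz K g k q d A Z a b ↔ Hnz F g k q d A Z a b :=
  ⟨Hnz_imp h hA ha, Hnz_imp (Ofz_symm h) hA ha⟩

theorem RSz_nmem {F : SimpleGraph V} {A Z : Finset V} {g k q d : ℕ} {a : V} (ha : a ∉ Z) :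
    ∀ (s : ℕ), ∀ c ∈ RSz F g k q d A Z s a, c ∉ Z := by
  intro s
  induction s with
  | zero =>
    intro c hc
    rw [RSz, mem_singleton] at hc
    rw [hc]
    exact ha
  | succ s ih =>
    intro c hc
    rw [RSz, mem_union] at hc
    rcases hc with hc | hc
    · exact ih c hc
    · simp only [mem_filter, mem_univ, true_and] at hc
      obtain ⟨c', -, hc'⟩ := hc
      exact hc'.1

end INZ_

open INZ_ in
theorem p_INZ : T_INZ := by
  intro V _ F K g h q d A Z hA hF s a ha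
  induction s with
  | zero => rfl
  | succ s ih =>
    rw [RSz, RSz, ih]
    congr 1
    ext b
    simp only [mem_filter, mem_univ, true_and]
    refine exists_congr fun c => and_congr_right fun hc => ?_
    exact Hnz_iff hF hA (RSz_nmem ha s c hc)

end Pool.Agent.NRR
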