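import Pool.Agent.NRR.Targets

/-!
# NRR, target SUR: all large n
-/

set_option autoImplicit false

open Finset Classical

namespace Pool.Agent.NRR

open Pool.Agent Pool.Agent.Lib.Recon Pool.Agent.RNB Pool.Agent.NRC Pool.Agent.NRM
  Pool.Agent.NRP

namespace SUR_

lemma pow_ge (L : ℕ) (hL : 40 ≤ L) : 4 * L ^ 6 ≤ 2 ^ (L - 1) := by
  obtain ⟨j, rfl⟩ := Nat.exists_eq_add_of_le hL
  rw [show 40 + j - 1 = 39 + j by omega]
  induction j with
  | zero => norm_num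
  | succ j ih =>
    have ih := ih (by omega)
    have e : 2 ^ (39 + (j + 1)) = 2 * 2 ^ (39 + j) := by rw [← add_assoc, pow_succ]; ring
    have e2 : (40 + (j + 1)) ^ 6 ≤ 2 * (40 + j) ^ 6 := by
      have h1 : (40 * (40 + (j + 1))) ^ 6 ≤ (41 * (40 + j)) ^ 6 :=
        Nat.pow_le_pow_left (by omega) 6
      rw [mul_pow, mul_pow] at h1
      have h4 : 41 ^ 6 * (40 + j) ^ 6 ≤ 40 ^ 6 * (2 * (40 + j) ^ 6) := by
        calc 41 ^ 6 * (40 + j) ^ 6 ≤ (2 * 40 ^ 6) * (40 + j) ^ 6 :=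
              Nat.mul_le_mul_right _ (by norm_num)
          _ = _ := by ring
      exact Nat.le_of_mul_le_mul_left (h1.trans h4) (by norm_num)
    rw [e]
    calc 4 * (40 + (j + 1)) ^ 6 ≤ 4 * (2 * (40 + j) ^ 6) := Nat.mul_le_mul_left _ e2
      _ = 2 * (4 * (40 + j) ^ 6) := by ring
      _ ≤ _ := Nat.mul_le_mul_left _ ih

lemma base {n : ℕ} (h : 40 ≤ pL n) : 2 ^ (pL n - 1) ≤ n ∧ n < 2 ^ pL n ∧ 4 * pL n ^ 6 ≤ n ∧
    n < pL n ^ 3 * (kR n + 1) ∧ 1 ≤ kR n := by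
  have hn0 : n ≠ 0 := by
    rintro rfl
    simp [pL] at h
  have h1 : 2 ^ (pL n - 1) ≤ n := by
    show 2 ^ (Nat.log 2 n + 1 - 1) ≤ n
    rw [Nat.add_sub_cancel]
    exact Nat.pow_log_le_self 2 hn0
  have h2 : n < 2 ^ pL n := Nat.lt_pow_succ_log_self one_lt_two n
  have h3 : 4 * pL n ^ 6 ≤ n := (pow_ge _ h).trans h1
  have hL3 : 0 < pL n ^ 3 := by positivity
  have h4 : n < pL n ^ 3 * (kR n + 1) := Nat.lt_mul_div_succ n hL3
  refine ⟨h1, h2, h3, h4, ?_⟩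
  show 1 ≤ n / pL n ^ 3
  rw [Nat.le_div_iff_mul_le hL3]
  have h5 : pL n ^ 3 ≤ pL n ^ 6 := Nat.pow_le_pow_right (by omega) (by norm_num)
  omega

lemma big_r {n r : ℕ} (h : 40 ≤ pL n) (hr : kR n ≤ r) : n ≤ r ^ 2 := by
  obtain ⟨h1, h2, h3, h4, h5⟩ := base h
  have h6 : n ≤ 2 * pL n ^ 3 * r := by
    calc n ≤ pL n ^ 3 * (kR n + 1) := h4.le
      _ ≤ pL n ^ 3 * (2 * r) := Nat.mul_le_mul_left _ (by omega)
      _ = 2 * pL n ^ 3 * r := by ring
  have hn0 : 0 < n := lt_of_lt_of_le (by positivity) h1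
  have a2 : n * n ≤ n * r ^ 2 := by
    calc n * n ≤ (2 * pL n ^ 3 * r) * (2 * pL n ^ 3 * r) := Nat.mul_le_mul h6 h6
      _ = (4 * pL n ^ 6) * r ^ 2 := by ring
      _ ≤ n * r ^ 2 := Nat.mul_le_mul_right _ h3
  exact Nat.le_of_mul_le_mul_left a2 hn0

lemma big (C0 : ℕ) (C : HER47.Cls) {n r : ℕ} (h : 40 ≤ pL n) (hr : kR n ≤ r)
    (hB : Big3 (8 * ((C0 : ℝ) + 1)) C r) :
    2 ^ ((C0 + 1) * pL n * r) ≤ HER47.cn C r := by
  have g1 := big_r h hr
  obtain ⟨h1, -, -, -, -⟩ := base h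
  unfold Big3 at hB
  have hr0 : (0 : ℝ) ≤ r := Nat.cast_nonneg r
  have hL : (40 : ℝ) ≤ pL n := by exact_mod_cast h
  have hn2 : (2 : ℝ) ^ ((pL n : ℝ) / 4) ≤ r := by
    refine le_of_pow_le_pow_left₀ (n := 2) (by norm_num) hr0 ?_
    have e1 : ((2 : ℝ) ^ ((pL n : ℝ) / 4)) ^ 2 = (2 : ℝ) ^ ((pL n : ℝ) / 2) := by
      rw [← Real.rpow_natCast, ← Real.rpow_mul (by norm_num)]
      congr 1
      push_cast
      ring
    rw [e1]
    have e2 : (2 : ℝ) ^ ((pL n : ℝ) / 2) ≤ (2 : ℝ) ^ ((pL n - 1 : ℕ) : ℝ) := by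
      refine Real.rpow_le_rpow_of_exponent_le (by norm_num) ?_
      rw [Nat.cast_sub (by omega)]
      push_cast
      linarith
    refine e2.trans ?_
    rw [Real.rpow_natCast]
    exact_mod_cast h1.trans g1
  have h2 : ((2 ^ ((C0 + 1) * pL n * r) : ℕ) : ℝ) ≤ (HER47.cn C r : ℝ) := by
    refine le_trans ?_ hB
    have e1 : ((2 ^ ((C0 + 1) * pL n * r) : ℕ) : ℝ) ≤
        ((2 : ℝ) ^ ((pL n : ℝ) / 4)) ^ (8 * ((C0 : ℝ) + 1) * r) := by
      rw [← Real.rpow_mul (by norm_num)]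
      push_cast
      rw [← Real.rpow_natCast]
      refine Real.rpow_le_rpow_of_exponent_le (by norm_num) ?_
      push_cast
      have : 0 ≤ ((C0 : ℝ) + 1) * pL n * r := by positivity
      nlinarith
    refine e1.trans ?_
    exact Real.rpow_le_rpow (by positivity) hn2 (by positivity)
  exact_mod_cast h2

lemma num {n : ℕ} (h : 40 ≤ pL n) :
    ((n : ℝ) + 1) * (2 : ℝ) ^ ((n : ℝ) / Real.logb 2 n ^ 3) ≤ 2 ^ (pL n * kR n) := by
  obtain ⟨h1, h2, h3, h4, h5⟩ := base h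
  set L : ℝ := (pL n : ℝ) with hL
  set k : ℝ := (kR n : ℝ) with hk
  have hL40 : (40 : ℝ) ≤ L := by rw [hL]; exact_mod_cast h
  have hn0 : (0 : ℝ) < n := by
    have : 0 < n := lt_of_lt_of_le (by positivity) h1
    exact_mod_cast this
  have r4 : (n : ℝ) < L ^ 3 * (k + 1) := by rw [hL, hk]; exact_mod_cast h4
  have r3 : 4 * L ^ 6 ≤ (n : ℝ) := by rw [hL]; exact_mod_cast h3
  have b1 : L - 1 ≤ Real.logb 2 n := by
    rw [Real.le_logb_iff_rpow_le one_lt_two hn0]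
    have e : L - 1 = ((pL n - 1 : ℕ) : ℝ) := by
      rw [Nat.cast_sub (by omega)]
      push_cast
      rfl
    rw [e, Real.rpow_natCast]
    exact_mod_cast h1
  have b2 : (L - 1) ^ 3 ≤ Real.logb 2 n ^ 3 := pow_le_pow_left₀ (by linarith) b1 3
  have b3 : 2 * L ^ 2 ≤ (L - 1) ^ 3 := by nlinarith [sq_nonneg (L - 1)]
  have hL2 : 0 < L ^ 2 := by positivity
  have b4 : (n : ℝ) / Real.logb 2 n ^ 3 ≤ n / (2 * L ^ 2) :=
    div_le_div_of_nonneg_left hn0.le (by positivity) (b3.trans b2)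
  have b5 : (n : ℝ) / (2 * L ^ 2) ≤ L * k - L := by
    rw [div_le_iff₀ (by positivity)]
    have c1 : 4 * L ^ 3 ≤ (n : ℝ) := by
      have : L ^ 3 * 1 ≤ L ^ 3 * L ^ 3 := by
        refine mul_le_mul_of_nonneg_left ?_ (by positivity)
        exact one_le_pow₀ (by linarith)
      nlinarith
    nlinarith
  have b6 : ((n : ℝ) + 1) ≤ (2 : ℝ) ^ L := by
    rw [hL, Real.rpow_natCast]
    exact_mod_cast h2
  calc ((n : ℝ) + 1) * (2 : ℝ) ^ ((n : ℝ) / Real.logb 2 n ^ 3)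
      ≤ (2 : ℝ) ^ L * (2 : ℝ) ^ (L * k - L) :=
        mul_le_mul b6 (Real.rpow_le_rpow_of_exponent_le (by norm_num) (b4.trans b5))
          (by positivity) (by positivity)
    _ = (2 : ℝ) ^ (L * k) := by
        rw [← Real.rpow_add (by norm_num)]
        congr 1
        ring
    _ = 2 ^ (pL n * kR n) := by
        rw [hL, hk, ← Nat.cast_mul, Real.rpow_natCast]

lemma pL_large (n : ℕ) (h : 2 ^ 39 ≤ n) : 40 ≤ pL n := by
  have h1 : Nat.log 2 (2 ^ 39) ≤ Nat.log 2 n := Nat.log_mono_right h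
  rw [Nat.log_pow one_lt_two] at h1
  unfold pL
  omega

end SUR_

open SUR_ in
theorem p_SUR (h1 : T_ALR) : T_SUR := by
  obtain ⟨C0, n₀, hn₀⟩ := h1
  refine ⟨8 * ((C0 : ℝ) + 1), by positivity, ?_⟩
  intro C hC hsup hbig
  obtain ⟨N, hN⟩ := hbig
  refine ⟨max (max n₀ (N ^ 2)) (2 ^ 39), fun n hn => ?_⟩
  have hn0 : n₀ ≤ n := (le_max_left _ _).trans ((le_max_left _ _).trans hn)
  have hnN : N ^ 2 ≤ n := (le_max_right _ _).trans ((le_max_left _ _).trans hn)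
  have h40 : 40 ≤ pL n := pL_large n ((le_max_right _ _).trans hn)
  have hterm : ∀ r ∈ Icc (kR n) n, 2 ^ (C0 * pL n * r) * HER47.cn C (n - r) *
      2 ^ (pL n * kR n) ≤ HER47.cn C n := by
    intro r hr
    rw [mem_Icc] at hr
    have g1 := big_r h40 hr.1
    have h2 : N ≤ r := by
      by_contra hc
      push Not at hc
      have : r ^ 2 < N ^ 2 := Nat.pow_lt_pow_left hc (by norm_num)
      omega
    have h3 := big C0 C h40 hr.1 (hN r h2)
    calc 2 ^ (C0 * pL n * r) * HER47.cn C (n - r) * 2 ^ (pL n * kR n)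
        ≤ 2 ^ (C0 * pL n * r) * HER47.cn C (n - r) * 2 ^ (pL n * r) :=
          Nat.mul_le_mul_left _ (Nat.pow_le_pow_right (by norm_num)
            (Nat.mul_le_mul_left _ hr.1))
      _ = 2 ^ ((C0 + 1) * pL n * r) * HER47.cn C (n - r) := by
          rw [show (C0 + 1) * pL n * r = C0 * pL n * r + pL n * r by ring, pow_add]
          ring
      _ ≤ HER47.cn C r * HER47.cn C (n - r) := Nat.mul_le_mul_right _ h3
      _ ≤ HER47.cn C (r + (n - r)) := hsup _ _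
      _ = HER47.cn C n := by rw [Nat.add_sub_cancel' hr.2]
  have hsum : HER47.bn C n * 2 ^ (pL n * kR n) ≤ (n + 1) * HER47.cn C n := by
    calc HER47.bn C n * 2 ^ (pL n * kR n)
        ≤ (∑ r ∈ Icc (kR n) n, 2 ^ (C0 * pL n * r) * HER47.cn C (n - r)) *
            2 ^ (pL n * kR n) := Nat.mul_le_mul_right _ (hn₀ C hC n hn0)
      _ = ∑ r ∈ Icc (kR n) n, 2 ^ (C0 * pL n * r) * HER47.cn C (n - r) *
            2 ^ (pL n * kR n) := by rw [Finset.sum_mul]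
      _ ≤ ∑ r ∈ Icc (kR n) n, HER47.cn C n := Finset.sum_le_sum hterm
      _ = (n + 1 - kR n) * HER47.cn C n := by
          rw [Finset.sum_const, Nat.card_Icc, smul_eq_mul]
      _ ≤ (n + 1) * HER47.cn C n := Nat.mul_le_mul_right _ (Nat.sub_le _ _)
  have hnum := num h40
  have hsum' : (HER47.bn C n : ℝ) * 2 ^ (pL n * kR n) ≤ ((n : ℝ) + 1) * HER47.cn C n := by
    exact_mod_cast hsum
  have hfin : ((n : ℝ) + 1) * ((2 : ℝ) ^ ((n : ℝ) / Real.logb 2 n ^ 3) *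
      (HER47.bn C n : ℝ)) ≤ ((n : ℝ) + 1) * HER47.cn C n := by
    calc ((n : ℝ) + 1) * ((2 : ℝ) ^ ((n : ℝ) / Real.logb 2 n ^ 3) * (HER47.bn C n : ℝ))
        = (HER47.bn C n : ℝ) * (((n : ℝ) + 1) * (2 : ℝ) ^ ((n : ℝ) / Real.logb 2 n ^ 3)) := by
          ring
      _ ≤ (HER47.bn C n : ℝ) * 2 ^ (pL n * kR n) :=
          mul_le_mul_of_nonneg_left hnum (by positivity)
      _ ≤ _ := hsum'
  exact le_of_mul_le_mul_left hfin (by positivity)

end Pool.Agent.NRR
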