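import Pool.Agent.NRR.Defs

/-!
# NRR: exact targets with complete proofs in the docstrings

One file per target: `Pool/Agent/NRR/P_X.lean`, theorem
`Pool.Agent.NRR.p_X (other targets) : T_X`; the targets after `from` are the hypotheses (targets of
NRP, NRQ, NRC, NRM may also be used as hypotheses, `h : NRP.T_LEV` etc.; nearly all are proved,
files `P_X.lean` in these folders). `n = Fintype.card V`, `I = IN G (2 * g) A`, `log` is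
`Real.logb 2`. `SC G g M A P` (NRM) is `SCP (IN G (2 * g) A) P M` (by definition).
-/

set_option autoImplicit false

open Finset Classical

namespace Pool.Agent.NRR

open Pool.Agent Pool.Agent.Lib.Recon Pool.Agent.RNB Pool.Agent.NRC Pool.Agent.NRM
  Pool.Agent.NRP

/-! ## A. the levels -/

/-- LVY (from NRP.T_LEV, NRP.T_SLR, NRP.T_NRD, NRP.T_RMK): `NRP.T_LVS` with an exceptional set
`Y ⊆ T0`. PROOF. Copy of NRP/P_LVS.lean with `NRM.p_ELM` (NRM/P_ELM.lean, `d = KK`) in place of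
`p_ELO` (`PL` is disjoint from `Y`). -/
def T_LVY : Prop := ∀ (V : Type) [Fintype V] (G : SimpleGraph V) (g q h M d k : ℕ)
  (A T0 Y : Finset V) (ms : V → ℕ) (c ρ : ℝ), 1 ≤ Fintype.card V → d ≤ Fintype.card V →
  Far G KK Y → Y ⊆ T0 →
  Lv G g q h A T0 → Mk (kc G) T0 ms → (∀ y, ms y = 0 ∨ KH ≤ ms y) →
  (∀ y ∈ PL G g q A T0, ms y = 0 ∨ q < ms y) → Co G T0 (c + Ph ms) →
  (∀ Q : Finset V, Q ⊆ PL G g q A T0 → M < Q.card → (∀ y ∈ Q, IN G (2 * g) A y ⊆ Q) →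
    ∃ y ∈ Q, 1 + Real.logb 2 (kc G T0 y) ≤ ρ) →
  (∃ Q, Sc (IN G (2 * g) A) (PL G g q A T0) M Q) ∨
  ∃ (T' : Finset V) (ms' : V → ℕ) (s x e : ℕ), T0 ⊆ T' ∧ Nr G d T' ∧
    M * s ≤ Fintype.card V ∧ q * e ≤ Fintype.card V ∧
    (x : ℝ) ≤ ((Fintype.card V : ℝ) * (1 + q + h * (2 * g))) *
      (1 - (d : ℝ) / (2 * Fintype.card V)) ^ k ∧
    Mk (kc G) T' ms' ∧ (∀ y, ms' y = 0 ∨ KH ≤ ms' y) ∧
    Cz (IN G (2 * g) A) (PL G g q A T0) T' ∧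
    Co G T' (c + ρ * s + 4 * (1 + Real.logb 2 q) * (k + x) + 6 * KH * e + Ph ms')

/-- LVK (from LVY, NRP.T_CBN): all small closed components get a root. PROOF. `P = PL G g q A T0`,
`Q2` = one element of each member of `SCP I P M` (nonempty), `T1 = T0 ∪ Q2`; by CBN the additional
cost is at most `(1 + log n) |SCP|`. `PL G g q A T1 = P \ Q2`; `Lv`, `Mk`, the marks on `PL` for
`T1`: clear. The hypothesis on closed sets for `T1`: `1 ≤ kc G T1 y ≤ kc G T0 y` for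
`y ∈ Q ⊆ P \ Q2`. LVY for `T1`. The first alternative is impossible: a set `Q` with
`Sc I (P \ Q2) M Q`, connected from `y0 ∈ Q`, is `cmp I P y0` (closed, so it contains all steps;
and all of `Q` is reached), so it is in `SCP I P M` and contains an element of `Q2`. -/
def T_LVK : Prop := ∀ (V : Type) [Fintype V] (G : SimpleGraph V) (g q h M d k : ℕ)
  (A T0 Y : Finset V) (ms : V → ℕ) (c ρ : ℝ), 1 ≤ Fintype.card V → d ≤ Fintype.card V →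
  Far G KK Y → Y ⊆ T0 →
  Lv G g q h A T0 → Mk (kc G) T0 ms → (∀ y, ms y = 0 ∨ KH ≤ ms y) →
  (∀ y ∈ PL G g q A T0, ms y = 0 ∨ q < ms y) → Co G T0 (c + Ph ms) →
  (∀ Q : Finset V, Q ⊆ PL G g q A T0 → M < Q.card → (∀ y ∈ Q, IN G (2 * g) A y ⊆ Q) →
    ∃ y ∈ Q, 1 + Real.logb 2 (kc G T0 y) ≤ ρ) →
  ∃ (T1 T' : Finset V) (ms' : V → ℕ) (s x e : ℕ), T0 ⊆ T1 ∧ T1 ⊆ T' ∧ Nr G d T' ∧
    M * s ≤ Fintype.card V ∧ q * e ≤ Fintype.card V ∧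
    (x : ℝ) ≤ ((Fintype.card V : ℝ) * (1 + q + h * (2 * g))) *
      (1 - (d : ℝ) / (2 * Fintype.card V)) ^ k ∧
    Mk (kc G) T' ms' ∧ (∀ y, ms' y = 0 ∨ KH ≤ ms' y) ∧
    Lv G g q h A T1 ∧ Cz (IN G (2 * g) A) (PL G g q A T1) T' ∧
    Co G T' (c + (1 + Real.logb 2 (Fintype.card V)) *
      (SCP (IN G (2 * g) A) (PL G g q A T0) M).card + ρ * s +
      4 * (1 + Real.logb 2 q) * (k + x) + 6 * KH * e + Ph ms')

/-- STK (from LVK, NRP.T_LVT, NRP.T_ECO, NRP.T_CLO, NRP.T_NUM, NRP.T_XBD, NRP.T_CBN): one step.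
PROOF. Copy of NRP/P_STP.lean: `T2 ⊇ T` from `hR` (cost at most `(1 + log n) (8 g1 n / qq)`); if
the number of small closed components of the level is more than `κ`: first alternative; otherwise
LVK with `T0 = T2 ∪ EE G (d^2) T2` (cost at most `(1 + log n) κ` more). -/
def T_STK : Prop := ∀ (V : Type) [Fintype V] (G : SimpleGraph V) (A T01 T1 T Y : Finset V)
  (g1 qq h1 d M κ : ℕ) (ms : V → ℕ) (c : ℝ),
  (∀ T : Finset V, A ∪ EE G g1 A ⊆ T → ∃ T' : Finset V, T ⊆ T' ∧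
    NRQ.Rich G (2 * g1) qq A T' ∧ qq * (T' \ T).card ≤ 8 * g1 * Fintype.card V) →
  KK ≤ d → d ≤ Fintype.card V → 2 * g1 + d ^ 2 + 2 ≤ qq → 1 ≤ M →
  Cx G A T01 T1 g1 qq h1 → T1 ⊆ T → Far G KK Y → Y ⊆ T →
  Nr G d T → Mk (kc G) T ms →
  (∀ y, ms y = 0 ∨ KH ≤ ms y) → Co G T (c + Ph ms) →
  (∃ T2 : Finset V, T ⊆ T2 ∧ NRQ.Rich G (2 * g1) qq A T2 ∧ Nr G d T2 ∧
    κ < (SCP (IN G (2 * d ^ 2) T2)
      (PL G (d ^ 2) (d ^ 4) T2 (T2 ∪ EE G (d ^ 2) T2)) M).card) ∨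
  ∃ (T' : Finset V) (ms' : V → ℕ), T ⊆ T' ∧ Nr G (nx d) T' ∧
    Mk (kc G) T' ms' ∧ (∀ y, ms' y = 0 ∨ KH ≤ ms' y) ∧
    Co G T' (c + (1 + Real.logb 2 (Fintype.card V)) *
        (8 * g1 * Fintype.card V / qq + κ) +
      18 * Fintype.card V / lam d + (1 + Real.logb 2 qq) * (Fintype.card V / M) + Ph ms')

/-- ITK (from STK, NRP.T_NUM, NRP.T_PW): all steps. PROOF. Copy of NRP/P_ITR.lean with
`ρ = (1 + log n) (8 g1 n / qq + κ) + (1 + log qq) (n / M)`; `Dst G T'`: two mates outside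
`T' ⊇ Y` have `KK ≤ |dset| < nx d ≤ KK`. -/
def T_ITK : Prop := ∀ (V : Type) [Fintype V] (G : SimpleGraph V) (A T01 T1 T Y : Finset V)
  (g1 qq h1 d M κ : ℕ) (ms : V → ℕ) (c : ℝ),
  (∀ T : Finset V, A ∪ EE G g1 A ⊆ T → ∃ T' : Finset V, T ⊆ T' ∧
    NRQ.Rich G (2 * g1) qq A T' ∧ qq * (T' \ T).card ≤ 8 * g1 * Fintype.card V) →
  KK ≤ d → d ≤ Fintype.card V → 2 * g1 + d ^ 2 + 2 ≤ qq → 1 ≤ M →
  Cx G A T01 T1 g1 qq h1 → T1 ⊆ T → Far G KK Y → Y ⊆ T →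
  Nr G d T → Mk (kc G) T ms →
  (∀ y, ms y = 0 ∨ KH ≤ ms y) → Co G T (c + Ph ms) →
  (∃ (d' : ℕ) (T' : Finset V), KK ≤ d' ∧ d' ≤ d ∧ T ⊆ T' ∧
    NRQ.Rich G (2 * g1) qq A T' ∧ Nr G d' T' ∧
    κ < (SCP (IN G (2 * d' ^ 2) T')
      (PL G (d' ^ 2) (d' ^ 4) T' (T' ∪ EE G (d' ^ 2) T')) M).card) ∨
  ∃ T' : Finset V, Dst G T' ∧ Co G T' (c + Fintype.card V / 1000 + (1 + Real.logb 2 d) *
    ((1 + Real.logb 2 (Fintype.card V)) * (8 * g1 * Fintype.card V / qq + κ) +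
      (1 + Real.logb 2 qq) * (Fintype.card V / M)) + 6 * Fintype.card V * pw KH)

/-- LK1 (from LVK, NRP.T_CBS, NRP.T_XBD, NRM.T_LPP, NRM.T_ELM): the first level. `hZ` is
`NRQ.T_ZZC`. PROOF. Copy of NRP/P_LV1.lean. `g = h = pg n`, `q = q1 n`,
`PP = PP G g q h KK A Y`, `T01 = A ∪ EE G g A ∪ X2 ∪ Y ∪ (LA G g q A \ PP)`, `X2` = the `y` with
`h < (ZZ G A y).card`, `P = PL G g q A T01 ⊆ PP` (so `|In y| ≤ h` on `P`). If `|SC G g M A P|` is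
more than `kS n`: first alternative. Otherwise LVK as in LV1 (`ρ = 1 + log n`, `d = d1 n`,
`k = n / m^2`); its `T1` is the `T01` of the statement, its `T'` the `T1`. By LPP and ELM
`|LA \ PP| ≤ 2 (n / L^3 + n / q + |Y|)`, `|Y| ≤ n / L^3`; the additional costs are
`(1 + log n) (2 n / q + 3 n / L^3) + (1 + log n) kS n ≤ n / (100 L)`, small against `n / 1000`. -/
def T_LK1 : Prop := ∃ n0 : ℕ, ∀ (V : Type) [Fintype V] (G : SimpleGraph V) (A Y : Finset V),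
  n0 ≤ Fintype.card V → Far G KK Y → Y.card ≤ kR (Fintype.card V) →
  A.card ≤ pN (Fintype.card V) →
  (sm G A : ℝ) ≤ 4 * (Fintype.card V : ℝ) * (pL (Fintype.card V) : ℝ) ^ 3 →
  (∃ P : Finset V, P ⊆ PP G (pg (Fintype.card V)) (q1 (Fintype.card V))
      (pg (Fintype.card V)) KK A Y ∧
    kS (Fintype.card V) < (SC G (pg (Fintype.card V)) (M1 (Fintype.card V)) A P).card) ∨
  ∃ (T01 T1 : Finset V) (ms : V → ℕ),
    Cx G A T01 T1 (pg (Fintype.card V)) (q1 (Fintype.card V)) (pg (Fintype.card V)) ∧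
    Y ⊆ T1 ∧ Nr G (d1 (Fintype.card V)) T1 ∧ Mk (kc G) T1 ms ∧
    (∀ y, ms y = 0 ∨ KH ≤ ms y) ∧ Co G T1 (Fintype.card V / 1000 + Ph ms)

/-- NLK: numbers. PROOF. As NRP.T_NLV (NRP/P_NLV.lean): `L = pL n`, `l = pl n`, `L < 2^l`,
`pg n = 4 L^6`, `q1 n = 256 L^9`, `lam1 n ≤ 18 l`, `d1 n ≤ 10^5 l^3`;
`(1 + log n) (8 pg n * n / q1 n + kS n) ≤ 2 L (n / (8 L^3) + n / (1000 L^2))`;
`24 (4 d1 n + 1) (n / L^3) ≤ n / (1000 L^2) - 1`; `8 (2 n^2), 40 n^2 < 2^(2 L + 6) ≤ 2^(pg n)`. -/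
def T_NLK : Prop := ∃ n0 : ℕ, ∀ n : ℕ, n0 ≤ n →
  KK ≤ d1 n ∧ d1 n ≤ n ∧ 2 * pg n + d1 n ^ 2 + 2 ≤ q1 n ∧ 1 ≤ M2 n ∧ 1 ≤ pg n ∧
  2 * d1 n ^ 2 + 1 ≤ 6 * pg n ∧ 16 * pg n + 6 ≤ q2 n ∧ q1 n ≤ q2 n ∧
  5 * pg n + 2 ≤ q1 n ∧ 24 * (4 * d1 n + 1) * kR n ≤ kS n ∧ 8 * kR n ≤ kS n ∧
  40 * n ^ 2 < 2 ^ (pg n + 2) ∧ 8 * (2 * n ^ 2) < 2 ^ (pg n + 2) ∧ 1 ≤ kR n ∧
  (1 + Real.logb 2 (d1 n)) * ((1 + Real.logb 2 n) * (8 * pg n * n / q1 n + kS n) +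
    (1 + Real.logb 2 (q1 n)) * (n / M2 n)) ≤ n / 1000

/-! ## B. hints in the graph without `Z` -/

/-- NAZ (model: NRQ/P_NAM.lean): arrows with respect to `T` are hinted. PROOF. `Q = cl G T a`. The
`x ∈ Q`, `x ≠ b`, with `G.Adj b x ↔ G.Adj b a` are in `cl G (insert b T) a`, at most `2 e`; so
there is `a' ∈ Q \ Z`, `a' ≠ b`, `b ∈ dset G a a'`; `|dset G a a'| < d` by `Nr`.
(1) `|cl G A a| ≤ 16 g + 6`: `EEz G g A Z ⊆ EE G g A ⊆ T` (`sz ⊆ side`), so `a' ∈ rcz a`,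
`rcz a ⊆ cl G A a`: second alternative. From now on `|cl G A a| > 16 g + 6`. For
`z ∈ inz (4 g) a`: `|side z a| ≤ 8 g + 3` by `Ncz`, so `a ∈ SS G A z`; so
`inz (4 g) a ⊆ ZZ G A a` has at most `h` elements (`Bs`, `a ∉ T`).
(2) some `t ∈ T`, `t ∉ A`, has `|sz t a| ≤ 4 g`: `t ∉ Z`, `t ∈ inz a`, `a' ∈ sz t a`: first
alternative. (3) `a ∉ LA G (2 g) q A`, i.e. `|cl G (A ∪ EE G (2 g) A) a| ≤ q`:
`EE G (2 g) A ⊆ EEz G g A Z` (`z ∈ EE G (2 g) A ⊆ EE G g A ⊆ T`, so `z ∉ Z`; both sides have more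
than `2 g` elements, so by `Ncz` more than `g` outside `Z`; replace `y, y'` by such elements). So
`rcz a ⊆ cl G (A ∪ EE G (2 g) A) a`, and `a' ∈ rcz a` (`A ∪ EEz ⊆ T`): second alternative.
(4) `a ∈ LA G (2 g) q A`, and (2) fails: no `t ∈ T` is in `IN G (4 g) A a`, so `|Q| > 8 g` by
`Rich`. If `b ∈ IN G (4 g) A a`: `b ∈ inz (4 g) a`: first alternative. Otherwise `|side b a| > 4
g`, and `b ∉ EE G (2 g) A`, so the `x ∈ cl G A a`, `x ≠ b`, with `¬ (G.Adj b x ↔ G.Adj b a)` (one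
side) are at most `2 g`; so `|Q| ≤ 2 e + 2 g + 1 ≤ 8 g`, a contradiction. -/
def T_NAZ : Prop := ∀ (V : Type) [Fintype V] (G : SimpleGraph V) (g h q q2 d e : ℕ)
  (A T Z : Finset V) (a b : V), 1 ≤ g → 2 * e + 1 ≤ 6 * g → 16 * g + 6 ≤ q2 → q ≤ q2 →
  NRQ.Bs G g h A T → NRQ.Rich G (2 * g) q A T → Nr G d T → (∀ v ∈ Z, v ∉ T) →
  Ncz G g A Z → a ∉ T → a ∉ Z → b ∉ Z → b ∉ T → 2 * e + 1 < (cl G T a \ Z).card →
  b ∈ IN G (2 * e) T a → Hnz G g h q2 d A Z a b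

/-- HNZ (model: NRQ/P_HNC.lean). PROOF. First alternative: `b ∈ inz`, at most `h`, or `b` in one
of at most `h * (4 g)` sets `dset G a a' \ Z` (`b ∉ Z`) with at most `d` elements; second one:
one of at most `q` sets. -/
def T_HNZ : Prop := ∀ (V : Type) [Fintype V] (G : SimpleGraph V) (g h q d : ℕ)
  (A Z : Finset V) (a : V),
  (univ.filter (fun b => Hnz G g h q d A Z a b)).card ≤ h + h * (4 * g) * d + q * d

/-- RSZ (from HNZ; model: NRQ/P_RSC.lean). PROOF. Induction on `s`. -/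
def T_RSZ : Prop := ∀ (V : Type) [Fintype V] (G : SimpleGraph V) (g h q d : ℕ)
  (A Z : Finset V) (s : ℕ) (a : V),
  (RSz G g h q d A Z s a).card ≤ (h + h * (4 * g) * d + q * d + 1) ^ s

/-- INZ: everything is computed without `Z` (model: NRQ/P_IND.lean). -/
def T_INZ : Prop := ∀ (V : Type) [Fintype V] (F K : SimpleGraph V) (g h q d : ℕ)
  (A Z : Finset V), (∀ v ∈ Z, v ∉ A) →
  (∀ x y, x ∉ Z → y ∉ Z → (K.Adj x y ↔ F.Adj x y)) → ∀ (s : ℕ) (a : V), a ∉ Z →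
  RSz K g h q d A Z s a = RSz F g h q d A Z s a

/-- CTZ (from RSZ, INZ; model: NRM/P_CTM.lean and NRQ/P_DCQ.lean): one set `A`. PROOF. Union over
the `n.choose k` sets `Z`. For fixed `Z` let `e : Fin (n - k) ↪ Fin n` have range `Zᶜ`. The map
`G ↦ (G.comap e, (w, u, b, D)` restricted to `Z)` is injective on the graphs with `CdM .. A Z` (the
last two clauses give the adjacencies `z v`, `v' v`); for given `G.comap e` the sets
`RSz .. (w v)`, `RSz .. (u v)` are known (INZ), they have at most `D^s` elements each (RSZ), so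
there are at most `(2 D^s + 1)^d` sets `D v` for given `w v, u v`. `G.comap e` is in `C` by
`Her`. -/
def T_CTZ : Prop := ∀ C : HER47.Cls, HER47.Her C → ∀ (n k g h q d s : ℕ) (A : Finset (Fin n)),
  k ≤ n → Nat.card {G : SimpleGraph (Fin n) // C (Fin n) G ∧
    ∃ Z : Finset (Fin n), Z.card = k ∧ CdM G g h q d s A Z} ≤
    n.choose k * (HER47.cn C (n - k) *
      (2 * n ^ 2 * (2 * (h + h * (4 * g) * d + q * d + 1) ^ s + 1) ^ d) ^ k)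

/-- SPZ (model: NRQ/P_STP.lean). PROOF. `X j = RSz j w ∩ (W \ Z)`, increasing in `j`, `w ∈ X 0`. If
`X j = X (j+1)` then `X j` is closed under the steps `a → b` of the hypothesis, so it is `W \ Z`;
otherwise `|X j| ≥ j + 1` as long as `X j ≠ W \ Z`. -/
def T_SPZ : Prop := ∀ (V : Type) [Fintype V] (G : SimpleGraph V) (g h q d s : ℕ)
  (A Z W : Finset V) (w : V) (r : V → V → Prop), W.card ≤ s → w ∈ W → w ∉ Z →
  (∀ y ∈ W, y ∉ Z → Relation.ReflTransGen (fun a b => b ∈ W ∧ b ∉ Z ∧ r a b) w y) →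
  (∀ a ∈ W, a ∉ Z → ∀ b, b ∉ Z → r a b → Hnz G g h q d A Z a b) →
  W \ Z ⊆ RSz G g h q d A Z s w

/-- CDZ (from NAZ, SPZ; model: NRQ/P_CDW.lean). PROOF. Let `z ∈ dset G u v`, `z ∉ Z`;
`z ∉ T ∪ EE G e T` (`u ∈ cl G (T ∪ EE G e T) v`), so `|cl G (insert z T) u| ≤ e` or
`|cl G (insert z T) v| ≤ e`. First case: `z ∈ IN G (2 e) T u`, `cl G T u = cl G T v`, so `Hnz u
z` by NAZ and `z ∈ RSz 1 u ⊆ RSz s u` (for any `w`). Second case: `z ∈ IN G (2 e) T v ⊆ W`, so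
`W ≠ {v}`, and with `w` from `Atz` (`w ∉ Z`, as `W ∩ Z = {v}`) `z ∈ W \ Z ⊆ RSz s w` by SPZ
(`r a b := b ∈ IN G (2 e) T a`; NAZ: elements of `IN G (2 e) T a` are outside `T`). If `W = {v}`
take `w = u`. -/
def T_CDZ : Prop := ∀ (V : Type) [Fintype V] (G : SimpleGraph V) (g h q q2 d e s : ℕ)
  (A T Z W : Finset V) (u v : V), 1 ≤ g → 2 * e + 1 ≤ 6 * g → 16 * g + 6 ≤ q2 → q ≤ q2 →
  NRQ.Bs G g h A T → NRQ.Rich G (2 * g) q A T → Nr G d T → (∀ v ∈ Z, v ∉ T) →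
  Ncz G g A Z → 1 ≤ s → v ∈ Z → W ∩ Z = {v} → Atz (IN G (2 * e) T) s W v →
  (∀ y ∈ W, y ∉ T ∧ 2 * e + 1 < (cl G T y \ Z).card) → u ∉ Z →
  u ∈ cl G (T ∪ EE G e T) v →
  ∃ w, w ∉ Z ∧ ∀ z ∈ dset G u v, z ∉ Z →
    z ∈ RSz G g h q2 d A Z s w ∪ RSz G g h q2 d A Z s u

/-- MCZ (from CDZ): the code. PROOF. `w v` from CDZ, `b v` = truth value of `G.Adj (u v) v`,
`D v = dset G (u v) v \ Z`, fewer than `d` elements by `Nr` (`u v, v ∉ T`, same neighbours in `T`,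
`u v ≠ v`). Let `z ∉ Z`, `z ≠ u v`: `z ≠ v`, and `G.Adj z v ↔ G.Adj z (u v)` iff `z ∉ dset`. Let
`v' ∈ Z`, `v' ≠ v`: `G.Adj v' v ↔ G.Adj v' (u v)` as `v' ∉ dset G (u v) v`, `v' ≠ u v`;
`G.Adj v' (u v) ↔ G.Adj (u v') (u v)` as `u v ∉ dset G (u v') v'`, `u v ≠ v'`, `u v ≠ u v'`. -/
def T_MCZ : Prop := ∀ (V : Type) [Fintype V] (G : SimpleGraph V) (g h q q2 d e s : ℕ)
  (A T Z : Finset V) (u : V → V) (W : V → Finset V), 1 ≤ g → 2 * e + 1 ≤ 6 * g →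
  16 * g + 6 ≤ q2 → q ≤ q2 →
  NRQ.Bs G g h A T → NRQ.Rich G (2 * g) q A T → Nr G d T → (∀ v ∈ Z, v ∉ T) →
  Ncz G g A Z → 1 ≤ s →
  (∀ v ∈ Z, W v ∩ Z = {v} ∧ Atz (IN G (2 * e) T) s (W v) v ∧
    (∀ y ∈ W v, y ∉ T ∧ 2 * e + 1 < (cl G T y \ Z).card) ∧ u v ∉ Z ∧
    u v ∈ cl G (T ∪ EE G e T) v ∧
    ∀ v' ∈ Z, v' ≠ v → v' ∉ dset G (u v) v ∧ u v ∉ dset G (u v') v' ∧ u v ≠ u v') →
  CdM G g h q2 d s A Z

/-! ## C. choice of the set `Z` -/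

/-- NCP (from NRC.T_NCV): PROOF. On `P` the relation `z ∈ cmp I P y` is an equivalence relation, so
the members of `SCP` are disjoint, `K = cmp I P y` for every `y ∈ K`. For a member `K` choose `v`:
the element if `|K| = 1`; otherwise NCV (`r a b := b ∈ I a`, `y0` with `K = cmp I P y0`: every
element of `K` is reached inside `K`). `D` = the set of these `v`, `W v = cmp I P v`. -/
def T_NCP : Prop := ∀ (V : Type) [Fintype V] (I : V → Finset V) (P : Finset V) (M : ℕ),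
  (∀ y ∈ P, ∀ z ∈ P, z ∈ I y → y ∈ I z) →
  ∃ (D : Finset V) (W : V → Finset V), D.card = (SCP I P M).card ∧
    ∀ v ∈ D, W v ⊆ P ∧ Atz I M (W v) v ∧ ∀ v' ∈ D, v' ∈ W v → v' = v

/-- NIZ (from NRM.T_NIC). PROOF. `F` = for all `(z, y)` with `z, y ∉ A`, `y ≠ z`: the set
`S = side z y` if `|S| > 2 g`, and `4` disjoint subsets of `S` with `2 g + 1` elements if
`|S| ≥ 8 g + 4`. `|F| ≤ 5 n^2`. NIC: `g < |S' \ Z|` for all `S' ∈ F`. If `|S| ≥ 8 g + 4` then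
`|S \ Z| ≥ 4 (g + 1) > 4 g`. -/
def T_NIZ : Prop := ∀ (V : Type) [Fintype V] (G : SimpleGraph V) (g : ℕ) (A D : Finset V),
  40 * Fintype.card V ^ 2 < 2 ^ (g + 2) → ∃ Z ⊆ D, D.card ≤ 8 * Z.card ∧ Ncz G g A Z

/-- THN: thinning and injective mates. PROOF. The sets `cl G B x`, `x ∉ B`, are the classes of an
equivalence relation on `Bᶜ`. For a class `C` with `m ≥ 2` elements which meets `Z` in `z_C ≥ 1`
elements choose a subset of `Z ∩ C` with `min z_C (m / 2) ≥ z_C / 3` elements; `Z1` = the union.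
`|C \ Z1| ≥ |C ∩ Z1|`, so there is an injection `C ∩ Z1 → C \ Z1`; `u` = their union (classes are
disjoint). Every set `cl G B y` is a class or empty. -/
def T_THN : Prop := ∀ (V : Type) [Fintype V] (G : SimpleGraph V) (B Z : Finset V),
  (∀ x ∈ Z, x ∉ B ∧ 2 ≤ (cl G B x).card) →
  ∃ (Z1 : Finset V) (u : V → V), Z1 ⊆ Z ∧ Z.card ≤ 3 * Z1.card ∧
    (∀ x ∈ Z1, u x ∈ cl G B x ∧ u x ∉ Z1) ∧ (∀ x ∈ Z1, ∀ y ∈ Z1, u x = u y → x = y) ∧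
    ∀ y, 2 * (cl G B y ∩ Z1).card ≤ (cl G B y).card

/-- IDS: an independent set. PROOF. Induction on `|Z|`: the sum over `v ∈ Z` of the outdegrees
`|Z ∩ S v|` (without `v`) is at most `D |Z|`, so some `v ∈ Z` has at most `D` vertices `v' ∈ Z`,
`v' ≠ v`, with `v ∈ S v'`. Remove `v` and its at most `2 D` in- and out-neighbours, use the
induction hypothesis and add `v`. -/
def T_IDS : Prop := ∀ (V : Type) [Fintype V] (Z : Finset V) (S : V → Finset V) (D : ℕ),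
  (∀ v ∈ Z, (Z ∩ S v).card ≤ D) →
  ∃ Z2 ⊆ Z, Z.card ≤ (2 * D + 1) * Z2.card ∧ ∀ v ∈ Z2, ∀ v' ∈ Z2, v' ≠ v → v' ∉ S v

/-- ZE2 (from NCP, NIZ, THN, IDS): choice of `Z` on the other levels, `B` = the base. PROOF.
`D, W` from NCP; `Z0 ⊆ D` from NIZ (`Ncz` is inherited by subsets of `Z0`: `sz` grows when `Z`
shrinks); `Z1, u` from THN (`Z0 ⊆ P`, as `v ∈ W v ⊆ P`); for `v ∈ Z1` let
`S v = {v' ∈ Z1 : v' ∈ dset G (u v) v or u v' ∈ dset G (u v) v}`: at most `2 d` elements (`u` is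
injective on `Z1`, `|dset G (u v) v| < d` as `u v ∉ Z1`, so `u v ≠ v`, both are outside `B` with
the same neighbours in `B`); `Z2` from IDS with `D = 2 d`; `Z` = a subset of `Z2` with exactly `k`
elements (`24 (4 d + 1) k ≤ |D| ≤ 8 * 3 * (4 d + 1) |Z2|`). `W v ∩ Z = {v}` by NCP. -/
def T_ZE2 : Prop := ∀ (V : Type) [Fintype V] (G : SimpleGraph V) (g d M k : ℕ)
  (A B P : Finset V) (I : V → Finset V), (∀ y ∈ P, ∀ z ∈ P, z ∈ I y → y ∈ I z) →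
  40 * Fintype.card V ^ 2 < 2 ^ (g + 2) → (∀ y ∈ P, y ∉ B ∧ 2 ≤ (cl G B y).card) →
  Nr G d B → 24 * (4 * d + 1) * k ≤ (SCP I P M).card →
  ∃ (Z : Finset V) (u : V → V) (W : V → Finset V), Z.card = k ∧ Z ⊆ P ∧ Ncz G g A Z ∧
    (∀ y, 2 * (cl G B y ∩ Z).card ≤ (cl G B y).card) ∧
    ∀ v ∈ Z, W v ⊆ P ∧ W v ∩ Z = {v} ∧ Atz I M (W v) v ∧ u v ∉ Z ∧ u v ∈ cl G B v ∧
      ∀ v' ∈ Z, v' ≠ v → v' ∉ dset G (u v) v ∧ u v ∉ dset G (u v') v' ∧ u v ≠ u v'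

/-- ZE1 (from NRC.T_NCV, NRC.T_SYM, NRM.T_NIC; model: NRM/P_ZEX.lean): choice of `Z` on the first
level. PROOF. As `NRM.T_ZEX` (copy P_ZEX.lean) with a subset `P` of `PP` in place of `PP`: the
members of `SC G g M A P` are subsets of `P`. -/
def T_ZE1 : Prop := ∀ (V : Type) [Fintype V] (G : SimpleGraph V) (g q h d M k : ℕ)
  (A Y P : Finset V), 1 ≤ g → 4 * g + h + 2 ≤ q → 1 ≤ d →
  8 * (2 * Fintype.card V ^ 2) < 2 ^ (g + 2) → P ⊆ PP G g q h d A Y →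
  8 * k ≤ (SC G g M A P).card →
  ∃ Z : Finset V, Z.card = k ∧ Nice G g A Z ∧
    ∀ v ∈ Z, v ∈ PP G g q h d A Y ∧
      g < ((cl G (A ∪ EE G g A) v ∩ P0 G g q h d A Y) \ Z).card ∧ ∃ W, Att G g q M A Z W v

/-- AZ2 (from ZE2, MCZ, NRP.T_SYS, NRP.T_LVT): many small closed sets on a level with base `T` give
`CdM`. PROOF. `e = d'^2`, `qe = d'^4`, `B = T ∪ EE G e T`, `P = PL G e qe T B`, `I = IN G (2 e) T`.
By LVT and SYS the relation is symmetric on `P`. `y ∈ P`: `y ∉ B`, `|cl G B y| > qe ≥ 8 e`.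
`Nr G d B` from `Nr G d' T` (`d' ≤ d`). ZE2, then MCZ: `Z ⊆ P` is disjoint from `T`;
`|cl G T y \ Z| ≥ |cl G B y \ Z| ≥ |cl G B y| / 2 > 4 e ≥ 2 e + 1` for `y ∈ P`. -/
def T_AZ2 : Prop := ∀ (V : Type) [Fintype V] (G : SimpleGraph V)
  (g h q q2 d d' M k : ℕ) (A T : Finset V), 1 ≤ g → 2 * d' ^ 2 + 1 ≤ 6 * g →
  16 * g + 6 ≤ q2 → q ≤ q2 → KK ≤ d' → d' ≤ d → 1 ≤ M →
  40 * Fintype.card V ^ 2 < 2 ^ (g + 2) →
  NRQ.Bs G g h A T → NRQ.Rich G (2 * g) q A T → Nr G d' T →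
  24 * (4 * d + 1) * k ≤ (SCP (IN G (2 * d' ^ 2) T)
      (PL G (d' ^ 2) (d' ^ 4) T (T ∪ EE G (d' ^ 2) T)) M).card →
  ∃ Z : Finset V, Z.card = k ∧ CdM G g h q2 d M A Z

/-! ## D. non-reconstructible graphs -/

/-- the codes of both kinds for a set of `kR n` vertices -/
def GZ {V : Type} [Fintype V] (G : SimpleGraph V) (A : Finset V) : Prop :=
  ∃ Z : Finset V, Z.card = kR (Fintype.card V) ∧
    (GdM G (pg (Fintype.card V)) (M1 (Fintype.card V)) A Z ∨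
      CdM G (pg (Fintype.card V)) (pg (Fintype.card V)) (q2 (Fintype.card V))
        (d1 (Fintype.card V)) (M2 (Fintype.card V)) A Z)

/-- ONR (from LK1, ITK, NLK, ZE1, AZ2, NRM.T_MGD, NRM.T_RCM, NRP.T_DON; `hR` is `NRQ.T_RIC`).
PROOF. `g = pg n`, `q = q1 n`. By `RCM` there is `H` with the cards of `G`, not isomorphic to
`G`. LK1. First alternative: ZE1 (`k = kR n`, `8 k ≤ kS n`, `d = KK`) and MGD give `GdM`. Second
one: ITK with `T = T1`, `d = d1 n`, `M = M2 n`, `κ = kS n`, `c = n / 1000` (`hR`: RIC with `2 g`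
for `g`: `EE G (2 g) A ⊆ EE G g A`, `2 (2 g) ≤ q`). Its second alternative contradicts the choice
of `H` (DON, cost at most `4 n / 1000`; `6 pw KH ≤ 1 / 1000` from NRP.T_NLV). Its first
alternative and AZ2 (`Bs` from `Cx`, `T01 ⊆ T1 ⊆ T'`; `d' ≤ d1 n`) give `CdM`. -/
def T_ONR : Prop := ∃ n0 : ℕ, ∀ (V : Type) [Fintype V] (G : SimpleGraph V),
  n0 ≤ Fintype.card V → ¬ HER47.Rec G → ∀ Y : Finset V, Y.card ≤ kR (Fintype.card V) →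
  Far G KK Y → ∀ A : Finset V, A.card ≤ pN (Fintype.card V) →
  (sm G A : ℝ) ≤ 4 * (Fintype.card V : ℝ) * (pL (Fintype.card V) : ℝ) ^ 3 → GZ G A

/-- HLR (from ONR). PROOF. Copy of NRM/P_HLM.lean. -/
def T_HLR : Prop := ∃ n0 : ℕ, ∀ (V : Type) [Fintype V] (G : SimpleGraph V),
  n0 ≤ Fintype.card V → ¬ HER47.Rec G → ∀ Y : Finset V, Y.card ≤ kR (Fintype.card V) →
  Far G KK Y →
  Fintype.card (Fin (pN (Fintype.card V)) × (Fin (pN (Fintype.card V)) → V)) ≤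
    2 * (univ.filter (fun p : Fin (pN (Fintype.card V)) × (Fin (pN (Fintype.card V)) → V) =>
      GZ G (Bi ∅ p.2 p.1))).card

/-- the two factors for one removed vertex -/
def XR (n : ℕ) : ℕ := 2 * n ^ 3 * 2 ^ (M1 n) + 2 * n ^ 2 *
  (2 * (pg n + pg n * (4 * pg n) * d1 n + q2 n * d1 n + 1) ^ (M2 n) + 1) ^ (d1 n)

/-- NBR. PROOF. As NRP.T_NBQ (NRP/P_NBQ.lean): `XR n ≤ 2^(C0 L)`, `L = pL n`, `n < 2^L`. -/
def T_NBR : Prop := ∃ C0 n0 : ℕ, ∀ n : ℕ, n0 ≤ n → XR n ≤ 2 ^ (C0 * pL n)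

/-- AVR (from HLR, CTZ, NRM.T_CTM; model: NRM/P_AVM.lean). PROOF. Double count over `Ω`; for one
set `A` the number of graphs with `GZ` is at most `n.choose k * (cn C (n - k) * (x^k + y^k))`,
`x^k + y^k ≤ (x + y)^k` (`k = kR n ≥ 1` for `n` large). -/
def T_AVR : Prop := ∃ n0 : ℕ, ∀ C : HER47.Cls, HER47.Her C → ∀ n : ℕ, n0 ≤ n →
  Nat.card {G : SimpleGraph (Fin n) // C (Fin n) G ∧ ¬ HER47.Rec G ∧
    ∃ Y : Finset (Fin n), Y.card ≤ kR n ∧ Far G KK Y} ≤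
    2 * (n.choose (kR n) * (HER47.cn C (n - kR n) * XR n ^ (kR n)))

/-- ALR (from AVR, NBR, NRM.T_MAX, HER47.T_CODE; model: NRM/P_ALM.lean). PROOF. `K = KK`
(constant), `k = kR n`. `G` non-reconstructible in `C`, `M` from MAX (`K = KK`). If `|Mᶜ| ≤ k`:
AVR, at most `2 * 2^(L k) * 2^(C L k) * cn C (n - k)`. If `r = |Mᶜ| > k`: at most `2^(L r)` sets
`M`, each by CODE at most `cn C (n - r) * (2 n (n+1)^KK)^r` graphs. All factors are at most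
`2^(C0 L r)`. -/
def T_ALR : Prop := ∃ C0 n0 : ℕ, ∀ C : HER47.Cls, HER47.Her C → ∀ n : ℕ, n0 ≤ n →
  HER47.bn C n ≤ ∑ r ∈ Icc (kR n) n, 2 ^ (C0 * pL n * r) * HER47.cn C (n - r)

/-- SUR (from ALR; model: NRM/P_SUM.lean). PROOF. `A0 = 8 (C0 + 1)`, `k = kR n ≥ n / (2 L^3) ≥
sqrt n` for `n` large: for `r ≥ k`: `log r ≥ L / 4`, so `Big3 A0 C r` gives `cn C r ≥ 2^((C0 + 1)
L r)`. So each term of ALR times `2^(L k)` is at most `cn C r * cn C (n - r) ≤ cn C n`, and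
`bn C n * 2^(L k) ≤ (n + 1) * cn C n`; `L k ≥ n / (2 L^2) ≥ n / (log n)^3 + 2 L` for `n` large. -/
def T_SUR : Prop := ∃ A0 : ℝ, 0 < A0 ∧ ∀ C : HER47.Cls, HER47.Her C →
  (∀ a b : ℕ, HER47.cn C a * HER47.cn C b ≤ HER47.cn C (a + b)) →
  (∃ N : ℕ, ∀ n : ℕ, N ≤ n → Big3 A0 C n) → ∃ N : ℕ, ∀ n : ℕ, N ≤ n →
    (2 : ℝ) ^ ((n : ℝ) / Real.logb 2 n ^ 3) * (HER47.bn C n : ℝ) ≤ (HER47.cn C n : ℝ)

/-- INR (from ALR; model: NRM/P_INM.lean). PROOF. `A0 = 8 (C0 + 2)`. Otherwise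
`cn C m < 2^(m / (log m)^3) * bn C m` for all `m ≥ N1`. Let `D = 1 + ∑_{m ≤ N1} cn C m`. Claim:
`cn C m ≤ D * 2^((C0 + 1) * pL n * m)` for `m ≤ n` (strong induction): for `m > N1` by ALR
`cn C m ≤ 2^(m / (log m)^3) * ∑_{r ≥ k} 2^(C0 pL m r) * D * 2^((C0 + 1) pL n (m - r))`,
`k = kR m`, each term is at most `D * 2^((C0+1) pL n m) / 2^(pL m k)`, and
`(m + 1) 2^(m / (log m)^3) ≤ 2^(pL m k)` as in SUR. For `m = n` large this contradicts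
`Big3 A0 C n`. -/
def T_INR : Prop := ∃ A0 : ℝ, 0 < A0 ∧ ∀ C : HER47.Cls, HER47.Her C →
  (∀ N : ℕ, ∃ n : ℕ, N ≤ n ∧ Big3 A0 C n) → ∀ N : ℕ, ∃ n : ℕ, N ≤ n ∧
    (2 : ℝ) ^ ((n : ℝ) / Real.logb 2 n ^ 3) * (HER47.bn C n : ℝ) ≤ (HER47.cn C n : ℝ)

/-! ## E. one removed vertex -/

/-- CT1. PROOF. Union over the `n + 1` vertices `v`. For fixed `v` the graph
`G.comap (Fin.succAbove v)` is in `C` (`Her`); for each of the `cn C n` values choose one graph `F`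
on `Fin (n + 1)` with this value; the `G` with this value agree with `F` off `v`, so there are at
most `B` of them with `P G v`. -/
def T_CT1 : Prop := ∀ C : HER47.Cls, HER47.Her C → ∀ (n B : ℕ)
  (P : SimpleGraph (Fin (n + 1)) → Fin (n + 1) → Prop),
  (∀ (F : SimpleGraph (Fin (n + 1))) (v : Fin (n + 1)),
    (univ.filter (fun K : SimpleGraph (Fin (n + 1)) =>
      (∀ x y, x ≠ v → y ≠ v → (K.Adj x y ↔ F.Adj x y)) ∧ P K v)).card ≤ B) →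
  Nat.card {G : SimpleGraph (Fin (n + 1)) // C (Fin (n + 1)) G ∧ ∃ v, P G v} ≤
    (n + 1) * (HER47.cn C n * B)

/-- AV1 (from CT1, NRP.T_HLQ, NRM.T_RCM, NRQ.T_DCQ, NRQ.T_DC1; model: NRM/P_AVM.lean). PROOF.
`Ω = Fin N × (Fin N → Fin (n + 1))`, `N = pN (n + 1) ≥ 1`. A non-reconstructible `G` with all
differences at least `KK` has (RCM) a graph `H` with the same cards, not isomorphic, so by HLQ at
least half of the `p ∈ Ω` have some `v` with `Gq G (Bi ∅ p.2 p.1) v`. For one `p`: CT1 with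
`P G v = Gq G A v`, `B = NN (n + 1)` (DC1 + DCQ). -/
def T_AV1 : Prop := ∃ n0 : ℕ, ∀ C : HER47.Cls, HER47.Her C → ∀ n : ℕ, n0 ≤ n →
  Nat.card {G : SimpleGraph (Fin (n + 1)) // C (Fin (n + 1)) G ∧ ¬ HER47.Rec G ∧
    ∀ u v, u ≠ v → KK ≤ (dset G u v).card} ≤
    2 * ((n + 1) * (HER47.cn C n * NN (n + 1)))

/-- BN1 (from AV1, NRP.T_NBQ, HER47.T_CODE): the number of non-reconstructible members. PROOF. `n`
large: the members with two vertices `u ≠ v` with `|dset G u v| < KK`: `Dom KK G {u}ᶜ`, by CODE at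
most `(n + 1) * (cn C n * (2 (n+1) (n+2)^KK))`; the others AV1, `NN (n + 1) ≤ (n + 1)^C`. Small
`n`: if `bn C (n+1) ≥ 1` then `cn C n ≥ 1` (`Her`), `bn C (n+1) ≤ 2^((n0+1)^2)`, and
`(n+1)^A ≥ 2^A`. -/
def T_BN1 : Prop := ∃ A : ℕ, ∀ C : HER47.Cls, HER47.Her C → ∀ n : ℕ, 1 ≤ n →
  HER47.bn C (n + 1) ≤ (n + 1) ^ A * HER47.cn C n

end Pool.Agent.NRR
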